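import Mathlib

/-!
# The augmentation ideal of the mod `p` group algebra of a finite `p`-group is nilpotent
-/

set_option autoImplicit false

namespace Pool.Agent.MP_23c465_al

/-- A finite `p`-group acting linearly on a finite `ZMod p`-module acts unipotently. -/
theorem aug_key (p : ℕ) [Fact p.Prime] (P : Type) [Group P] [Finite P] (hP : IsPGroup p P) :
    ∀ n : ℕ, ∀ (V : Type) [AddCommGroup V] [Module (ZMod p) V] [Finite V]
      (ρ : P →* Module.End (ZMod p) V), Nat.card V ≤ n →
      ∃ k : ℕ, ∀ l : List P, k ≤ l.length → (l.map fun g => ρ g - 1).prod = 0 := by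
  intro n
  induction n with
  | zero =>
    intro V _ _ _ ρ h
    exact absurd (Nat.card_pos (α := V)) (by omega)
  | succ n ih =>
    intro V _ _ _ ρ hcard
    rcases subsingleton_or_nontrivial V with hV | hV
    · exact ⟨0, fun l _ => LinearMap.ext fun v => Subsingleton.elim _ _⟩
    -- the submodule of fixed vectors
    let F : Submodule (ZMod p) V :=
      { carrier := {v | ∀ g : P, ρ g v = v}
        add_mem' := by
          intro a b ha hb g
          rw [map_add, ha g, hb g]
        zero_mem' := by
          intro g
          rw [map_zero]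
        smul_mem' := by
          intro c a ha g
          rw [map_smul, ha g] }
    have memF : ∀ v : V, v ∈ F ↔ ∀ g : P, ρ g v = v := fun v => Iff.rfl
    have hF : ∃ v : V, v ∈ F ∧ v ≠ 0 := by
      let _ : MulAction P V :=
        { smul := fun g v => ρ g v
          one_smul := by
            intro v
            change ρ 1 v = v
            rw [map_one]; rfl
          mul_smul := by
            intro g h v
            change ρ (g * h) v = ρ g (ρ h v)
            rw [map_mul]; rfl }
      have hdvd : p ∣ Nat.card V := by
        rw [Module.natCard_eq_pow_finrank (K := ZMod p) (V := V), Nat.card_zmod]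
        refine dvd_pow_self p ?_
        have : 0 < Module.finrank (ZMod p) V := Module.finrank_pos
        omega
      have h0 : (0 : V) ∈ MulAction.fixedPoints P V := by
        intro g
        exact map_zero (ρ g)
      obtain ⟨b, hb, hb0⟩ := hP.exists_fixed_point_of_prime_dvd_card_of_fixed_point V hdvd h0
      exact ⟨b, fun g => hb g, fun h => hb0 h.symm⟩
    obtain ⟨v0, hv0, hv00⟩ := hF
    have hinv : ∀ g : P, F ≤ F.comap (ρ g) := by
      intro g v hv
      rw [Submodule.mem_comap, hv g]
      exact hv
    let ρ' : P →* Module.End (ZMod p) (V ⧸ F) :=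
      { toFun := fun g => F.mapQ F (ρ g) (hinv g)
        map_one' := by
          ext v
          simp
        map_mul' := by
          intro g h
          ext v
          simp }
    have hρ' : ∀ (g : P) (v : V), ρ' g (F.mkQ v) = F.mkQ (ρ g v) := fun g v => rfl
    have hfin : Finite (V ⧸ F) := Finite.of_surjective F.mkQ (Submodule.mkQ_surjective F)
    have hlt : Nat.card (V ⧸ F) < Nat.card V := by
      have h1 : Nat.card V = Nat.card F * Nat.card (V ⧸ F) := by
        have := F.toAddSubgroup.card_eq_card_quotient_mul_card_addSubgroup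
        rw [mul_comm] at this
        exact this
      have h2 : 1 < Nat.card F := by
        have : Nontrivial F := ⟨⟨⟨v0, hv0⟩, 0, fun h => hv00 (congrArg Subtype.val h)⟩⟩
        exact Finite.one_lt_card
      have h3 : 0 < Nat.card (V ⧸ F) := Nat.card_pos
      nlinarith
    obtain ⟨k, hk⟩ := ih (V ⧸ F) ρ' (by omega)
    refine ⟨k + 1, fun l hl => ?_⟩
    have hcomm : ∀ (l : List P) (v : V), F.mkQ ((l.map fun g => ρ g - 1).prod v)
        = (l.map fun g => ρ' g - 1).prod (F.mkQ v) := by
      intro l
      induction l with
      | nil => intro v; rfl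
      | cons g l ihl =>
        intro v
        rw [List.map_cons, List.prod_cons, List.map_cons, List.prod_cons, Module.End.mul_apply,
          Module.End.mul_apply, ← ihl v, LinearMap.sub_apply, LinearMap.sub_apply, map_sub, hρ']
        rfl
    match l with
    | [] => simp at hl
    | g :: l =>
      have hl' : k ≤ l.length := by simpa using hl
      ext v
      rw [List.map_cons, List.prod_cons, Module.End.mul_apply]
      have h1 := hcomm l v
      rw [hk l hl', LinearMap.zero_apply, Submodule.mkQ_apply, Submodule.Quotient.mk_eq_zero] at h1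
      rw [LinearMap.sub_apply, Module.End.one_apply, h1 g, sub_self]
      rfl

/-- For a finite `p`-group `P` there is a `k` such that every product of `k` elements `g - 1` of
`(ZMod p)[P]` is zero.

Proof: let `V = (ZMod p)[P]`, a finite `ZMod p`-vector space on which `P` acts by left
multiplication; `W 0 = ⊥`, `W (i+1) = {v | ∀ g, g v - v ∈ W i}`.  If `W i ≠ ⊤` the `p`-group `P`
acts on the nonzero `p`-group `V ⧸ W i` with a nonzero fixed point
(`IsPGroup.card_modEq_card_fixedPoints`), so `W i < W (i+1)`; hence `W k = ⊤` for some `k`. -/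
theorem aug_nilpotent (p : ℕ) [Fact p.Prime] (P : Type) [Group P] [Finite P]
    (hP : ∃ k : ℕ, Nat.card P = p ^ k) :
    ∃ k : ℕ, ∀ l : List P, k ≤ l.length →
      (l.map fun g => (MonoidAlgebra.of (ZMod p) P g - 1 : MonoidAlgebra (ZMod p) P)).prod = 0 := by
  obtain ⟨m, hm⟩ := hP
  have hP' : IsPGroup p P := IsPGroup.of_card hm
  have : Finite (MonoidAlgebra (ZMod p) P) := by
    have hfun : Finite (P → ZMod p) := by
      have : Finite (ZMod p) := inferInstance
      exact Pi.finite
    refine Finite.of_injective
      (fun f : MonoidAlgebra (ZMod p) P => (fun g => f.coeff g : P → ZMod p)) ?_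
    intro f g hfg
    exact MonoidAlgebra.coeff_injective (DFunLike.coe_injective hfg)
  let L := Algebra.lmul (ZMod p) (MonoidAlgebra (ZMod p) P)
  let ρ : P →* Module.End (ZMod p) (MonoidAlgebra (ZMod p) P) :=
    (L : MonoidAlgebra (ZMod p) P →* Module.End (ZMod p) (MonoidAlgebra (ZMod p) P)).comp
      (MonoidAlgebra.of (ZMod p) P)
  obtain ⟨k, hk⟩ := aug_key p P hP' (Nat.card (MonoidAlgebra (ZMod p) P)) _ ρ le_rfl
  refine ⟨k, fun l hl => ?_⟩
  have h1 : L (l.map fun g =>
      (MonoidAlgebra.of (ZMod p) P g - 1 : MonoidAlgebra (ZMod p) P)).prod = 0 := by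
    rw [map_list_prod, List.map_map, ← hk l hl]
    congr 1
    refine List.map_congr_left fun g _ => ?_
    rw [Function.comp_apply, map_sub, map_one]
    rfl
  have h2 := LinearMap.congr_fun h1 1
  have h3 : L (l.map fun g =>
      (MonoidAlgebra.of (ZMod p) P g - 1 : MonoidAlgebra (ZMod p) P)).prod 1
      = (l.map fun g =>
      (MonoidAlgebra.of (ZMod p) P g - 1 : MonoidAlgebra (ZMod p) P)).prod * 1 := rfl
  rw [h3, mul_one] at h2
  exact h2

end Pool.Agent.MP_23c465_al
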