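import Pool.Agent.Lib.MP_23c465_al.Step

/-!
# The core theorem: no bad chain
-/

set_option autoImplicit false

namespace Pool.Agent.MP_23c465_al

open NC

/-- If the expansion at one point does not involve `η`, neither does the equation. -/
theorem free_of_degenerate {B R : Type} [LinearOrder B] [CommRing R] (η : B) (f x : NC B R)
    (hx1 : x [] = 1) (hxf : Free η x) (h : ∀ W : List B, η ∈ W → expand η f x W = 0) :
    Free η f := by
  have h1 := expand_mul η f x (NC.inv x) hxf hx1 (NC.inv_nil x)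
  rw [NC.mul_inv hx1] at h1
  have h2 : expand η f 1 = f := by
    unfold expand
    rw [one_mul, add_sub_cancel_left, subst_letter_self]
  rw [h2, subst_of_free h] at h1
  rw [h1]
  exact h

section
variable {k : Type} [Field k] (ω : Ultrafilter ℕ) (x : ℕ → ℕ → NC ℕ k)

/-- A good specialisation exists for almost all `j`. -/
theorem eventually_good {r : Filter.Germ (ω : Filter ℕ) k → ℕ → k}
    (hr : ∀ t : Filter.Germ (ω : Filter ℕ) k, ((r t : ℕ → k) : Filter.Germ (ω : Filter ℕ) k) = t)
    {T : Set (Filter.Germ (ω : Filter ℕ) k)} (hT : T.Finite) :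
    ∀ᶠ j in (ω : Filter ℕ), ∃ θ : genRing k ω T →+* k, Good ω r T j θ := by
  filter_upwards [los k ω T hT r hr] with j hj
  obtain ⟨θ, h1, h2⟩ := hj
  exact ⟨θ, h1, h2⟩

/-- If the value of `f` over the ultrapower is free of `a`, so are almost all its values. -/
theorem eventually_free {r : Filter.Germ (ω : Filter ℕ) k → ℕ → k}
    (hr : ∀ t : Filter.Germ (ω : Filter ℕ) k, ((r t : ℕ → k) : Filter.Germ (ω : Filter ℕ) k) = t)
    {a : ℕ} (hInv : Inv ω x r a) (f : NC ℕ k)
    (hf : Free a (val a (xU ω x) (map (constHom k ω) f))) :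
    ∀ᶠ j in (ω : Filter ℕ), Free a (val a (x j) f) := by
  obtain ⟨T, hT, hmem, hsp⟩ := hInv
  filter_upwards [hsp, eventually_good ω hr hT] with j hj hθ
  obtain ⟨θ, hθ⟩ := hθ
  have h1 := transfer_val ω x hmem j θ hθ.const (hj θ hθ) f (val_mem_gen ω x hmem f)
  rw [← h1]
  exact Free.map θ (Free.liftG hf _)

/-- If the value of each `f i` over the ultrapower is `1`, then for almost all `j` all values are
`1`. -/
theorem eventually_eq_one {r : Filter.Germ (ω : Filter ℕ) k → ℕ → k}
    (hr : ∀ t : Filter.Germ (ω : Filter ℕ) k, ((r t : ℕ → k) : Filter.Germ (ω : Filter ℕ) k) = t)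
    {a : ℕ} (hInv : Inv ω x r a) (f : ℕ → NC ℕ k)
    (hf : ∀ i, val a (xU ω x) (map (constHom k ω) (f i)) = 1) :
    ∀ᶠ j in (ω : Filter ℕ), ∀ i, val a (x j) (f i) = 1 := by
  obtain ⟨T, hT, hmem, hsp⟩ := hInv
  filter_upwards [hsp, eventually_good ω hr hT] with j hj hθ i
  obtain ⟨θ, hθ⟩ := hθ
  have h1 := transfer_val ω x hmem j θ hθ.const (hj θ hθ) (f i) (val_mem_gen ω x hmem (f i))
  rw [← h1]
  ext w
  rw [NC.map_apply, liftG_apply]
  have h2 : ∀ h, (⟨val a (xU ω x) (map (constHom k ω) (f i)) w, h⟩ : genRing k ω T) =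
      (1 : NC ℕ (genRing k ω T)) w := by
    intro h
    apply Subtype.ext
    change val a (xU ω x) (map (constHom k ω) (f i)) w = _
    rw [hf i]
    cases w with
    | nil => rfl
    | cons b w => rfl
  rw [h2]
  cases w with
  | nil => exact map_one θ
  | cons b w => exact map_zero θ

end

/-- **Core theorem.** -/
theorem core {k : Type} [Field k] [CharZero k] (n : ℕ) (hn : 1 ≤ n) (x : ℕ → ℕ → NC ℕ k)
    (hx : ∀ j, ∀ a < n, IsGL (x j a)) (hfree : ∀ j, ∀ a < n, Free a (x j a))
    (W : ℕ → NC ℕ k) (hlt : ∀ i j, i < j → val n (x j) (W i) = 1)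
    (htri : ∀ a, a + 1 < n → ∃ L : Finset (NC ℕ k), ∀ j, ∃ f ∈ L, val (a + 1) (x j) f = 1 ∧
      ∃ z : NC ℕ k, subst a (z - 1) (val a (x j) f) ≠ 1) :
    ∃ j, val n (x j) (W j) = 1 := by
  classical
  let ω : Ultrafilter ℕ := Filter.hyperfilter ℕ
  have hat : (ω : Filter ℕ) ≤ Filter.atTop := Nat.hyperfilter_le_atTop
  have hex : ∀ t : Filter.Germ (ω : Filter ℕ) k, ∃ f : ℕ → k,
      ((f : ℕ → k) : Filter.Germ (ω : Filter ℕ) k) = t := fun t =>
    Filter.Germ.inductionOn t fun f => ⟨f, rfl⟩
  choose r hr using hex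
  have hInv : ∀ a, a + 1 ≤ n → Inv ω x r a := by
    intro a
    induction a with
    | zero => exact fun _ => inv_zero ω x r
    | succ a ih =>
        intro ha
        have hInva := ih (by omega)
        obtain ⟨L, hL⟩ := htri a (by omega)
        have hL' : ∀ᶠ j in (ω : Filter ℕ), ∃ f ∈ (L : Set (NC ℕ k)), val (a + 1) (x j) f = 1 ∧
            ∃ z : NC ℕ k, subst a (z - 1) (val a (x j) f) ≠ 1 :=
          Filter.Eventually.of_forall hL
        rw [Ultrafilter.eventually_exists_mem_iff L.finite_toSet] at hL'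
        obtain ⟨f, _, hf⟩ := hL'
        refine step ω x r hr a (fun j => hx j a (by omega)) (fun j => hfree j a (by omega)) f
          (hf.mono fun j hj => hj.1) ?_ hInva
        by_contra hcon
        push Not at hcon
        have hF : Free a (val a (xU ω x) (map (constHom k ω) f)) :=
          free_of_degenerate a _ (xU ω x a)
            (IsGL.germS ω fun j => hx j a (by omega)).nil
            (Free.germS ω fun j => hfree j a (by omega)) hcon
        obtain ⟨j, hj1, hj2, z, hz⟩ := ((eventually_free ω x hr hInva f hF).and hf).exists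
        rw [val_succ, subst_of_free hj1] at hj2
        rw [subst_of_free hj1, hj2] at hz
        exact hz rfl
  obtain ⟨a, rfl⟩ : ∃ a, n = a + 1 := ⟨n - 1, by omega⟩
  have hInva := hInv a le_rfl
  have hval1 : ∀ i, ∀ᶠ j in (ω : Filter ℕ), val (a + 1) (x j) (W i) = 1 := fun i =>
    Filter.Eventually.mono (hat (Filter.eventually_gt_atTop i)) fun j hj => hlt i j hj
  have hU : ∀ i, val (a + 1) (xU ω x) (map (constHom k ω) (W i)) = 1 := by
    intro i
    rw [val_xU]
    exact germS_eq_one ω (hval1 i)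
  by_cases hB : ∃ i, ∃ V : List ℕ, a ∈ V ∧
      expand a (val a (xU ω x) (map (constHom k ω) (W i))) (xU ω x a) V ≠ 0
  · obtain ⟨i, hi⟩ := hB
    have hInvn : Inv ω x r (a + 1) :=
      step ω x r hr a (fun j => hx j a (by omega)) (fun j => hfree j a (by omega)) (W i)
        (hval1 i) hi hInva
    obtain ⟨j, hj⟩ := (eventually_eq_one ω x hr hInvn W hU).exists
    exact ⟨j, hj j⟩
  · push Not at hB
    have hF : ∀ i, Free a (val a (xU ω x) (map (constHom k ω) (W i))) := fun i =>
      free_of_degenerate a _ (xU ω x a)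
        (IsGL.germS ω fun j => hx j a (by omega)).nil
        (Free.germS ω fun j => hfree j a (by omega)) (hB i)
    have hU' : ∀ i, val a (xU ω x) (map (constHom k ω) (W i)) = 1 := by
      intro i
      have := hU i
      rwa [val_succ, subst_of_free (hF i)] at this
    obtain ⟨j, hj⟩ := (eventually_eq_one ω x hr hInva W hU').exists
    refine ⟨j, ?_⟩
    rw [val_succ, hj j]
    exact subst_one _ _

end Pool.Agent.MP_23c465_al
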