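import Pool.Agent.Lib.MP_23c465_al.NCBasic

/-!
# Series with constant term `1` modulo large words
-/

set_option autoImplicit false

namespace Pool.Agent.MP_23c465_al

open Finset NC

/-- Size of a word in the letters `ℕ`: there are finitely many words of given size, and factors
have smaller size. -/
def size (w : List ℕ) : ℕ := w.sum + w.length

theorem size_append (u v : List ℕ) : size (u ++ v) = size u + size v := by
  simp [size]; omega

theorem finite_size (N : ℕ) : {w : List ℕ | size w ≤ N}.Finite := by
  induction N with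
  | zero =>
    refine (Set.finite_singleton ([] : List ℕ)).subset fun w hw => ?_
    cases w with
    | nil => rfl
    | cons a w => simp [size] at hw
  | succ N ih =>
    refine ((Set.finite_singleton ([] : List ℕ)).union
      (((Set.finite_Iic (N + 1)).prod ih).image (fun x : ℕ × List ℕ => x.1 :: x.2))).subset
      fun w hw => ?_
    cases w with
    | nil => exact Or.inl rfl
    | cons a w =>
      have hw' : size (a :: w) ≤ N + 1 := hw
      have hs : size (a :: w) = a + 1 + size w := by simp [size]; omega
      refine Or.inr ⟨(a, w), ⟨?_, ?_⟩, rfl⟩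
      · change a ≤ N + 1
        omega
      · change size w ≤ N
        omega

/-- The group of series with constant term `1`. -/
def Gam (R : Type) [CommRing R] : Type := {f : NC ℕ R // f [] = 1}

namespace Gam

variable {R : Type} [CommRing R]

@[ext] theorem ext {f g : Gam R} (h : f.1 = g.1) : f = g := Subtype.ext h

noncomputable instance : Group (Gam R) where
  mul f g := ⟨f.1 * g.1, by simp [f.2, g.2]⟩
  one := ⟨1, rfl⟩
  inv f := ⟨NC.inv f.1, by simp⟩
  mul_assoc f g h := ext (mul_assoc f.1 g.1 h.1)
  one_mul f := ext (one_mul f.1)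
  mul_one f := ext (mul_one f.1)
  inv_mul_cancel f := ext (NC.inv_mul f.2)

theorem mul_val (f g : Gam R) : (f * g).1 = f.1 * g.1 := rfl
theorem one_val : (1 : Gam R).1 = 1 := rfl

theorem inv_val (f : Gam R) : (f⁻¹).1 = NC.inv f.1 := rfl

theorem size_take_le (w : List ℕ) (i : ℕ) : size (w.take i) ≤ size w := by
  conv_rhs => rw [← List.take_append_drop i w, size_append]
  omega

theorem size_drop_le (w : List ℕ) (i : ℕ) : size (w.drop i) ≤ size w := by
  conv_rhs => rw [← List.take_append_drop i w, size_append]
  omega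

theorem size_drop_lt {w : List ℕ} (hw : w ≠ []) {i : ℕ} (hi : i ≠ 0) :
    size (w.drop i) < size w := by
  conv_rhs => rw [← List.take_append_drop i w, size_append]
  have h1 : 0 < size (w.take i) := by
    have h2 : 0 < (w.take i).length := by
      rw [List.length_take]
      have := List.length_pos_iff.mpr hw
      omega
    unfold size
    omega
  omega

/-- Multiplying by a series which is `1` up to size `N` does not change the coefficients up to
size `N`. -/
theorem mul_low {N : ℕ} {f g : NC ℕ R} (h0 : g [] = 1)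
    (hg : ∀ w : List ℕ, w ≠ [] → size w ≤ N → g w = 0)
    {w : List ℕ} (hw : size w ≤ N) : (f * g) w = f w := by
  have h : (f * g) w = (f * 1) w := by
    refine NC.mul_congr_at (fun _ _ => rfl) (fun i _ => ?_)
    rcases eq_or_ne (w.drop i) [] with h | h
    · rw [h, h0, one_nil]
    · rw [hg _ h ((size_drop_le w i).trans hw), one_of_ne h]
  rw [h, mul_one]

theorem low_mul {N : ℕ} {f g : NC ℕ R} (h0 : f [] = 1)
    (hf : ∀ w : List ℕ, w ≠ [] → size w ≤ N → f w = 0)
    {w : List ℕ} (hw : size w ≤ N) : (f * g) w = g w := by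
  have h : (f * g) w = (1 * g) w := by
    refine NC.mul_congr_at (fun i _ => ?_) (fun _ _ => rfl)
    rcases eq_or_ne (w.take i) [] with h | h
    · rw [h, h0, one_nil]
    · rw [hf _ h ((size_take_le w i).trans hw), one_of_ne h]
  rw [h, one_mul]

/-- Series which are `1` up to size `N`. -/
def low (R : Type) [CommRing R] (N : ℕ) : Subgroup (Gam R) where
  carrier := {f | ∀ w : List ℕ, w ≠ [] → size w ≤ N → f.1 w = 0}
  mul_mem' := by
    intro f g hf hg w hw hN
    rw [mul_val, mul_low g.2 hg hN]
    exact hf w hw hN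
  one_mem' := by
    intro w hw _
    rw [one_val]
    exact one_of_ne hw
  inv_mem' := by
    intro f hf w hw hN
    have h1 := low_mul (g := NC.inv f.1) f.2 hf hN
    rw [NC.mul_inv f.2] at h1
    rw [inv_val, ← h1]
    exact one_of_ne hw

theorem mem_low {N : ℕ} {f : Gam R} :
    f ∈ low R N ↔ ∀ w : List ℕ, w ≠ [] → size w ≤ N → f.1 w = 0 := Iff.rfl

instance low_normal (N : ℕ) : (low R N).Normal := by
  refine ⟨fun f hf g => ?_⟩
  rw [mem_low] at hf ⊢
  intro w hw hN
  have h1 : (g.1 * f.1 * NC.inv g.1) w = (g.1 * NC.inv g.1) w := by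
    refine NC.mul_congr_at (fun i _ => ?_) (fun _ _ => rfl)
    exact mul_low f.2 hf ((size_take_le w i).trans hN)
  rw [NC.mul_inv g.2] at h1
  rw [mul_val, mul_val, inv_val, h1]
  exact one_of_ne hw

theorem eq_of_inv_mul {N : ℕ} {f g : Gam R} (h : f⁻¹ * g ∈ low R N) {w : List ℕ}
    (hw : size w ≤ N) : f.1 w = g.1 w := by
  have h1 : f * (f⁻¹ * g) = g := by group
  have h2 : (f.1 * (f⁻¹ * g).1) w = f.1 w := mul_low (f⁻¹ * g).2 (mem_low.mp h) hw
  rw [← mul_val, h1] at h2
  exact h2.symm

/-- Two series define the same class iff they agree up to size `N`. -/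
theorem mk_eq_mk_iff {N : ℕ} {f g : Gam R} :
    (QuotientGroup.mk f : Gam R ⧸ low R N) = QuotientGroup.mk g ↔
      ∀ w : List ℕ, size w ≤ N → f.1 w = g.1 w := by
  rw [QuotientGroup.eq]
  refine ⟨fun h w hw => eq_of_inv_mul h hw, fun h => ?_⟩
  rw [mem_low]
  intro w hw hN
  have h1 : (NC.inv f.1 * g.1) w = (NC.inv f.1 * f.1) w := by
    refine NC.mul_congr_at (fun _ _ => rfl) (fun i _ => ?_)
    exact (h _ ((size_drop_le w i).trans hN)).symm
  rw [NC.inv_mul f.2] at h1
  rw [mul_val, inv_val, h1]
  exact one_of_ne hw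

/-- The nonempty words of size at most `N`. -/
abbrev Wd (N : ℕ) : Type := {w : List ℕ // w ≠ [] ∧ size w ≤ N}

instance (N : ℕ) : Finite (Wd N) :=
  ((finite_size N).subset (fun w (hw : w ≠ [] ∧ size w ≤ N) => hw.2)).to_subtype

/-- The coefficients of the nonempty words of size at most `N`. -/
noncomputable def quotFun (R : Type) [CommRing R] (N : ℕ) :
    Gam R ⧸ low R N → (Wd N → R) := fun x => fun w => (Quotient.out x).1 w.1

theorem quotFun_bijective (N : ℕ) : Function.Bijective (quotFun R N) := by
  have hmk : ∀ (f : Gam R) (w : Wd N), quotFun R N (QuotientGroup.mk f) w = f.1 w.1 := by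
    intro f w
    have h : (QuotientGroup.mk (Quotient.out (QuotientGroup.mk f : Gam R ⧸ low R N)) :
      Gam R ⧸ low R N) = QuotientGroup.mk f := QuotientGroup.out_eq' _
    exact (mk_eq_mk_iff.mp h) w.1 w.2.2
  constructor
  · intro x y hxy
    induction x using QuotientGroup.induction_on with
    | H f =>
      induction y using QuotientGroup.induction_on with
      | H g =>
        rw [mk_eq_mk_iff]
        intro w hw
        rcases eq_or_ne w [] with rfl | h
        · rw [f.2, g.2]
        · have h1 := congrFun hxy ⟨w, h, hw⟩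
          rw [hmk, hmk] at h1
          exact h1
  · intro c
    classical
    refine ⟨QuotientGroup.mk ⟨⟨fun w => if h : w ≠ [] ∧ size w ≤ N then c ⟨w, h⟩ else 1⟩, ?_⟩, ?_⟩
    · simp
    · funext w
      rw [hmk]
      exact dif_pos w.2

/-- The quotient is a finite `p`-group when `R = ZMod (p ^ N)`: it is in bijection with the
functions from the nonempty words of size `≤ N` to `ZMod (p ^ N)`. -/
theorem finite_quot (p N : ℕ) [Fact p.Prime] :
    Finite (Gam (ZMod (p ^ N)) ⧸ low (ZMod (p ^ N)) N) := by
  have : NeZero (p ^ N) := ⟨pow_ne_zero _ (Fact.out : p.Prime).ne_zero⟩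
  exact Finite.of_injective _ (quotFun_bijective (R := ZMod (p ^ N)) N).1

theorem card_quot (p N : ℕ) [Fact p.Prime] :
    ∃ k : ℕ, Nat.card (Gam (ZMod (p ^ N)) ⧸ low (ZMod (p ^ N)) N) = p ^ k := by
  have : NeZero (p ^ N) := ⟨pow_ne_zero _ (Fact.out : p.Prime).ne_zero⟩
  refine ⟨N * Nat.card (Wd N), ?_⟩
  rw [Nat.card_congr (Equiv.ofBijective _ (quotFun_bijective (R := ZMod (p ^ N)) N)),
    Nat.card_fun, Nat.card_zmod, pow_mul]

end Gam

/-- The series attached to a generator: `1 + b` if `o = some b`, and `1` otherwise. -/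
def genSeries (R : Type) [CommRing R] (o : Option ℕ) : NC ℕ R :=
  match o with
  | some b => 1 + letter b
  | none => 1

end Pool.Agent.MP_23c465_al
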