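import Pool.Agent.Lib.MP_23c465_al.SubstBasic

/-!
# Series not involving a letter, and substitution
-/

set_option autoImplicit false
set_option linter.unusedSectionVars false

namespace Pool.Agent.MP_23c465_al

open Finset

namespace NC

variable {B R : Type} [DecidableEq B] [CommRing R]

theorem Free.one (η : B) : Free η (1 : NC B R) := by
  intro w hw
  exact one_of_ne (by rintro rfl; simp at hw)

theorem Free.zero (η : B) : Free η (0 : NC B R) := by
  intro w _
  rfl

theorem Free.add {η : B} {f g : NC B R} (hf : Free η f) (hg : Free η g) : Free η (f + g) := by
  intro w hw
  rw [add_apply, hf w hw, hg w hw, add_zero]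

theorem Free.neg {η : B} {f : NC B R} (hf : Free η f) : Free η (-f) := by
  intro w hw
  rw [neg_apply, hf w hw, neg_zero]

theorem Free.sub {η : B} {f g : NC B R} (hf : Free η f) (hg : Free η g) : Free η (f - g) := by
  intro w hw
  rw [sub_apply, hf w hw, hg w hw, sub_zero]

theorem Free.mul {η : B} {f g : NC B R} (hf : Free η f) (hg : Free η g) : Free η (f * g) := by
  intro w hw
  rw [mul_apply]
  refine Finset.sum_eq_zero fun i _ => ?_
  rw [← List.take_append_drop i w, List.mem_append] at hw
  rcases hw with h | h
  · rw [hf _ h, zero_mul]
  · rw [hg _ h, mul_zero]

theorem Free.inv {η : B} {f : NC B R} (hf : Free η f) : Free η (NC.inv f) := by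
  have hp : ∀ k : ℕ, Free η ((1 - f) ^ k) := by
    intro k
    induction k with
    | zero => rw [pow_zero]; exact Free.one η
    | succ k ih => rw [pow_succ]; exact ih.mul ((Free.one η).sub hf)
  intro w hw
  rw [inv_def]
  exact Finset.sum_eq_zero fun k _ => hp k w hw

theorem Free.D {η : B} {f : NC B R} (hf : Free η f) (b : B) : Free η (NC.D b f) := by
  intro w hw
  rw [D_apply]
  exact hf _ (List.mem_cons_of_mem _ hw)

theorem Free.letter {η c : B} (hc : c ≠ η) : Free η (NC.letter c : NC B R) := by
  intro w hw
  rw [letter_apply, if_neg]
  rintro rfl
  exact hc (List.mem_singleton.mp hw).symm

theorem Free.map {R' : Type} [CommRing R'] (φ : R →+* R') {η : B} {f : NC B R} (hf : Free η f) :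
    Free η (NC.map φ f) := by
  intro w hw
  rw [map_apply, hf w hw, map_zero]

private theorem Free.D_eq_zero {η : B} {f : NC B R} (hf : Free η f) : NC.D η f = 0 := by
  ext w
  rw [D_apply, hf _ (by simp)]
  rfl

/-- Substitution fixes the series not involving `η`. -/
theorem subst_of_free {η : B} {f : NC B R} (hf : Free η f) (s : NC B R) : subst η s f = f := by
  have key : ∀ n : ℕ, ∀ w : List B, w.length < n → ∀ f : NC B R, Free η f →
      subst η s f w = f w := by
    intro n
    induction n with
    | zero => intro w hw; omega
    | succ n ih =>
        intro w hw f hf
        cases w with
        | nil => rw [subst_nil]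
        | cons b w =>
            rw [List.length_cons] at hw
            rw [subst_cons, hf.D_eq_zero, subst_zero_right, mul_zero, zero_apply, add_zero]
            by_cases hb : b = η
            · rw [if_pos hb, hb, hf _ (by simp)]
            · rw [if_neg hb, ih w (by omega) _ (hf.D b), D_apply]
  ext w
  exact key _ w (Nat.lt_succ_self _) f hf

/-- If the substituted series does not involve `η`, neither does the result. -/
theorem free_subst {η : B} {s : NC B R} (hs : Free η s) (f : NC B R) : Free η (subst η s f) := by
  have key : ∀ n : ℕ, ∀ w : List B, w.length < n → η ∈ w → ∀ f : NC B R,
      subst η s f w = 0 := by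
    intro n
    induction n with
    | zero => intro w hw; omega
    | succ n ih =>
        intro w hw hm f
        cases w with
        | nil => simp at hm
        | cons b w =>
            rw [List.length_cons] at hw
            rw [subst_cons]
            by_cases hb : b = η
            · rw [if_pos hb, hb, hs.D_eq_zero, zero_mul, zero_apply, add_zero]
            · have hm' : η ∈ w := by
                rcases List.mem_cons.mp hm with h | h
                · exact absurd h.symm hb
                · exact h
              rw [if_neg hb, ih w (by omega) hm', zero_add, mul_apply]
              refine Finset.sum_eq_zero fun i _ => ?_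
              rw [← List.take_append_drop i w, List.mem_append] at hm'
              rcases hm' with h | h
              · rw [hs.D b _ h, zero_mul]
              · rw [ih (w.drop i) (by rw [List.length_drop]; omega) h, mul_zero]
  intro w hw
  exact key _ w (Nat.lt_succ_self _) hw f

/-- Substitution preserves series not involving another letter. -/
theorem free_subst_of_free {η c : B} {s f : NC B R} (hs : Free c s) (hf : Free c f) :
    Free c (subst η s f) := by
  have key : ∀ n : ℕ, ∀ w : List B, w.length < n → c ∈ w → ∀ f : NC B R, Free c f →
      subst η s f w = 0 := by
    intro n
    induction n with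
    | zero => intro w hw; omega
    | succ n ih =>
        intro w hw hm f hf
        cases w with
        | nil => simp at hm
        | cons b w =>
            rw [List.length_cons] at hw
            rw [subst_cons]
            by_cases hb : b = c
            · rw [hb, hs.D_eq_zero, zero_mul, zero_apply, add_zero, hf.D_eq_zero, subst_zero_right]
              split_ifs <;> rfl
            · have hm' : c ∈ w := by
                rcases List.mem_cons.mp hm with h | h
                · exact absurd h.symm hb
                · exact h
              rw [ih w (by omega) hm' _ (hf.D b), ite_self, zero_add, mul_apply]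
              refine Finset.sum_eq_zero fun i _ => ?_
              rw [← List.take_append_drop i w, List.mem_append] at hm'
              rcases hm' with h | h
              · rw [hs.D b _ h, zero_mul]
              · rw [ih (w.drop i) (by rw [List.length_drop]; omega) h _ (hf.D η), mul_zero]
  intro w hw
  exact key _ w (Nat.lt_succ_self _) hw f hf

private theorem comm_expand {a b : B} (hab : a ≠ b) {s t : NC B R} (ht : Free a t)
    (f : NC B R) (e : B) (w : List B) :
    subst a s (subst b t f) (e :: w) =
      (if e = a then 0 else if e = b then 0 else subst a s (subst b t (D e f)) w) +
        (D e t * subst a s (subst b t (D b f))) w + (D e s * subst a s (subst b t (D a f))) w := by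
  have h1 : D a (subst b t f) = subst b t (D a f) := by
    rw [D_subst, if_neg hab, ht.D_eq_zero, zero_mul, add_zero]
  rw [subst_cons, h1, D_subst, subst_add, subst_mul, subst_of_free (ht.D e), add_apply]
  by_cases ha : e = a
  · rw [if_pos ha, if_pos ha, ha, ht.D_eq_zero, zero_mul, zero_apply, add_zero]
  · rw [if_neg ha, if_neg ha]
    by_cases hb : e = b
    · rw [if_pos hb, if_pos hb, subst_zero_right, zero_apply]
    · rw [if_neg hb, if_neg hb]

/-- Substitutions for different letters commute (when the substituted series do not involve the
other letter). -/
theorem subst_comm {a b : B} (hab : a ≠ b) {s t : NC B R} (hs : Free b s) (ht : Free a t)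
    (f : NC B R) : subst a s (subst b t f) = subst b t (subst a s f) := by
  have key : ∀ n : ℕ, ∀ w : List B, w.length < n → ∀ f : NC B R,
      subst a s (subst b t f) w = subst b t (subst a s f) w := by
    intro n
    induction n with
    | zero => intro w hw; omega
    | succ n ih =>
        intro w hw f
        cases w with
        | nil => rw [subst_nil, subst_nil, subst_nil, subst_nil]
        | cons e w =>
            rw [List.length_cons] at hw
            have h1 : ∀ X g : NC B R, (X * subst a s (subst b t g)) w =
                (X * subst b t (subst a s g)) w := fun X g =>
              mul_congr_at (fun _ _ => rfl)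
                (fun i _ => ih (w.drop i) (by rw [List.length_drop]; omega) _)
            rw [comm_expand hab ht, comm_expand (Ne.symm hab) hs, h1, h1, ih w (by omega)]
            by_cases ha : e = a
            · by_cases hb : e = b
              · exact absurd (ha.symm.trans hb) hab
              · simp only [if_pos ha]
                simp [ha, hab, add_comm]
            · by_cases hb : e = b
              · simp [hb, Ne.symm hab, add_comm]
              · simp only [if_neg ha, if_neg hb]
                ring
  ext w
  exact key _ w (Nat.lt_succ_self _) f

end NC

end Pool.Agent.MP_23c465_al
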