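import Pool.Agent.Lib.MP_23c465_al.Subst

/-!
# Basic properties of the substitution `subst η s f`

All proofs: induction on the length of the word with `f` generalised, through `subst_nil`,
`subst_cons` / `D_subst` and `D_mul`.
-/

set_option autoImplicit false

namespace Pool.Agent.MP_23c465_al

open Finset

namespace NC

variable {B R : Type} [DecidableEq B] [CommRing R]

theorem subst_zero_right (η : B) (s : NC B R) : subst η s 0 = 0 := by
  have key : ∀ n : ℕ, ∀ w : List B, w.length < n → subst η s (0 : NC B R) w = 0 := by
    intro n
    induction n with
    | zero => intro w hw; omega
    | succ n ih =>
        intro w hw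
        cases w with
        | nil => rw [subst_nil]; rfl
        | cons b w =>
            rw [List.length_cons] at hw
            rw [subst_cons, D_zero, D_zero, mul_apply, ih w (by omega), Finset.sum_eq_zero, add_zero]
            · simp
            · intro i _
              rw [ih (w.drop i) (by rw [List.length_drop]; omega), mul_zero]
  ext w
  exact key _ w (Nat.lt_succ_self _)

theorem subst_one (η : B) (s : NC B R) : subst η s 1 = 1 := by
  ext w
  cases w with
  | nil => rw [subst_nil]
  | cons b w => rw [subst_cons, D_one, D_one, subst_zero_right, mul_zero]; simp

theorem subst_add (η : B) (s f g : NC B R) : subst η s (f + g) = subst η s f + subst η s g := by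
  have key : ∀ n : ℕ, ∀ w : List B, w.length < n → ∀ f g : NC B R,
      subst η s (f + g) w = (subst η s f + subst η s g) w := by
    intro n
    induction n with
    | zero => intro w hw; omega
    | succ n ih =>
        intro w hw f g
        cases w with
        | nil => rw [subst_nil, add_apply, add_apply, subst_nil, subst_nil]
        | cons b w =>
            rw [List.length_cons] at hw
            have h2 : (D b s * subst η s (D η f + D η g)) w =
                (D b s * (subst η s (D η f) + subst η s (D η g))) w :=
              mul_congr_at (fun _ _ => rfl)
                (fun i _ => ih (w.drop i) (by rw [List.length_drop]; omega) _ _)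
            rw [subst_cons, D_add, D_add, h2, mul_add, add_apply, add_apply, subst_cons, subst_cons,
              ih w (by omega), add_apply]
            split_ifs <;> ring
  ext w
  exact key _ w (Nat.lt_succ_self _) f g

theorem subst_smul (η : B) (s : NC B R) (r : R) (f : NC B R) :
    subst η s (r • f) = r • subst η s f := by
  have key : ∀ n : ℕ, ∀ w : List B, w.length < n → ∀ f : NC B R,
      subst η s (r • f) w = (r • subst η s f) w := by
    intro n
    induction n with
    | zero => intro w hw; omega
    | succ n ih =>
        intro w hw f
        cases w with
        | nil => rw [subst_nil, smul_apply, smul_apply, subst_nil]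
        | cons b w =>
            rw [List.length_cons] at hw
            have h2 : (D b s * subst η s (r • D η f)) w = (D b s * (r • subst η s (D η f))) w :=
              mul_congr_at (fun _ _ => rfl)
                (fun i _ => ih (w.drop i) (by rw [List.length_drop]; omega) _)
            rw [subst_cons, D_smul, D_smul, h2, mul_smul_comm, smul_apply, smul_apply, subst_cons,
              ih w (by omega), smul_apply]
            split_ifs <;> ring
  ext w
  exact key _ w (Nat.lt_succ_self _) f

theorem subst_mul (η : B) (s f g : NC B R) : subst η s (f * g) = subst η s f * subst η s g := by
  have key : ∀ n : ℕ, ∀ w : List B, w.length < n → ∀ f g : NC B R,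
      subst η s (f * g) w = (subst η s f * subst η s g) w := by
    intro n
    induction n with
    | zero => intro w hw; omega
    | succ n ih =>
        intro w hw f g
        cases w with
        | nil => rw [subst_nil, mul_nil, mul_nil, subst_nil, subst_nil]
        | cons b w =>
            rw [List.length_cons] at hw
            have h2 : (D b s * subst η s (D η f * g)) w =
                (D b s * (subst η s (D η f) * subst η s g)) w :=
              mul_congr_at (fun _ _ => rfl)
                (fun i _ => ih (w.drop i) (by rw [List.length_drop]; omega) _ _)
            rw [subst_cons, D_mul, D_mul, subst_add, subst_add, subst_smul, subst_smul, mul_add,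
              mul_smul_comm, add_apply, add_apply, smul_apply, smul_apply, h2, mul_cons, subst_nil,
              subst_cons, D_subst, add_mul, add_apply, ih w (by omega), mul_assoc]
            split_ifs
            · rw [zero_mul, zero_apply]; ring
            · ring
  ext w
  exact key _ w (Nat.lt_succ_self _) f g

/-- Substitution as a ring homomorphism. -/
def substHom (η : B) (s : NC B R) : NC B R →+* NC B R where
  toFun := subst η s
  map_one' := subst_one η s
  map_mul' := subst_mul η s
  map_zero' := subst_zero_right η s
  map_add' := subst_add η s

@[simp] theorem substHom_apply (η : B) (s f : NC B R) : substHom η s f = subst η s f := rfl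

theorem subst_sub (η : B) (s f g : NC B R) : subst η s (f - g) = subst η s f - subst η s g :=
  map_sub (substHom η s) f g

/-- The coefficient at `w` depends only on the values of `s` at the nonempty factors of `w`. -/
theorem subst_congr {η : B} {s s' : NC B R} {w : List B}
    (h : ∀ u, u ≠ [] → u <:+: w → s u = s' u) (f : NC B R) : subst η s f w = subst η s' f w := by
  have key : ∀ n : ℕ, ∀ w : List B, w.length < n →
      (∀ u, u ≠ [] → u <:+: w → s u = s' u) → ∀ f : NC B R,
      subst η s f w = subst η s' f w := by
    intro n
    induction n with
    | zero => intro w hw; omega
    | succ n ih =>
        intro w hw h f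
        cases w with
        | nil => rw [subst_nil, subst_nil]
        | cons b w =>
            rw [List.length_cons] at hw
            have h2 : (D b s * subst η s (D η f)) w = (D b s' * subst η s' (D η f)) w := by
              refine mul_congr_at (fun i _ => ?_) (fun i _ => ?_)
              · rw [D_apply, D_apply]
                refine h _ (by simp) ?_
                exact (List.prefix_cons_inj b |>.mpr (List.take_prefix i w)).isInfix
              · refine ih (w.drop i) (by rw [List.length_drop]; omega) (fun u hu hu' => ?_) _
                exact h u hu ((hu'.trans (List.drop_suffix i w).isInfix).trans
                  (List.suffix_cons b w).isInfix)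
            rw [subst_cons, subst_cons, h2,
              ih w (by omega) (fun u hu hu' => h u hu (hu'.trans (List.suffix_cons b w).isInfix))]
  exact key _ w (Nat.lt_succ_self _) h f

/-- Naturality in the coefficient ring. -/
theorem map_subst {R' : Type} [CommRing R'] (φ : R →+* R') (η : B) (s f : NC B R) :
    map φ (subst η s f) = subst η (map φ s) (map φ f) := by
  have key : ∀ n : ℕ, ∀ w : List B, w.length < n → ∀ f : NC B R,
      map φ (subst η s f) w = subst η (map φ s) (map φ f) w := by
    intro n
    induction n with
    | zero => intro w hw; omega
    | succ n ih =>
        intro w hw f
        cases w with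
        | nil => rw [map_apply, subst_nil, subst_nil, map_apply]
        | cons b w =>
            rw [List.length_cons] at hw
            have h2 : (map φ (D b s) * map φ (subst η s (D η f))) w =
                (D b (map φ s) * subst η (map φ s) (D η (map φ f))) w := by
              refine mul_congr_at (fun i _ => rfl) (fun i _ => ?_)
              exact ih (w.drop i) (by rw [List.length_drop]; omega) _
            have h3 := ih w (by omega) (D b f)
            rw [map_apply] at h3
            rw [map_apply, subst_cons, _root_.map_add, subst_cons, ← h2, ← _root_.map_mul, map_apply,
              D_map φ f b, ← h3]
            split_ifs <;> simp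
  ext w
  exact key _ w (Nat.lt_succ_self _) f

/-- Composition of two substitutions of the same letter. -/
theorem subst_subst (η : B) (s s' f : NC B R) :
    subst η s (subst η s' f) = subst η (subst η s s') f := by
  have key : ∀ n : ℕ, ∀ w : List B, w.length < n → ∀ f : NC B R,
      subst η s (subst η s' f) w = subst η (subst η s s') f w := by
    intro n
    induction n with
    | zero => intro w hw; omega
    | succ n ih =>
        intro w hw f
        cases w with
        | nil => rw [subst_nil, subst_nil, subst_nil]
        | cons b w =>
            rw [List.length_cons] at hw
            have h1 : ∀ X : NC B R, (X * subst η s (subst η s' (D η f))) w =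
                (X * subst η (subst η s s') (D η f)) w := fun X =>
              mul_congr_at (fun _ _ => rfl)
                (fun i _ => ih (w.drop i) (by rw [List.length_drop]; omega) _)
            rw [subst_cons, subst_cons, D_subst, D_subst, D_subst, if_pos rfl, zero_add, subst_mul,
              ← mul_assoc, h1, add_mul, add_apply]
            by_cases hb : b = η
            · simp [hb]
            · simp only [if_neg hb]
              rw [subst_add, subst_mul, add_apply, ih w (by omega), h1]
              ring
  ext w
  exact key _ w (Nat.lt_succ_self _) f

theorem subst_letter (η : B) (s : NC B R) (hs : s [] = 0) : subst η s (letter η) = s := by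
  ext w
  cases w with
  | nil => rw [subst_nil, letter_nil, hs]
  | cons b w =>
      rw [subst_cons, D_letter, D_letter, if_pos rfl, subst_one, mul_one, D_apply]
      by_cases hb : b = η
      · simp [hb]
      · rw [if_neg hb, if_neg hb, subst_zero_right]; simp

theorem subst_letter_of_ne {η c : B} (hc : c ≠ η) (s : NC B R) :
    subst η s (letter c) = letter c := by
  ext w
  cases w with
  | nil => rw [subst_nil]
  | cons b w =>
      rw [subst_cons, D_letter, D_letter, if_neg (Ne.symm hc), subst_zero_right, mul_zero,
        zero_apply, add_zero, ← D_apply, D_letter]
      by_cases hb : b = η
      · rw [if_pos hb, hb, if_neg (Ne.symm hc)]; rfl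
      · rw [if_neg hb]
        by_cases hbc : b = c
        · rw [if_pos hbc, subst_one]
        · rw [if_neg hbc, subst_zero_right]

/-- Substituting the letter itself does nothing. -/
theorem subst_letter_self (η : B) (f : NC B R) : subst η (letter η) f = f := by
  have key : ∀ n : ℕ, ∀ w : List B, w.length < n → ∀ f : NC B R,
      subst η (letter η) f w = f w := by
    intro n
    induction n with
    | zero => intro w hw; omega
    | succ n ih =>
        intro w hw f
        cases w with
        | nil => rw [subst_nil]
        | cons b w =>
            rw [List.length_cons] at hw
            rw [subst_cons, D_letter]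
            by_cases hb : b = η
            · rw [if_pos hb, if_pos hb, one_mul, ih w (by omega), zero_add, D_apply, hb]
            · rw [if_neg hb, if_neg hb, zero_mul, ih w (by omega), zero_apply, add_zero, D_apply]
  ext w
  exact key _ w (Nat.lt_succ_self _) f

end NC

end Pool.Agent.MP_23c465_al
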