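import Pool.Agent.Lib.MP_23c465_al.Infil
import Pool.Agent.Lib.MP_23c465_al.SubstBasic

/-!
# The product topology on noncommutative power series
-/

set_option autoImplicit false

namespace Pool.Agent.MP_23c465_al

open Finset

namespace NC

variable {B R : Type} [CommRing R] [TopologicalSpace R]

instance : TopologicalSpace (NC B R) := TopologicalSpace.induced NC.coeff inferInstance

/-- `NC B R` is homeomorphic to the product. -/
def homeo : NC B R ≃ₜ (List B → R) where
  toEquiv := equiv
  continuous_toFun := continuous_induced_dom
  continuous_invFun := by
    rw [continuous_induced_rng]
    exact continuous_id

instance [CompactSpace R] : CompactSpace (NC B R) := homeo.symm.compactSpace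
instance [T2Space R] : T2Space (NC B R) := homeo.symm.t2Space

omit [CommRing R] in
theorem continuous_coeff (w : List B) : Continuous fun f : NC B R => f w := by
  exact (continuous_apply w).comp continuous_induced_dom

omit [CommRing R] in
theorem continuous_iff {X : Type} [TopologicalSpace X] {φ : X → NC B R} :
    Continuous φ ↔ ∀ w, Continuous fun x => φ x w := by
  rw [continuous_induced_rng, continuous_pi_iff]
  rfl

omit [CommRing R] in
theorem tendsto_iff {X : Type} {l : Filter X} {φ : X → NC B R} {f : NC B R} :
    Filter.Tendsto φ l (nhds f) ↔ ∀ w, Filter.Tendsto (fun x => φ x w) l (nhds (f w)) := by
  rw [nhds_induced, Filter.tendsto_comap_iff, tendsto_pi_nhds]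
  rfl

variable [IsTopologicalRing R]

theorem continuous_mul : Continuous fun p : NC B R × NC B R => p.1 * p.2 := by
  rw [continuous_iff]
  intro w
  simp only [mul_apply]
  exact continuous_finsetSum _ fun i _ =>
    ((continuous_coeff (w.take i)).comp continuous_fst).mul
      ((continuous_coeff (w.drop i)).comp continuous_snd)

theorem continuous_add : Continuous fun p : NC B R × NC B R => p.1 + p.2 := by
  rw [continuous_iff]
  intro w
  exact ((continuous_coeff w).comp continuous_fst).add ((continuous_coeff w).comp continuous_snd)

theorem continuous_inv : Continuous (NC.inv : NC B R → NC B R) := by
  have h1 : Continuous fun f : NC B R => 1 - f := by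
    rw [continuous_iff]
    intro w
    exact continuous_const.sub (continuous_coeff w)
  have h2 : ∀ k : ℕ, Continuous fun f : NC B R => (1 - f) ^ k := by
    intro k
    induction k with
    | zero =>
      simp only [pow_zero]
      exact continuous_const
    | succ k ih =>
      simp only [pow_succ]
      exact continuous_mul.comp (ih.prodMk h1)
  rw [continuous_iff]
  intro w
  simp only [inv_def]
  exact continuous_finsetSum _ fun k _ => (continuous_coeff w).comp (h2 k)

variable [DecidableEq B]

/-- For fixed `s`, substitution is continuous in `f`. -/
theorem continuous_subst (η : B) (s : NC B R) : Continuous (subst η s) := by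
  have hD : ∀ b : B, Continuous (D b : NC B R → NC B R) := by
    intro b
    rw [continuous_iff]
    intro w
    exact continuous_coeff (b :: w)
  have key : ∀ n : ℕ, ∀ w : List B, w.length < n →
      Continuous fun f : NC B R => subst η s f w := by
    intro n
    induction n with
    | zero => intro w hw; omega
    | succ n ih =>
      intro w hw
      cases w with
      | nil =>
        simp only [subst_nil]
        exact continuous_coeff []
      | cons b w =>
        rw [List.length_cons] at hw
        simp only [subst_cons, mul_apply]
        apply Continuous.add
        · by_cases hb : b = η
          · simp only [hb, if_true]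
            exact continuous_const
          · simp only [hb, if_false]
            exact (ih w (by omega)).comp (hD b)
        · exact continuous_finsetSum _ fun i _ => continuous_const.mul
            ((ih (w.drop i) (by rw [List.length_drop]; omega)).comp (hD η))
  rw [continuous_iff]
  intro w
  exact key _ w (Nat.lt_succ_self _)

theorem continuous_infC (u v : List B) : Continuous fun f : NC B R => infC f u v := by
  have hD : ∀ b : B, Continuous (D b : NC B R → NC B R) := by
    intro b
    rw [continuous_iff]
    intro w
    exact continuous_coeff (b :: w)
  induction hn : u.length + v.length using Nat.strong_induction_on generalizing u v with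
  | _ n ih =>
    subst hn
    match u, v with
    | [], v =>
      simp only [infC_nil_left]
      exact continuous_coeff v
    | a :: u, [] =>
      simp only [infC_nil_right]
      exact continuous_coeff (a :: u)
    | a :: u, b :: v =>
      simp only [infC_cons_cons]
      refine (((ih (u.length + (b :: v).length) (by simp) u (b :: v) rfl).comp (hD a)).add
        ((ih ((a :: u).length + v.length) (by simp) (a :: u) v rfl).comp (hD b))).add ?_
      by_cases hab : a = b
      · simp only [hab, if_true]
        exact (ih (u.length + v.length) (by simp; omega) u v rfl).comp (hD b)
      · simp only [hab, if_false]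
        exact continuous_const

end NC

end Pool.Agent.MP_23c465_al
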