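import Pool.Agent.Lib.MP_23c465_al.FreeProP
import Pool.Agent.Lib.MP_23c465_al.Gam
import Pool.Agent.Lib.MP_23c465_al.Top
import Pool.Agent.Lib.MP_23c465_al.SubstFree

/-!
# Values of the Magnus homomorphism
-/

set_option autoImplicit false

namespace Pool.Agent.MP_23c465_al

open Finset NC

variable {p : ℕ} [Fact p.Prime] {X F : Type} [Group F] [TopologicalSpace F]
  [IsTopologicalGroup F] [CompactSpace F] [T2Space F] [TotallyDisconnectedSpace F] {ι : X → F}

omit [TopologicalSpace F] [IsTopologicalGroup F] [CompactSpace F] [T2Space F]
  [TotallyDisconnectedSpace F] in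
private theorem magnusGL_inv (M : F →* NC ℕ ℤ_[p]) (hM1 : ∀ g, M g [] = 1) (g : F) :
    M g⁻¹ = NC.inv (M g) := by
  have h1 : M g * M g⁻¹ = 1 := by rw [← map_mul, mul_inv_cancel, map_one]
  calc M g⁻¹ = (NC.inv (M g) * M g) * M g⁻¹ := by rw [NC.inv_mul (hM1 g), one_mul]
    _ = NC.inv (M g) := by rw [mul_assoc, h1, mul_one]

/-- The values of the Magnus homomorphism are group-like. -/
theorem magnus_isGL (hF : FreeProP p X F ι) (enc : X → Option ℕ) (M : F →* NC ℕ ℤ_[p])
    (hM : Continuous M) (hM1 : ∀ g, M g [] = 1)
    (hMι : ∀ x, M (ι x) = genSeries ℤ_[p] (enc x)) (g : F) : IsGL (M g) := by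
  let H : Subgroup F :=
    { carrier := {g | IsGL (M g)}
      mul_mem' := by
        intro a b ha hb
        show IsGL (M (a * b))
        rw [map_mul]
        exact IsGL.mul_mem ha hb
      one_mem' := by
        show IsGL (M 1)
        rw [map_one]
        exact IsGL.one
      inv_mem' := by
        intro a ha
        show IsGL (M a⁻¹)
        rw [magnusGL_inv M hM1]
        exact IsGL.inv_mem ha }
  have hset : (H : Set F) = ⋂ u : List ℕ, ⋂ v : List ℕ,
      {g : F | M g [] = 1 ∧ M g u * M g v = infC (M g) u v} := by
    ext a
    simp only [Set.mem_iInter, Set.mem_ofPred_eq]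
    constructor
    · intro ha u v
      exact ⟨IsGL.nil ha, IsGL.mul ha u v⟩
    · intro ha
      exact ⟨(ha [] []).1, fun u v => (ha u v).2⟩
  have hc : IsClosed (H : Set F) := by
    rw [hset]
    refine isClosed_iInter fun u => isClosed_iInter fun v => ?_
    have c1 : Continuous fun a : F => M a [] := (continuous_coeff []).comp hM
    have c2 : Continuous fun a : F => M a u := (continuous_coeff u).comp hM
    have c3 : Continuous fun a : F => M a v := (continuous_coeff v).comp hM
    have c4 : Continuous fun a : F => infC (M a) u v := (continuous_infC u v).comp hM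
    exact (isClosed_eq c1 continuous_const).inter (isClosed_eq (c2.mul c3) c4)
  have hι : ∀ x, ι x ∈ H := by
    intro x
    show IsGL (M (ι x))
    rw [hMι]
    cases h : enc x with
    | none => exact IsGL.one
    | some b => exact IsGL.one_add_letter b
  have hH := hF.dense Fact.out H hc hι
  have : g ∈ H := by rw [hH]; trivial
  exact this

/-- A letter which does not encode a generator does not occur. -/
theorem magnus_free (hF : FreeProP p X F ι) (enc : X → Option ℕ) (M : F →* NC ℕ ℤ_[p])
    (hM : Continuous M) (hM1 : ∀ g, M g [] = 1)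
    (hMι : ∀ x, M (ι x) = genSeries ℤ_[p] (enc x)) {b : ℕ} (hb : ∀ x, enc x ≠ some b) (g : F) :
    Free b (M g) := by
  let H : Subgroup F :=
    { carrier := {g | Free b (M g)}
      mul_mem' := by
        intro a c ha hc
        show Free b (M (a * c))
        rw [map_mul]
        exact Free.mul ha hc
      one_mem' := by
        show Free b (M 1)
        rw [map_one]
        exact Free.one b
      inv_mem' := by
        intro a ha
        show Free b (M a⁻¹)
        rw [magnusGL_inv M hM1]
        exact Free.inv ha }
  have hset : (H : Set F) = ⋂ w : List ℕ, ⋂ _ : b ∈ w, {g : F | M g w = 0} := by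
    ext a
    simp only [Set.mem_iInter, Set.mem_ofPred_eq]
    exact Iff.rfl
  have hc : IsClosed (H : Set F) := by
    rw [hset]
    refine isClosed_iInter fun w => isClosed_iInter fun _ => ?_
    exact isClosed_eq ((continuous_coeff w).comp hM) continuous_const
  have hι : ∀ x, ι x ∈ H := by
    intro x
    show Free b (M (ι x))
    rw [hMι]
    cases h : enc x with
    | none => exact Free.one b
    | some c =>
        refine Free.add (Free.one b) (Free.letter ?_)
        intro hcb
        exact hb x (by rw [h, hcb])
  have hH := hF.dense Fact.out H hc hι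
  have : g ∈ H := by rw [hH]; trivial
  exact this

end Pool.Agent.MP_23c465_al
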