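import Pool.Agent.Lib.MP_23c465_al.NCBasic

/-!
# Evaluation homomorphisms
-/

set_option autoImplicit false

namespace Pool.Agent.MP_23c465_al

open Finset NC

/-- Evaluating a series at a finitely supported multiplicative function on words. -/
theorem exists_evalHom {T R : Type} [Ring T] [CommRing R] (ρ : R →+* T)
    (hρ : ∀ r t, ρ r * t = t * ρ r) (c : List ℕ → T) (hc1 : c [] = 1)
    (hc : ∀ u v, c (u ++ v) = c u * c v) (S : Finset (List ℕ)) (hS : ∀ w, c w ≠ 0 → w ∈ S) :
    ∃ Φ : NC ℕ R →+* T, ∀ f : NC ℕ R, Φ f = ∑ w ∈ S, ρ (f w) * c w := by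
  have hone : ∑ w ∈ S, ρ ((1 : NC ℕ R) w) * c w = 1 := by
    by_cases h : (1 : T) = 0
    · have : Subsingleton T := subsingleton_of_zero_eq_one h.symm
      exact Subsingleton.elim _ _
    · have hmem : ([] : List ℕ) ∈ S := hS [] (by rw [hc1]; exact h)
      rw [Finset.sum_eq_single_of_mem _ hmem]
      · rw [one_nil, map_one, hc1, one_mul]
      · intro w _ hw
        rw [one_of_ne hw, map_zero, zero_mul]
  have hmul : ∀ f g : NC ℕ R, ∑ w ∈ S, ρ ((f * g) w) * c w =
      (∑ w ∈ S, ρ (f w) * c w) * ∑ w ∈ S, ρ (g w) * c w := by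
    intro f g
    rw [Finset.sum_mul_sum]
    have h1 : ∑ w ∈ S, ρ ((f * g) w) * c w =
        ∑ x ∈ S.sigma (fun w => range (w.length + 1)),
          ρ (f (x.1.take x.2) * g (x.1.drop x.2)) * c x.1 := by
      rw [Finset.sum_sigma]
      refine Finset.sum_congr rfl fun w _ => ?_
      rw [NC.mul_apply, map_sum, Finset.sum_mul]
    have h2 : ∑ i ∈ S, ∑ j ∈ S, ρ (f i) * c i * (ρ (g j) * c j) =
        ∑ x ∈ S ×ˢ S, ρ (f x.1) * c x.1 * (ρ (g x.2) * c x.2) := by
      rw [Finset.sum_product]
    rw [h1, h2]
    have hval : ∀ u v : List ℕ, ρ (f u) * c u * (ρ (g v) * c v) = ρ (f u * g v) * c (u ++ v) := by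
      intro u v
      rw [hc, map_mul, mul_assoc, ← mul_assoc (c u), ← hρ (g v) (c u)]
      simp only [mul_assoc]
    refine Finset.sum_bij_ne_zero (fun x _ _ => (x.1.take x.2, x.1.drop x.2)) ?_ ?_ ?_ ?_
    · intro x _ hne
      have hcne : c (x.1.take x.2) * c (x.1.drop x.2) ≠ 0 := by
        intro h0
        apply hne
        rw [← List.take_append_drop x.2 x.1, hc, List.take_append_drop, h0, mul_zero]
      rw [Finset.mem_product]
      exact ⟨hS _ (left_ne_zero_of_mul hcne), hS _ (right_ne_zero_of_mul hcne)⟩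
    · rintro ⟨w, i⟩ hx _ ⟨w', i'⟩ hx' _ heq
      simp only [Finset.mem_sigma, Finset.mem_range, Prod.mk.injEq] at hx hx' heq
      have hw : w = w' := by
        rw [← List.take_append_drop i w, ← List.take_append_drop i' w', heq.1, heq.2]
      subst hw
      have hi : i = i' := by
        have := congrArg List.length heq.1
        rw [List.length_take, List.length_take] at this
        omega
      subst hi
      rfl
    · rintro ⟨u, v⟩ _ hne
      have hne' : ρ (f u * g v) * c (u ++ v) ≠ 0 := by rw [← hval]; exact hne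
      refine ⟨⟨u ++ v, u.length⟩, ?_, ?_, ?_⟩
      · rw [Finset.mem_sigma]
        refine ⟨hS _ (right_ne_zero_of_mul hne'), ?_⟩
        simp only [Finset.mem_range, List.length_append]; omega
      · simpa using hne'
      · simp
    · rintro ⟨w, i⟩ _ _
      simp only
      rw [hval, List.take_append_drop]
  exact ⟨{ toFun := fun f => ∑ w ∈ S, ρ (f w) * c w
           map_one' := hone
           map_mul' := hmul
           map_zero' := by simp
           map_add' := by
            intro f g
            rw [← Finset.sum_add_distrib]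
            refine Finset.sum_congr rfl fun w _ => ?_
            rw [NC.add_apply, map_add, add_mul] }, fun f => rfl⟩

end Pool.Agent.MP_23c465_al
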