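import Pool.Agent.Lib.MP_23c465_al.FreeProP
import Pool.Agent.Lib.MP_23c465_al.Gam
import Pool.Agent.Lib.MP_23c465_al.Top
import Pool.Agent.Lib.MP_23c465_al.EvalHom
import Pool.Agent.Lib.MP_23c465_al.Aug

/-!
# Injectivity of the Magnus homomorphism
-/

set_option autoImplicit false

namespace Pool.Agent.MP_23c465_al

open Finset NC

theorem toZMod_locallyConstant (p : ℕ) [Fact p.Prime] :
    IsLocallyConstant (fun z : ℤ_[p] => PadicInt.toZMod z) := by
  rw [IsLocallyConstant.iff_exists_open]
  intro x
  refine ⟨Metric.ball x 1, Metric.isOpen_ball, Metric.mem_ball_self one_pos, fun y hy => ?_⟩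
  have h1 : y - x ∈ IsLocalRing.maximalIdeal ℤ_[p] := by
    rw [IsLocalRing.mem_maximalIdeal, PadicInt.mem_nonunits]
    rw [Metric.mem_ball, dist_eq_norm] at hy
    exact hy
  rw [← PadicInt.ker_toZMod, RingHom.mem_ker, map_sub, sub_eq_zero] at h1
  exact h1

theorem finite_lists {B : Set ℕ} (hB : B.Finite) (k : ℕ) :
    {w : List ℕ | w.length < k ∧ ∀ b ∈ w, b ∈ B}.Finite := by
  induction k with
  | zero => 
      refine Set.finite_empty.subset ?_
      rintro w ⟨h, _⟩
      exact absurd h (Nat.not_lt_zero _)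
  | succ k ih =>
      refine ((Set.finite_singleton ([] : List ℕ)).union
        (Set.Finite.image2 (fun b w => b :: w) hB ih)).subset ?_
      rintro w ⟨h1, h2⟩
      cases w with
      | nil => exact Or.inl rfl
      | cons b w =>
          refine Or.inr ⟨b, h2 b (by simp), w, ⟨?_, fun c hc => h2 c (by simp [hc])⟩, rfl⟩
          simp only [List.length_cons] at h1
          omega

variable {p : ℕ} [Fact p.Prime] {X F : Type} [Group F] [TopologicalSpace F]
  [IsTopologicalGroup F] [CompactSpace F] [T2Space F] [TotallyDisconnectedSpace F] {ι : X → F}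

/-- The evaluation at the elements `x̄_b - 1` of the group algebra. -/
theorem exists_groupEval (P : Type) [Group P] [Finite P] (hPcard : ∃ k : ℕ, Nat.card P = p ^ k)
    (xbar : ℕ → P) (hB : {b : ℕ | xbar b ≠ 1}.Finite) :
    ∃ (S : Finset (List ℕ)) (c : List ℕ → MonoidAlgebra (ZMod p) P)
      (Φ : NC ℕ ℤ_[p] →+* MonoidAlgebra (ZMod p) P),
      (∀ f : NC ℕ ℤ_[p], Φ f = ∑ w ∈ S,
        (algebraMap (ZMod p) (MonoidAlgebra (ZMod p) P) (PadicInt.toZMod (f w))) * c w) ∧
      ∀ b, Φ (1 + letter b) = MonoidAlgebra.of (ZMod p) P (xbar b) := by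
  classical
  obtain ⟨k, hk⟩ := aug_nilpotent p P hPcard
  have hSfin := finite_lists hB k
  have hcex : ∃ c : List ℕ → MonoidAlgebra (ZMod p) P, c [] = 1 ∧
      (∀ u v, c (u ++ v) = c u * c v) ∧ (∀ w, c w ≠ 0 → w ∈ hSfin.toFinset) ∧
      ∀ b, c [b] = MonoidAlgebra.of (ZMod p) P (xbar b) - 1 := by
    refine ⟨fun w => (w.map fun b =>
      (MonoidAlgebra.of (ZMod p) P (xbar b) - 1 : MonoidAlgebra (ZMod p) P)).prod, ?_, ?_, ?_, ?_⟩
    · simp only [List.map_nil, List.prod_nil]
    · intro u v
      simp only [List.map_append, List.prod_append]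
    · intro w hw
      rw [Set.Finite.mem_toFinset]
      refine ⟨?_, fun b hb => ?_⟩
      · by_contra hlen
        apply hw
        have := hk (w.map xbar) (by rw [List.length_map]; omega)
        rw [List.map_map] at this
        exact this
      · intro h1
        apply hw
        apply List.prod_eq_zero
        rw [List.mem_map]
        exact ⟨b, hb, by rw [h1, map_one, sub_self]⟩
    · intro b
      simp only [List.map_cons, List.map_nil, List.prod_cons, List.prod_nil, mul_one]
  obtain ⟨c, hc1, hc, hS, hcb⟩ := hcex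
  have hcomm : ∀ (r : ℤ_[p]) (t : MonoidAlgebra (ZMod p) P),
      ((algebraMap (ZMod p) (MonoidAlgebra (ZMod p) P)).comp (PadicInt.toZMod (p := p))) r * t =
        t * ((algebraMap (ZMod p) (MonoidAlgebra (ZMod p) P)).comp (PadicInt.toZMod (p := p))) r := by
    intro r t
    rw [RingHom.comp_apply]
    exact Algebra.commutes _ _
  obtain ⟨Φ, hΦ⟩ := exists_evalHom
    ((algebraMap (ZMod p) (MonoidAlgebra (ZMod p) P)).comp (PadicInt.toZMod (p := p)))
    hcomm c hc1 hc hSfin.toFinset hS
  have hΦ' : ∀ f : NC ℕ ℤ_[p], Φ f = ∑ w ∈ hSfin.toFinset,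
        (algebraMap (ZMod p) (MonoidAlgebra (ZMod p) P) (PadicInt.toZMod (f w))) * c w := by
    intro f
    rw [hΦ]
    refine Finset.sum_congr rfl fun w _ => ?_
    rw [RingHom.comp_apply]
  refine ⟨hSfin.toFinset, c, Φ, hΦ', fun b => ?_⟩
  have hletter : Φ (letter b) = c [b] := by
    rw [hΦ']
    by_cases hb : [b] ∈ hSfin.toFinset
    · rw [Finset.sum_eq_single_of_mem [b] hb]
      · rw [letter_apply, if_pos rfl, map_one, map_one, one_mul]
      · intro w _ hw
        rw [letter_apply, if_neg hw, map_zero, map_zero, zero_mul]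
    · have h1 : c [b] = 0 := by
        by_contra h
        exact hb (hS _ h)
      rw [h1]
      apply Finset.sum_eq_zero
      intro w hw
      have hwb : w ≠ [b] := fun h => hb (h ▸ hw)
      rw [letter_apply, if_neg hwb, map_zero, map_zero, zero_mul]
  rw [map_add, map_one, hletter, hcb]
  abel

/-- Injectivity, for a homomorphism to a finite `p`-group. -/
theorem magnus_ne_one_aux (hF : FreeProP p X F ι) (P : Type) [Group P] [Finite P]
    (hPcard : ∃ k : ℕ, Nat.card P = p ^ k) (π : F →* P) (hπ : IsOpen (π.ker : Set F))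
    (enc : X → Option ℕ) (henc : ∀ x y b, enc x = some b → enc y = some b → x = y)
    (M : F →* NC ℕ ℤ_[p]) (hM : Continuous M)
    (hMι : ∀ x, M (ι x) = genSeries ℤ_[p] (enc x))
    (hencN : ∀ x, π (ι x) ≠ 1 → enc x ≠ none) {g : F} (hg : π g ≠ 1) : M g ≠ 1 := by
  classical
  have hxb : ∃ xbar : ℕ → P, (∀ x b, enc x = some b → xbar b = π (ι x)) ∧
      ∀ b, (¬ ∃ x, enc x = some b) → xbar b = 1 := by
    refine ⟨fun b => if h : ∃ x, enc x = some b then π (ι h.choose) else 1, ?_, ?_⟩
    · intro x b hxb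
      have hex : ∃ x, enc x = some b := ⟨x, hxb⟩
      have h1 : hex.choose = x := henc _ _ b hex.choose_spec hxb
      simp only [dif_pos hex]
      rw [h1]
    · intro b hb
      simp only [dif_neg hb]
  obtain ⟨xbar, hx1, hx2⟩ := hxb
  have hfinX : {x : X | π (ι x) ≠ 1}.Finite := by
    have h1 : ∀ᶠ x in Filter.cofinite, ι x ∈ (π.ker : Set F) :=
      hF.tendsto (hπ.mem_nhds π.ker.one_mem)
    exact h1
  have hB : {b : ℕ | xbar b ≠ 1}.Finite := by
    refine (hfinX.image (fun x => (enc x).getD 0)).subset ?_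
    intro b hb
    by_cases hex : ∃ x, enc x = some b
    · obtain ⟨x, hx⟩ := hex
      refine ⟨x, ?_, ?_⟩
      · intro h
        exact hb ((hx1 x b hx).trans h)
      · show (enc x).getD 0 = b
        rw [hx]
        rfl
    · exact absurd (hx2 b hex) hb
  obtain ⟨S, c, Φ, hΦ, hgenΦ⟩ := exists_groupEval P hPcard xbar hB
  letI : TopologicalSpace (MonoidAlgebra (ZMod p) P) := ⊥
  haveI : DiscreteTopology (MonoidAlgebra (ZMod p) P) := ⟨rfl⟩
  have hAc : Continuous fun g => Φ (M g) := by
    have h1 : (fun g => Φ (M g)) = fun g => ∑ w ∈ S,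
        (algebraMap (ZMod p) (MonoidAlgebra (ZMod p) P) (PadicInt.toZMod (M g w))) * c w :=
      funext fun g => hΦ (M g)
    rw [h1]
    refine continuous_finsetSum _ fun w _ => ?_
    have h2 : Continuous fun g => M g w := (continuous_coeff w).comp hM
    have h3 : Continuous fun z : ℤ_[p] =>
        (algebraMap (ZMod p) (MonoidAlgebra (ZMod p) P) (PadicInt.toZMod z)) * c w :=
      ((toZMod_locallyConstant p).comp (fun z =>
        algebraMap (ZMod p) (MonoidAlgebra (ZMod p) P) z * c w)).continuous
    exact h3.comp h2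
  have hBc : Continuous fun g => MonoidAlgebra.of (ZMod p) P (π g) := by
    refine IsLocallyConstant.continuous ?_
    rw [IsLocallyConstant.iff_exists_open]
    intro x
    refine ⟨(fun y => x⁻¹ * y) ⁻¹' (π.ker : Set F),
      hπ.preimage (continuous_const_mul x⁻¹), ?_, fun y hy => ?_⟩
    · show x⁻¹ * x ∈ (π.ker : Set F)
      rw [inv_mul_cancel]
      exact π.ker.one_mem
    · have h1 : π (x⁻¹ * y) = 1 := hy
      rw [map_mul, map_inv, inv_mul_eq_one] at h1
      rw [h1]
  have htop := hF.dense (Fact.out : p.Prime)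
    (MonoidHom.eqLocus ((Φ : NC ℕ ℤ_[p] →* MonoidAlgebra (ZMod p) P).comp M)
      ((MonoidAlgebra.of (ZMod p) P).comp π)) (isClosed_eq hAc hBc) (fun x => by
        show Φ (M (ι x)) = MonoidAlgebra.of (ZMod p) P (π (ι x))
        rw [hMι]
        cases hx : enc x with
        | none =>
            have h2 : π (ι x) = 1 := by
              by_contra h
              exact hencN x h hx
            rw [h2, map_one]
            exact map_one Φ
        | some b =>
            rw [← hx1 x b hx]
            exact hgenΦ b)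
  intro h
  have hall : Φ (M g) = MonoidAlgebra.of (ZMod p) P (π g) := by
    have : g ∈ MonoidHom.eqLocus ((Φ : NC ℕ ℤ_[p] →* MonoidAlgebra (ZMod p) P).comp M)
      ((MonoidAlgebra.of (ZMod p) P).comp π) := by rw [htop]; trivial
    exact this
  rw [h, map_one] at hall
  haveI : Nontrivial (ZMod p) := ZMod.nontrivial_iff.2 (Fact.out : p.Prime).ne_one
  have h2 : MonoidAlgebra.of (ZMod p) P (π g) = MonoidAlgebra.of (ZMod p) P 1 := by
    rw [map_one]
    exact hall.symm
  exact hg (MonoidAlgebra.of_injective h2)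

/-- **Injectivity.**  If `g` is not in the open normal subgroup `N` and all generators outside `N`
are encoded, then `M g ≠ 1`.

Proof: `P = F ⧸ N` is a finite `p`-group, `T = (ZMod p)[P]`, `c w = ∏ (x̄_b - 1)` over the letters
`b` of `w`, where `x̄_b` is the class of the generator encoded by `b` (or `1` if there is none): it
has finite support by `aug_nilpotent` and finiteness of the set of generators outside `N`.
`g ↦ Φ (M g)` (from `exists_evalHom`, `ρ : ℤ_[p] → ZMod p → T`) and `g ↦ of ḡ` are multiplicative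
and agree on the generators, and the set where they agree is closed: they agree everywhere
(`FreeProP.dense`).  If `M g = 1` then `of ḡ = 1`, so `g ∈ N`. -/
theorem magnus_ne_one (hF : FreeProP p X F ι) (enc : X → Option ℕ)
    (henc : ∀ x y b, enc x = some b → enc y = some b → x = y) (M : F →* NC ℕ ℤ_[p])
    (hM : Continuous M) (hM1 : ∀ g, M g [] = 1)
    (hMι : ∀ x, M (ι x) = genSeries ℤ_[p] (enc x)) (N : Subgroup F) (hNo : IsOpen (N : Set F))
    (hNn : N.Normal) (hencN : ∀ x, ι x ∉ N → enc x ≠ none) {g : F} (hg : g ∉ N) :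
    M g ≠ 1 := by
  haveI := hNn
  haveI : Finite (F ⧸ N) := Subgroup.quotient_finite_of_isOpen N hNo
  have hker : (QuotientGroup.mk' N).ker = N := QuotientGroup.ker_mk' N
  refine magnus_ne_one_aux hF (F ⧸ N) (hF.index N hNo hNn) (QuotientGroup.mk' N)
    (by rw [hker]; exact hNo) enc henc M hM hMι (fun x hx => hencN x fun h => hx ?_)
    (g := g) (fun h => hg ?_)
  · exact (QuotientGroup.eq_one_iff _).2 h
  · exact (QuotientGroup.eq_one_iff _).1 h

end Pool.Agent.MP_23c465_al
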