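import Pool.Agent.Lib.MP_23c465_al.Magnus
import Pool.Agent.Lib.MP_23c465_al.MagnusGL
import Pool.Agent.Lib.MP_23c465_al.MagnusInj

/-!
# One Magnus homomorphism detecting a sequence of elements
-/

set_option autoImplicit false

namespace Pool.Agent.MP_23c465_al

open Finset NC

variable {p : ℕ} [Fact p.Prime] {X F : Type} [Group F] [TopologicalSpace F]
  [IsTopologicalGroup F] [CompactSpace F] [T2Space F] [TotallyDisconnectedSpace F] {ι : X → F}

/-- For a sequence of elements `≠ 1` there is one Magnus homomorphism, with letters `≥ n`, which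
detects all of them.

Proof: for each `i` choose an open normal `N i` with `g i ∉ N i` (`exists_open_normal`); the set
`Y` of the `x` with `ι x ∉ N i` for some `i` is countable (`hF.tendsto`); let `enc` be an injection
of `Y` into `{n, n + 1, …}`, and `none` outside `Y`. -/
theorem exists_magnus_detecting (hF : FreeProP p X F ι) (n : ℕ) (g : ℕ → F)
    (hg : ∀ i, g i ≠ 1) :
    ∃ M : F →* NC ℕ ℤ_[p], Continuous M ∧ (∀ h, M h [] = 1) ∧ (∀ h, IsGL (M h)) ∧
      (∀ h, ∀ a < n, Free a (M h)) ∧ ∀ i, M (g i) ≠ 1 := by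
  classical
  have hN : ∀ i : ℕ, ∃ N : Subgroup F, IsOpen (N : Set F) ∧ N.Normal ∧ g i ∉ N := by
    intro i
    obtain ⟨N, hNo, hNn, hNU⟩ := exists_open_normal (F := F) (U := {g i}ᶜ)
      (isOpen_compl_singleton.mem_nhds (fun h => hg i (Set.mem_singleton_iff.1 h).symm))
    exact ⟨N, hNo, hNn, fun h => hNU h rfl⟩
  choose N hNo hNn hNg using hN
  have hfin : ∀ i, {x : X | ι x ∉ N i}.Finite := by
    intro i
    have h1 : (N i : Set F) ∈ nhds (1 : F) := (hNo i).mem_nhds (N i).one_mem
    have h2 := hF.tendsto h1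
    exact Filter.mem_cofinite.1 h2
  have hcount : (⋃ i, {x : X | ι x ∉ N i}).Countable :=
    Set.countable_iUnion fun i => (hfin i).countable
  obtain ⟨f, hf⟩ := Set.countable_iff_exists_injOn.1 hcount
  set Y : Set X := ⋃ i, {x : X | ι x ∉ N i} with hY
  set enc : X → Option ℕ := fun x => if x ∈ Y then some (n + f x) else none with henc
  have henc1 : ∀ x b, enc x = some b → x ∈ Y ∧ n + f x = b := by
    intro x b h
    by_cases hx : x ∈ Y
    · simp only [henc, if_pos hx, Option.some.injEq] at h
      exact ⟨hx, h⟩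
    · simp only [henc, if_neg hx] at h
      exact absurd h (by simp)
  have hinj : ∀ x y b, enc x = some b → enc y = some b → x = y := by
    intro x y b hx hy
    obtain ⟨hxY, hxb⟩ := henc1 x b hx
    obtain ⟨hyY, hyb⟩ := henc1 y b hy
    exact hf hxY hyY (by omega)
  obtain ⟨M, hM, hM1, hMι⟩ := exists_magnus hF enc hinj
  refine ⟨M, hM, hM1, fun h => magnus_isGL hF enc M hM hM1 hMι h, ?_, ?_⟩
  · intro h a ha
    refine magnus_free hF enc M hM hM1 hMι (fun x hx => ?_) h
    have := (henc1 x a hx).2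
    omega
  · intro i
    refine magnus_ne_one hF enc hinj M hM hM1 hMι (N i) (hNo i) (hNn i) (fun x hx => ?_) (hNg i)
    have hxY : x ∈ Y := Set.mem_iUnion.2 ⟨i, hx⟩
    simp only [henc, if_pos hxY]
    exact Option.some_ne_none _

end Pool.Agent.MP_23c465_al
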