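import Mathlib

/-!
# Weights of words, finiteness, and the lexicographic order
-/

set_option autoImplicit false

namespace Pool.Agent.MP_23c465_al

/-- Total weight of a word. -/
def wtW {B : Type} (wt : B → ℕ) (w : List B) : ℕ := (w.map wt).sum

variable {B : Type}

@[simp] theorem wtW_nil (wt : B → ℕ) : wtW wt [] = 0 := rfl
@[simp] theorem wtW_cons (wt : B → ℕ) (b : B) (w : List B) :
    wtW wt (b :: w) = wt b + wtW wt w := by simp [wtW]
@[simp] theorem wtW_append (wt : B → ℕ) (u v : List B) :
    wtW wt (u ++ v) = wtW wt u + wtW wt v := by simp [wtW]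

theorem wtW_perm (wt : B → ℕ) {u v : List B} (h : u.Perm v) : wtW wt u = wtW wt v :=
  (h.map wt).sum_eq

theorem wtW_le_of_infix (wt : B → ℕ) {u w : List B} (h : u <:+: w) : wtW wt u ≤ wtW wt w := by
  obtain ⟨s, t, rfl⟩ := h
  simp only [wtW_append]; omega

/-- A word without the weight-zero letter has positive weight unless empty. -/
theorem wtW_pos {wt : B → ℕ} {η : B} (h0 : ∀ b, wt b = 0 ↔ b = η) {w : List B} (hw : w ≠ [])
    (hη : η ∉ w) : 0 < wtW wt w := by
  cases w with
  | nil => exact absurd rfl hw
  | cons b w =>
      have hb : b ≠ η := fun h => hη (by simp [h])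
      have : wt b ≠ 0 := fun h => hb ((h0 b).1 h)
      simp only [wtW_cons]; omega

private theorem length_le_of_wt [DecidableEq B] {wt : B → ℕ} {η : B} (h0 : ∀ b, wt b = 0 ↔ b = η)
    (W : List B) : W.length ≤ W.count η + wtW wt W := by
  induction W with
  | nil => simp
  | cons b W ih =>
    by_cases hb : b = η
    · subst hb
      simp only [List.length_cons, List.count_cons_self, wtW_cons]
      omega
    · have : wt b ≠ 0 := fun h => hb ((h0 b).1 h)
      have hc : (b :: W).count η = W.count η := by
        rw [List.count_cons_of_ne hb]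
      rw [hc]
      simp only [List.length_cons, wtW_cons]
      omega

private theorem wt_le_of_mem (wt : B → ℕ) {b : B} {W : List B} (h : b ∈ W) : wt b ≤ wtW wt W := by
  induction W with
  | nil => exact absurd h (by simp)
  | cons a W ih =>
    rcases List.mem_cons.1 h with h | h
    · subst h
      simp only [wtW_cons]; omega
    · have := ih h
      simp only [wtW_cons]; omega

/-- There are finitely many words with boundedly many letters `η` and bounded weight. -/
theorem finite_words [DecidableEq B] {wt : B → ℕ} {η : B} (h0 : ∀ b, wt b = 0 ↔ b = η)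
    (hfin : ∀ n, {b : B | wt b ≤ n}.Finite) (m n : ℕ) :
    {W : List B | W.count η ≤ m ∧ wtW wt W ≤ n}.Finite := by
  have : Finite {b : B | wt b ≤ n} := hfin n
  have h1 : {l : List {b : B | wt b ≤ n} | l.length ≤ m + n}.Finite :=
    List.finite_length_le _ (m + n)
  refine (h1.image (List.map Subtype.val)).subset ?_
  rintro W ⟨hW1, hW2⟩
  have hmem : ∀ b ∈ W, wt b ≤ n := fun b hb => (wt_le_of_mem wt hb).trans hW2
  refine ⟨W.attach.map fun b => ⟨b.1, hmem b.1 b.2⟩, ?_, ?_⟩
  · have := length_le_of_wt h0 W
    change (W.attach.map fun b => (⟨b.1, hmem b.1 b.2⟩ : {b : B | wt b ≤ n})).length ≤ m + n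
    rw [List.length_map, List.length_attach]
    omega
  · rw [List.map_map]
    exact List.attach_map_subtype_val W

/-- Of two different words of the same weight without the weight-zero letter, neither is a prefix
of the other, so that a strict lexicographic inequality survives appending anything. -/
theorem append_lt_append_of_wt [LinearOrder B] {wt : B → ℕ} {η : B}
    (h0 : ∀ b, wt b = 0 ↔ b = η) {u v : List B} (hu : η ∉ u) (hv : η ∉ v)
    (hwt : wtW wt u = wtW wt v) (huv : u < v) (P Q Q' : List B) :
    P ++ (u ++ Q) < P ++ (v ++ Q') := by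
  have key : ∀ (u v : List B), η ∉ u → η ∉ v → wtW wt u = wtW wt v → u < v →
      u ++ Q < v ++ Q' := by
    intro u
    induction u with
    | nil =>
      intro v _ hv hwt huv
      have hne : v ≠ [] := by
        rintro rfl
        exact absurd huv (lt_irrefl _)
      have := wtW_pos h0 hne hv
      rw [← hwt] at this
      simp at this
    | cons a u ih =>
      intro v hu hv hwt huv
      cases v with
      | nil => exact absurd huv (List.not_lt_nil _)
      | cons b v =>
        rw [List.cons_append, List.cons_append, List.cons_lt_cons_iff]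
        rcases (List.cons_lt_cons_iff.1 huv) with h | ⟨h1, h2⟩
        · exact Or.inl h
        · refine Or.inr ⟨h1, ih v (fun h => hu (List.mem_cons_of_mem _ h))
            (fun h => hv (List.mem_cons_of_mem _ h)) ?_ h2⟩
          subst h1
          simp only [wtW_cons] at hwt
          omega
  induction P with
  | nil => exact key u v hu hv hwt huv
  | cons p P ih =>
    rw [List.cons_append, List.cons_append, List.cons_lt_cons_iff]
    exact Or.inr ⟨rfl, ih⟩

end Pool.Agent.MP_23c465_al
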