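import Pool.Agent.Lib.MP_23c465_al.SubstFree
import Pool.Agent.Lib.MP_23c465_al.Weights

/-!
# The expansion of an equation at a point
-/

set_option autoImplicit false

namespace Pool.Agent.MP_23c465_al

open NC

variable {B : Type} [LinearOrder B]

/-- The formal expansion of the equation `f` at the point `x`: substitute `x (1 + η) - 1` for the
letter `η`. -/
noncomputable def expand {R : Type} [CommRing R] (η : B) (f x : NC B R) : NC B R :=
  subst η (x * (1 + letter η) - 1) f

private lemma ex_inner {R : Type} [CommRing R] (η : B) (t s : NC B R) (ht : Free η t)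
    (hs : s [] = 0) : subst η s (t * (1 + letter η) - 1) = t * (1 + s) - 1 := by
  rw [subst_sub, subst_mul, subst_add, subst_one, subst_letter η s hs, subst_of_free ht]

/-- Moving the base point: `expand` at `t * y` is obtained from `expand` at `t` by substituting
`y (1 + η) - 1`. -/
theorem expand_mul {R : Type} [CommRing R] (η : B) (f t y : NC B R) (ht : Free η t)
    (ht1 : t [] = 1) (hy1 : y [] = 1) :
    expand η f (t * y) = subst η (y * (1 + letter η) - 1) (expand η f t) := by
  unfold expand
  rw [subst_subst, ex_inner η t _ ht (by simp [hy1])]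
  congr 1
  noncomm_ring

/-- Evaluating at `t * y`, `y` free of `η`, through the expansion at `t`. -/
theorem eval_mul {R : Type} [CommRing R] (η : B) (f t y : NC B R) (ht : Free η t)
    (hy : Free η y) (ht1 : t [] = 1) (hy1 : y [] = 1) :
    subst η (t * y - 1) f = subst η (y - 1) (expand η f t) := by
  unfold expand
  rw [subst_subst, ex_inner η t _ ht (by simp [hy1])]
  congr 1
  noncomm_ring

/-- The words of the expansion which do not involve `η` give the value. -/
theorem expand_apply_of_notMem {R : Type} [CommRing R] (η : B) (f x : NC B R) {W : List B}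
    (hW : η ∉ W) : expand η f x W = subst η (x - 1) f W := by
  unfold expand
  apply subst_congr
  intro u _ hu
  have hηu : η ∉ u := fun h => hW (hu.subset h)
  rw [mul_add, mul_one, NC.sub_apply, NC.sub_apply, NC.add_apply]
  have h1 : (x * letter η : NC B R) u = 0 := by
    rw [NC.mul_apply]
    apply Finset.sum_eq_zero
    intro i _
    rw [NC.letter_apply, if_neg, mul_zero]
    intro h
    apply hηu
    have : η ∈ u.drop i := by rw [h]; simp
    exact List.mem_of_mem_drop this
  rw [h1, add_zero]

/-- The expansion at words of weight `< M` depends only on the coefficients of `x` of weight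
`< M`. -/
theorem expand_congr {R : Type} [CommRing R] {wt : B → ℕ} {η : B} (h0 : wt η = 0)
    (f x x' : NC B R) {M : ℕ} (h : ∀ w : List B, wtW wt w < M → x w = x' w) {W : List B}
    (hW : wtW wt W < M) : expand η f x W = expand η f x' W := by
  unfold expand
  apply subst_congr
  intro u _ hu
  have hwu : wtW wt u < M := lt_of_le_of_lt (wtW_le_of_infix wt hu) hW
  rw [NC.sub_apply, NC.sub_apply]
  congr 1
  apply NC.mul_congr_at
  · intro i _
    apply h
    exact lt_of_le_of_lt (wtW_le_of_infix wt (List.take_prefix i u).isInfix) hwu
  · intro i _
    rfl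

private lemma ex_subst_mem {R : Type} [CommRing R] (G : Subring R) (η : B) (s : NC B R)
    (hs : ∀ W, s W ∈ G) : ∀ n : ℕ, ∀ (f : NC B R), (∀ W, f W ∈ G) → ∀ W : List B, W.length ≤ n →
      subst η s f W ∈ G := by
  intro n
  induction n with
  | zero =>
    intro f hf W hW
    have : W = [] := List.eq_nil_of_length_eq_zero (by omega)
    rw [this, subst_nil]
    exact hf _
  | succ n ih =>
    intro f hf W hW
    cases W with
    | nil => rw [subst_nil]; exact hf _
    | cons b w =>
      rw [List.length_cons] at hW
      rw [subst_cons]
      apply G.add_mem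
      · split_ifs
        · exact G.zero_mem
        · exact ih _ (fun W => hf (b :: W)) w (by omega)
      · rw [NC.mul_apply]
        apply G.sum_mem
        intro i _
        apply G.mul_mem
        · exact hs (b :: w.take i)
        · apply ih _ (fun W => hf (η :: W))
          rw [List.length_drop]
          omega

/-- If all coefficients of `f` and `x` lie in the subring `G`, so do those of the expansion. -/
theorem expand_mem {R : Type} [CommRing R] (G : Subring R) (η : B) (f x : NC B R)
    (hf : ∀ W, f W ∈ G) (hx : ∀ W, x W ∈ G) (W : List B) : expand η f x W ∈ G := by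
  have h1 : ∀ W : List B, (1 : NC B R) W ∈ G := by
    intro W
    by_cases h : W = []
    · rw [h, NC.one_nil]; exact G.one_mem
    · rw [NC.one_of_ne h]; exact G.zero_mem
  have hl : ∀ W : List B, (letter η : NC B R) W ∈ G := by
    intro W
    rw [NC.letter_apply]
    split_ifs
    · exact G.one_mem
    · exact G.zero_mem
  unfold expand
  refine ex_subst_mem G η _ ?_ W.length f hf W le_rfl
  intro W
  rw [NC.sub_apply, NC.mul_apply]
  refine G.sub_mem (G.sum_mem fun i _ => G.mul_mem (hx _) ?_) (h1 W)
  rw [NC.add_apply]
  exact G.add_mem (h1 _) (hl _)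

end Pool.Agent.MP_23c465_al
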