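import Pool.Agent.Lib.MP_23c465_al.SubstFree

/-!
# Power series attached to equations
-/

set_option autoImplicit false

namespace Pool.Agent.MP_23c465_al

open Finset NC

/-- Substitute `s 0, …, s (n-1)` for the letters `0, …, n-1` (first `0`, last `n-1`). -/
def substAll {R : Type} [CommRing R] : ℕ → (ℕ → NC ℕ R) → NC ℕ R → NC ℕ R
  | 0, _, f => f
  | n + 1, s, f => subst n (s n) (substAll n s f)

/-- The tuple of series `M (g a) - 1`. -/
noncomputable def tup {p : ℕ} [Fact p.Prime] {F : Type} [Group F] (M : F →* NC ℕ ℤ_[p]) {n : ℕ}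
    (g : Fin n → F) : ℕ → NC ℕ ℤ_[p] :=
  fun a => if h : a < n then M (g ⟨a, h⟩) - 1 else 0

theorem substAll_one {R : Type} [CommRing R] (n : ℕ) (s : ℕ → NC ℕ R) : substAll n s 1 = 1 := by
  induction n with
  | zero => rfl
  | succ n ih =>
    show subst n (s n) (substAll n s 1) = 1
    rw [ih, subst_one]

theorem substAll_mul {R : Type} [CommRing R] (n : ℕ) (s : ℕ → NC ℕ R) (f g : NC ℕ R) :
    substAll n s (f * g) = substAll n s f * substAll n s g := by
  induction n with
  | zero => rfl
  | succ n ih =>
    show subst n (s n) (substAll n s (f * g)) =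
      subst n (s n) (substAll n s f) * subst n (s n) (substAll n s g)
    rw [ih, subst_mul]

theorem substAll_add {R : Type} [CommRing R] (n : ℕ) (s : ℕ → NC ℕ R) (f g : NC ℕ R) :
    substAll n s (f + g) = substAll n s f + substAll n s g := by
  induction n with
  | zero => rfl
  | succ n ih =>
    show subst n (s n) (substAll n s (f + g)) =
      subst n (s n) (substAll n s f) + subst n (s n) (substAll n s g)
    rw [ih, subst_add]

theorem substAll_nil {R : Type} [CommRing R] (n : ℕ) (s : ℕ → NC ℕ R) (f : NC ℕ R) :
    substAll n s f [] = f [] := by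
  induction n with
  | zero => rfl
  | succ n ih =>
    show subst n (s n) (substAll n s f) [] = f []
    rw [subst_nil, ih]

/-- Series free of the letters `< n` are fixed. -/
theorem substAll_of_free {R : Type} [CommRing R] (n : ℕ) (s : ℕ → NC ℕ R) (f : NC ℕ R)
    (hf : ∀ a < n, Free a f) : substAll n s f = f := by
  induction n with
  | zero => rfl
  | succ n ih =>
    show subst n (s n) (substAll n s f) = f
    rw [ih (fun a ha => hf a (by omega)), subst_of_free (hf n (by omega))]

/-- The value at a letter. -/
theorem substAll_letter {R : Type} [CommRing R] (s : ℕ → NC ℕ R) (i : ℕ) (hs : s i [] = 0) :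
    ∀ n : ℕ, i < n → (∀ a < n, Free a (s i)) → substAll n s (letter i) = s i := by
  have h1 : ∀ k ≤ i, substAll k s (letter i) = letter i := by
    intro k
    induction k with
    | zero => intro _; rfl
    | succ k ih =>
      intro hk
      show subst k (s k) (substAll k s (letter i)) = letter i
      rw [ih (by omega), subst_letter_of_ne (by omega)]
  intro n
  induction n with
  | zero => intro h; omega
  | succ n ih =>
    intro hi hfree
    show subst n (s n) (substAll n s (letter i)) = s i
    rcases Nat.lt_succ_iff_lt_or_eq.mp hi with h | h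
    · rw [ih h (fun a ha => hfree a (by omega)), subst_of_free (hfree n (by omega))]
    · subst h
      rw [h1 i le_rfl, subst_letter i _ hs]

/-- Words with constants have an expansion.

Proof: `Subgroup.closure_induction`.  Constants `c`: `M c` (free of the letters `< n`, fixed by all
substitutions).  The unknown `i`: `1 + letter i`.  Products and inverses: `substAll` is a ring
homomorphism, and a series with constant term `1` is invertible. -/
theorem exists_expansion_word {p : ℕ} [Fact p.Prime] {F : Type} [Group F]
    (M : F →* NC ℕ ℤ_[p]) (hM1 : ∀ g, M g [] = 1) (n : ℕ) (hfree : ∀ g, ∀ a < n, Free a (M g))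
    (w : (Fin n → F) → F)
    (hw : w ∈ Subgroup.closure
      (Set.range (fun c : F => fun _ : Fin n → F => c) ∪
        Set.range (fun i : Fin n => fun g : Fin n → F => g i))) :
    ∃ W : NC ℕ ℤ_[p], W [] = 1 ∧ ∀ g : Fin n → F, M (w g) = substAll n (tup M g) W := by
  induction hw using Subgroup.closure_induction with
  | mem w hw =>
    rcases hw with ⟨c, rfl⟩ | ⟨i, rfl⟩
    · exact ⟨M c, hM1 c, fun g => (substAll_of_free n _ _ (hfree c)).symm⟩
    · refine ⟨1 + letter (i : ℕ), by simp, fun g => ?_⟩
      have hi : tup M g (i : ℕ) = M (g i) - 1 := by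
        unfold tup
        rw [dif_pos i.2]
      have hs : tup M g (i : ℕ) [] = 0 := by
        rw [hi, NC.sub_apply, hM1, NC.one_nil, sub_self]
      have hfr : ∀ a < n, Free a (tup M g (i : ℕ)) := by
        intro a ha
        rw [hi]
        exact (hfree (g i) a ha).sub (Free.one a)
      rw [substAll_add, substAll_one, substAll_letter _ _ hs n i.2 hfr, hi]
      show M (g i) = 1 + (M (g i) - 1)
      abel
  | one => exact ⟨1, NC.one_nil, fun g => by rw [substAll_one]; exact map_one M⟩
  | mul w₁ w₂ _ _ h₁ h₂ =>
    obtain ⟨W₁, h11, h12⟩ := h₁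
    obtain ⟨W₂, h21, h22⟩ := h₂
    refine ⟨W₁ * W₂, by rw [NC.mul_nil, h11, h21, one_mul], fun g => ?_⟩
    rw [substAll_mul, ← h12, ← h22]
    exact map_mul M _ _
  | inv w _ h =>
    obtain ⟨W, h1, h2⟩ := h
    refine ⟨NC.inv W, NC.inv_nil W, fun g => ?_⟩
    have e1 : substAll n (tup M g) W * substAll n (tup M g) (NC.inv W) = 1 := by
      rw [← substAll_mul, NC.mul_inv h1, substAll_one]
    have e2 : M (w⁻¹ g) * M (w g) = 1 := by
      rw [← map_mul]
      have : w⁻¹ g * w g = 1 := by simp
      rw [this, map_one]
    calc M (w⁻¹ g) = M (w⁻¹ g) * (substAll n (tup M g) W * substAll n (tup M g) (NC.inv W)) := by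
          rw [e1, mul_one]
      _ = (M (w⁻¹ g) * M (w g)) * substAll n (tup M g) (NC.inv W) := by
          rw [← h2 g, mul_assoc]
      _ = substAll n (tup M g) (NC.inv W) := by rw [e2, one_mul]

end Pool.Agent.MP_23c465_al
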