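import Pool.Agent.Lib.MP_23c465_al.Expansion
import Pool.Agent.Lib.MP_23c465_al.Top

/-!
# Power series attached to limits of words
-/

set_option autoImplicit false

namespace Pool.Agent.MP_23c465_al

open Finset NC

theorem continuous_substAll {R : Type} [CommRing R] [TopologicalSpace R] [IsTopologicalRing R]
    (n : ℕ) (s : ℕ → NC ℕ R) : Continuous (substAll n s) := by
  induction n with
  | zero => exact continuous_id
  | succ n ih => exact (continuous_subst n (s n)).comp ih

/-- Uniform limits of words with constants have an expansion.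

Proof: choose an ultrafilter on the set of words along which `w → e` uniformly (it contains
`{w | ∀ g, (w g)⁻¹ * e g ∈ U}` for all `U ∈ nhds 1`), and take the limit of the expansions of the
words (compactness of `NC ℕ ℤ_[p]`), using `continuous_substAll` and uniqueness of limits. -/
theorem exists_expansion {p : ℕ} [Fact p.Prime] {F : Type} [Group F] [TopologicalSpace F]
    [IsTopologicalGroup F] (M : F →* NC ℕ ℤ_[p]) (hMc : Continuous M) (hM1 : ∀ g, M g [] = 1)
    (n : ℕ) (hfree : ∀ g, ∀ a < n, Free a (M g)) (e : (Fin n → F) → F)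
    (he : ∀ U ∈ nhds (1 : F),
        ∃ w ∈ Subgroup.closure
            (Set.range (fun c : F => fun _ : Fin n → F => c) ∪
              Set.range (fun i : Fin n => fun g : Fin n → F => g i)),
          ∀ g : Fin n → F, (w g)⁻¹ * e g ∈ U) :
    ∃ W : NC ℕ ℤ_[p], W [] = 1 ∧ ∀ g : Fin n → F, M (e g) = substAll n (tup M g) W := by
  classical
  choose! w hw hwe using he
  have hexp : ∀ U ∈ nhds (1 : F), ∃ W : NC ℕ ℤ_[p], W [] = 1 ∧
      ∀ g : Fin n → F, M (w U g) = substAll n (tup M g) W :=
    fun U hU => exists_expansion_word M hM1 n hfree (w U) (hw U hU)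
  choose! Φ hΦ1 hΦ using hexp
  -- the filter
  let I : Type := {U : Set F // U ∈ nhds (1 : F)}
  haveI : Nonempty I := ⟨⟨Set.univ, Filter.univ_mem⟩⟩
  let fl : I → Filter I := fun V => Filter.principal {U : I | U.1 ⊆ V.1}
  haveI hne : (⨅ V, fl V).NeBot := by
    apply Filter.iInf_neBot_of_directed'
    · intro V₁ V₂
      refine ⟨⟨V₁.1 ∩ V₂.1, Filter.inter_mem V₁.2 V₂.2⟩, ?_, ?_⟩
      · exact Filter.principal_mono.mpr fun U hU => hU.trans Set.inter_subset_left
      · exact Filter.principal_mono.mpr fun U hU => hU.trans Set.inter_subset_right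
    · intro V
      exact Filter.principal_neBot_iff.mpr ⟨V, Set.Subset.refl V.1⟩
  let 𝒰 : Ultrafilter I := Ultrafilter.of (⨅ V, fl V)
  have h𝒰 : (𝒰 : Filter I) ≤ ⨅ V, fl V := Ultrafilter.of_le _
  have hev : ∀ V ∈ nhds (1 : F), ∀ᶠ U in (𝒰 : Filter I), U.1 ⊆ V := by
    intro V hV
    have h1 : (𝒰 : Filter I) ≤ fl ⟨V, hV⟩ := h𝒰.trans (iInf_le _ _)
    exact h1 (Filter.mem_principal_self _)
  -- the limit of the expansions
  obtain ⟨W, -, hW⟩ := isCompact_univ.ultrafilter_le_nhds
    (𝒰.map fun U : I => Φ U.1) (by simp)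
  have hWt : Filter.Tendsto (fun U : I => Φ U.1) 𝒰 (nhds W) := hW
  refine ⟨W, ?_, fun g => ?_⟩
  · have h1 : Filter.Tendsto (fun U : I => Φ U.1 []) 𝒰 (nhds (W [])) := tendsto_iff.mp hWt []
    have h2 : (fun U : I => Φ U.1 []) = fun _ => 1 := by
      funext U
      exact hΦ1 U.1 U.2
    rw [h2] at h1
    exact tendsto_nhds_unique h1 tendsto_const_nhds
  · have h1 : Filter.Tendsto (fun U : I => (w U.1 g)⁻¹ * e g) 𝒰 (nhds 1) := by
      rw [Filter.tendsto_def]
      intro V hV
      filter_upwards [hev V hV] with U hU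
      exact hU (hwe U.1 U.2 g)
    have h2 : Filter.Tendsto (fun U : I => w U.1 g) 𝒰 (nhds (e g)) := by
      have h3 : Filter.Tendsto (fun U : I => e g * ((w U.1 g)⁻¹ * e g)⁻¹) 𝒰
          (nhds (e g * 1⁻¹)) := tendsto_const_nhds.mul h1.inv
      have h4 : (fun U : I => e g * ((w U.1 g)⁻¹ * e g)⁻¹) = fun U : I => w U.1 g := by
        funext U
        group
      rwa [h4, inv_one, mul_one] at h3
    have h5 : Filter.Tendsto (fun U : I => M (w U.1 g)) 𝒰 (nhds (M (e g))) :=
      (hMc.tendsto (e g)).comp h2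
    have h6 : (fun U : I => M (w U.1 g)) = fun U : I => substAll n (tup M g) (Φ U.1) := by
      funext U
      exact hΦ U.1 U.2 g
    have h7 : Filter.Tendsto (fun U : I => substAll n (tup M g) (Φ U.1)) 𝒰
        (nhds (substAll n (tup M g) W)) :=
      ((continuous_substAll n (tup M g)).tendsto W).comp hWt
    rw [h6] at h5
    exact tendsto_nhds_unique h5 h7

end Pool.Agent.MP_23c465_al
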