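import Pool.Agent.Lib.MP_23c465_al.Weights

/-!
# Unbordered words and unique positions
-/

set_option autoImplicit false

namespace Pool.Agent.MP_23c465_al

/-- `ℓ` has no nonempty proper border. -/
def Unbordered {B : Type} (ℓ : List B) : Prop :=
  ∀ c : List B, c ≠ [] → c <+: ℓ → c <:+ ℓ → c = ℓ

variable {B : Type}

/-- Replace each letter `η` of `W` by the word `ℓ`. -/
def fill [DecidableEq B] (η : B) (ℓ : List B) (W : List B) : List B :=
  W.flatMap (fun b => if b = η then ℓ else [b])

section fill
variable [DecidableEq B]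

@[simp] theorem fill_nil (η : B) (ℓ : List B) : fill η ℓ [] = [] := rfl
theorem fill_cons (η : B) (ℓ : List B) (b : B) (W : List B) :
    fill η ℓ (b :: W) = (if b = η then ℓ else [b]) ++ fill η ℓ W := rfl

theorem wtW_fill {wt : B → ℕ} {η : B} (h0 : wt η = 0) (ℓ W : List B) :
    wtW wt (fill η ℓ W) = W.count η * wtW wt ℓ + wtW wt W := by
  induction W with
  | nil => simp
  | cons b W ih =>
    rw [fill_cons, wtW_append, ih, wtW_cons]
    by_cases hb : b = η
    · subst hb
      rw [if_pos rfl, List.count_cons_self, h0]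
      ring
    · rw [if_neg hb, List.count_cons_of_ne hb]
      simp only [wtW_cons, wtW_nil]
      ring

private theorem fill_append (η : B) (ℓ U V : List B) :
    fill η ℓ (U ++ V) = fill η ℓ U ++ fill η ℓ V := by
  unfold fill
  exact List.flatMap_append

private theorem fill_not_mem (η : B) (ℓ V : List B) (h : η ∉ V) : fill η ℓ V = V := by
  induction V with
  | nil => rfl
  | cons b V ih =>
    have hb : b ≠ η := fun e => h (by simp [e])
    rw [fill_cons, if_neg hb, ih (fun e => h (List.mem_cons_of_mem _ e))]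
    rfl

omit [DecidableEq B] in
private theorem overlap {wt : B → ℕ} {ℓ : List B} (hℓ : Unbordered ℓ) {X V Y : List B}
    (hV : wtW wt V < wtW wt ℓ) (h : ℓ ++ X = V ++ (ℓ ++ Y)) : V = [] := by
  rcases List.append_eq_append_iff.1 h with ⟨a, ha, _⟩ | ⟨c, hc, hc2⟩
  · rw [ha, wtW_append] at hV
    omega
  · have hcne : c ≠ [] := by
      rintro rfl
      rw [List.append_nil] at hc
      rw [hc] at hV
      exact lt_irrefl _ hV
    have hsuf : c <:+ ℓ := ⟨V, hc.symm⟩
    have hpre : c <+: ℓ := by
      have h1 : c <+: ℓ ++ Y := ⟨X, hc2.symm⟩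
      have h2 : ℓ <+: ℓ ++ Y := List.prefix_append _ _
      exact List.prefix_of_prefix_length_le h1 h2 hsuf.length_le
    have heq := hℓ c hcne hpre hsuf
    have hlen := congrArg List.length hc
    rw [heq, List.length_append] at hlen
    exact List.length_eq_zero_iff.1 (by omega)

private theorem fill_eta_ne {wt : B → ℕ} {η : B} (h0 : ∀ b, wt b = 0 ↔ b = η) {ℓ : List B}
    (hℓ : Unbordered ℓ) {F W : List B} {b : B} (hb : b ≠ η)
    (h₂ : wtW wt (b :: W) < wtW wt ℓ) (h : ℓ ++ F = fill η ℓ (b :: W)) : False := by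
  by_cases hm : η ∈ b :: W
  · obtain ⟨V, R, hVR, hV⟩ := List.eq_append_cons_of_mem hm
    rw [hVR, fill_append, fill_not_mem η ℓ V hV, fill_cons, if_pos rfl] at h
    have hw : wtW wt V < wtW wt ℓ := by
      have : wtW wt (b :: W) = wtW wt V + wtW wt (η :: R) := by rw [hVR, wtW_append]
      omega
    have hnil := overlap hℓ hw h
    rw [hnil, List.nil_append] at hVR
    exact hb (List.cons.inj hVR).1
  · rw [fill_not_mem η ℓ _ hm] at h
    rw [← h, wtW_append] at h₂
    omega

/-- A factor of a word which is too light contains no copy of `ℓ`, so the positions of the copies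
of the unbordered word `ℓ` determine the word. -/
theorem fill_injective {wt : B → ℕ} {η : B} (h0 : ∀ b, wt b = 0 ↔ b = η) {ℓ : List B}
    (hℓ : Unbordered ℓ) (hη : η ∉ ℓ) (hne : ℓ ≠ []) {W₁ W₂ : List B}
    (h₁ : wtW wt W₁ < wtW wt ℓ) (h₂ : wtW wt W₂ < wtW wt ℓ)
    (h : fill η ℓ W₁ = fill η ℓ W₂) : W₁ = W₂ := by
  induction W₁ generalizing W₂ with
  | nil =>
    cases W₂ with
    | nil => rfl
    | cons b W =>
      rw [fill_nil, fill_cons] at h
      have h3 := (List.append_eq_nil_iff.1 h.symm).1
      by_cases hb : b = η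
      · rw [if_pos hb] at h3
        exact absurd h3 hne
      · rw [if_neg hb] at h3
        exact absurd h3 (by simp)
  | cons a U ih =>
    cases W₂ with
    | nil =>
      rw [fill_nil, fill_cons] at h
      have h3 := (List.append_eq_nil_iff.1 h).1
      by_cases hb : a = η
      · rw [if_pos hb] at h3
        exact absurd h3 hne
      · rw [if_neg hb] at h3
        exact absurd h3 (by simp)
    | cons b W =>
      have hU : wtW wt U < wtW wt ℓ := by rw [wtW_cons] at h₁; omega
      have hW : wtW wt W < wtW wt ℓ := by rw [wtW_cons] at h₂; omega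
      by_cases ha : a = η
      · by_cases hb : b = η
        · rw [fill_cons, fill_cons, if_pos ha, if_pos hb] at h
          rw [ha, hb, ih hU hW (List.append_cancel_left h)]
        · rw [fill_cons, if_pos ha] at h
          exact (fill_eta_ne h0 hℓ hb h₂ h).elim
      · by_cases hb : b = η
        · rw [fill_cons η ℓ b W, if_pos hb] at h
          exact (fill_eta_ne h0 hℓ ha h₁ h.symm).elim
        · rw [fill_cons, fill_cons, if_neg ha, if_neg hb] at h
          have h4 := List.cons.inj h
          rw [h4.1, ih hU hW h4.2]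

end fill

/-- One occurrence of an unbordered word `ℓ` in a word whose remaining part is lighter than `ℓ`
is unique. -/
theorem split_unique {wt : B → ℕ} {ℓ : List B} (hℓ : Unbordered ℓ) {P₁ Q₁ P₂ Q₂ : List B}
    (h₁ : wtW wt P₁ + wtW wt Q₁ < wtW wt ℓ) (h₂ : wtW wt P₂ + wtW wt Q₂ < wtW wt ℓ)
    (h : P₁ ++ (ℓ ++ Q₁) = P₂ ++ (ℓ ++ Q₂)) : P₁ = P₂ ∧ Q₁ = Q₂ := by
  rcases List.append_eq_append_iff.1 h with ⟨a, ha, ha2⟩ | ⟨c, hc, hc2⟩
  · have hw : wtW wt a < wtW wt ℓ := by
      rw [ha, wtW_append] at h₂; omega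
    have hnil := overlap hℓ hw ha2
    subst hnil
    rw [List.append_nil] at ha
    rw [List.nil_append] at ha2
    exact ⟨ha.symm, List.append_cancel_left ha2⟩
  · have hw : wtW wt c < wtW wt ℓ := by
      rw [hc, wtW_append] at h₁; omega
    have hnil := overlap hℓ hw hc2
    subst hnil
    rw [List.append_nil] at hc
    rw [List.nil_append] at hc2
    exact ⟨hc, (List.append_cancel_left hc2).symm⟩

end Pool.Agent.MP_23c465_al
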