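import Pool.Agent.Lib.MP_23c465_al.Core
import Pool.Agent.Lib.MP_23c465_al.Detect
import Pool.Agent.Lib.MP_23c465_al.ExpansionLim

/-!
# Triangular systems over free pro-`p` groups
-/

set_option autoImplicit false

namespace Pool.Agent.MP_23c465_al

open NC

/-- If no finite subsystem containing `S1` is equivalent to `S` there is a bad chain. -/
theorem exists_chain {α β : Type} [One β] (S : Set (α → β)) (S1 : Finset (α → β))
    (h1 : (↑S1 : Set (α → β)) ⊆ S)
    (h : ∀ S0 : Finset (α → β), (↑S0 : Set (α → β)) ⊆ S →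
      {g : α | ∀ e ∈ S, e g = 1} ≠ {g : α | ∀ e ∈ S0, e g = 1}) :
    ∃ (e : ℕ → α → β) (x : ℕ → α), (∀ i, e i ∈ S) ∧ (∀ j, ∀ s ∈ S1, s (x j) = 1) ∧
      (∀ i j, i < j → e i (x j) = 1) ∧ ∀ j, e j (x j) ≠ 1 := by
  classical
  have hstep : ∀ S0 : {S0 : Finset (α → β) // (↑S0 : Set (α → β)) ⊆ S}, ∃ (e : α → β) (g : α),
      e ∈ S ∧ (∀ s ∈ S0.1, s g = 1) ∧ e g ≠ 1 := by
    rintro ⟨S0, hS0⟩
    by_contra hcon
    refine h S0 hS0 (Set.Subset.antisymm (fun g hg e he => hg e (hS0 he)) (fun g hg e he => ?_))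
    by_contra hne
    exact hcon ⟨e, g, he, hg, hne⟩
  choose E G hE hG hne using hstep
  let A : ℕ → {S0 : Finset (α → β) // (↑S0 : Set (α → β)) ⊆ S} := fun j =>
    Nat.rec ⟨S1, h1⟩ (fun _ A => ⟨insert (E A) A.1, by
      rw [Finset.coe_insert]
      exact Set.insert_subset (hE A) A.2⟩) j
  have hA : ∀ j, (A (j + 1)).1 = insert (E (A j)) (A j).1 := fun j => rfl
  have hmono : ∀ i j, i ≤ j → (A i).1 ⊆ (A j).1 := by
    intro i j hij
    induction hij with
    | refl => exact Finset.Subset.refl _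
    | step _ ih => rw [Nat.succ_eq_add_one, hA]; exact ih.trans (Finset.subset_insert _ _)
  refine ⟨fun j => E (A j), fun j => G (A j), fun i => hE _, fun j s hs => ?_, fun i j hij => ?_,
    fun j => hne _⟩
  · exact hG (A j) s (hmono 0 j (Nat.zero_le j) hs)
  · refine hG (A j) _ (hmono (i + 1) j hij ?_)
    rw [hA]
    exact Finset.mem_insert_self _ _

section
variable {p : ℕ} [Fact p.Prime] {F : Type} [Group F]

/-- Coefficients in `ℚ_p`. -/
noncomputable def kap (p : ℕ) [Fact p.Prime] : ℤ_[p] →+* ℚ_[p] := PadicInt.Coe.ringHom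

theorem kap_injective (p : ℕ) [Fact p.Prime] : Function.Injective (kap p) := by
  intro a b h
  exact Subtype.ext h

/-- The tuple of series over `ℚ_p`. -/
noncomputable def xs (M : F →* NC ℕ ℤ_[p]) {n : ℕ} (g : Fin n → F) (b : ℕ) : NC ℕ ℚ_[p] :=
  if h : b < n then map (kap p) (M (g ⟨b, h⟩)) else 1

theorem val_xs (M : F →* NC ℕ ℤ_[p]) {n : ℕ} (g : Fin n → F) (W : NC ℕ ℤ_[p]) :
    val n (xs M g) (map (kap p) W) = map (kap p) (substAll n (tup M g) W) := by
  rw [map_substAll]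
  refine substAll_congr (fun b hb => ?_) _
  simp only [xs, tup, dif_pos hb, map_sub, map_one]

theorem map_kap_eq_one {f : NC ℕ ℤ_[p]} (h : map (kap p) f = 1) : f = 1 := by
  ext w
  apply kap_injective p
  have := congrArg (fun s : NC ℕ ℚ_[p] => s w) h
  refine Eq.trans this ?_
  cases w with
  | nil => simp
  | cons b w => simp

variable [TopologicalSpace F] [IsTopologicalGroup F]

/-- The words with constants in `n` unknowns. -/
def wordsWC (F : Type) [Group F] (n : ℕ) : Subgroup ((Fin n → F) → F) :=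
  Subgroup.closure (Set.range (fun c : F => fun _ : Fin n → F => c) ∪
    Set.range (fun i : Fin n => fun g : Fin n → F => g i))

/-- Restriction to the first `a + 1` unknowns, the others being `1`. -/
def extend {F : Type} [Group F] {n : ℕ} (a : ℕ) (h : Fin (a + 1) → F) : Fin n → F :=
  fun b => if hb : (b : ℕ) < a + 1 then h ⟨b, hb⟩ else 1

theorem extend_mem {n a : ℕ} {w : (Fin n → F) → F} (hw : w ∈ wordsWC F n) :
    (fun h : Fin (a + 1) → F => w (extend a h)) ∈ wordsWC F (a + 1) := by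
  let Φ : ((Fin n → F) → F) →* ((Fin (a + 1) → F) → F) :=
    { toFun := fun w h => w (extend a h)
      map_one' := rfl
      map_mul' := fun _ _ => rfl }
  have hle : wordsWC F n ≤ (wordsWC F (a + 1)).comap Φ := by
    unfold wordsWC
    rw [Subgroup.closure_le]
    rintro _ (⟨c, rfl⟩ | ⟨i, rfl⟩)
    · exact Subgroup.subset_closure (Or.inl ⟨c, rfl⟩)
    · by_cases hi : (i : ℕ) < a + 1
      · refine Subgroup.subset_closure (Or.inr ⟨⟨i, hi⟩, ?_⟩)
        funext h
        simp [Φ, extend, hi]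
      · refine Subgroup.subset_closure (Or.inl ⟨1, ?_⟩)
        funext h
        simp [Φ, extend, hi]
  exact hle hw

variable (M : F →* NC ℕ ℤ_[p]) (hMc : Continuous M) (hM1 : ∀ g, M g [] = 1)

include hMc hM1 in
theorem exists_series (n : ℕ) (hfree : ∀ g, ∀ a < n, Free a (M g)) (e : (Fin n → F) → F)
    (he : ∀ U ∈ nhds (1 : F), ∃ w ∈ wordsWC F n, ∀ g : Fin n → F, (w g)⁻¹ * e g ∈ U) :
    ∃ W : NC ℕ ℚ_[p], ∀ g : Fin n → F, val n (xs M g) W = map (kap p) (M (e g)) := by
  obtain ⟨W, _, hW⟩ := exists_expansion M hMc hM1 n hfree e he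
  exact ⟨map (kap p) W, fun g => by rw [val_xs, ← hW g]⟩

include hMc hM1 in
theorem exists_series_dep (n : ℕ) (hfree : ∀ g, ∀ a < n, Free a (M g)) (e : (Fin n → F) → F)
    (he : ∀ U ∈ nhds (1 : F), ∃ w ∈ wordsWC F n, ∀ g : Fin n → F, (w g)⁻¹ * e g ∈ U)
    (a : Fin n) (hdep : ∀ g₁ g₂ : Fin n → F, (∀ b ≤ a, g₁ b = g₂ b) → e g₁ = e g₂) :
    ∃ W : NC ℕ ℚ_[p], ∀ g : Fin n → F,
      val ((a : ℕ) + 1) (xs M g) W = map (kap p) (M (e g)) := by
  obtain ⟨W, hW⟩ := exists_series M hMc hM1 ((a : ℕ) + 1)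
    (fun g b hb => hfree g b (lt_of_lt_of_le hb a.2)) (fun h => e (extend a h)) (fun U hU => by
      obtain ⟨w, hw, hwU⟩ := he U hU
      exact ⟨_, extend_mem hw, fun g => hwU _⟩)
  refine ⟨W, fun g => ?_⟩
  have h1 := hW (fun b => g ⟨b, lt_of_lt_of_le b.2 a.2⟩)
  have h2 : e (extend a fun b : Fin ((a : ℕ) + 1) => g ⟨b, lt_of_lt_of_le b.2 a.2⟩) = e g := by
    refine hdep _ _ fun b hb => ?_
    have hb' : (b : ℕ) < (a : ℕ) + 1 := Nat.lt_succ_of_le hb
    simp [extend, hb']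
  rw [h2] at h1
  rw [← h1]
  refine val_congr (fun b hb => ?_) _
  have hbn : b < n := lt_of_lt_of_le hb a.2
  simp only [xs, dif_pos hb, dif_pos hbn]

end

/-- **Triangular systems over free pro-`p` groups.** -/
theorem triangular {p : ℕ} [Fact p.Prime] {X F : Type} [Group F] [TopologicalSpace F]
    [IsTopologicalGroup F] [CompactSpace F] [T2Space F] [TotallyDisconnectedSpace F] {ι : X → F}
    (hF : FreeProP p X F ι) (n : ℕ) (hn : 1 ≤ n) (S : Set ((Fin n → F) → F))
    (hS : ∀ e ∈ S, ∀ U ∈ nhds (1 : F), ∃ w ∈ wordsWC F n, ∀ g : Fin n → F, (w g)⁻¹ * e g ∈ U)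
    (S1 : Finset ((Fin n → F) → F)) (hS1 : (↑S1 : Set ((Fin n → F) → F)) ⊆ S)
    (htri : ∀ g : Fin n → F, (∀ e ∈ S1, e g = 1) → ∀ a : Fin n, (a : ℕ) + 1 < n →
      ∃ e ∈ S1, (∀ g₁ g₂ : Fin n → F, (∀ b ≤ a, g₁ b = g₂ b) → e g₁ = e g₂) ∧
        ∃ z : F, e (Function.update g a z) ≠ 1) :
    ∃ S0 : Finset ((Fin n → F) → F), (↑S0 : Set ((Fin n → F) → F)) ⊆ S ∧
      {g : Fin n → F | ∀ e ∈ S, e g = 1} = {g : Fin n → F | ∀ e ∈ S0, e g = 1} := by
  classical
  by_contra hcon
  push Not at hcon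
  obtain ⟨e, x, heS, hxS1, hlt, hne⟩ := exists_chain S S1 hS1 hcon
  have htri' := fun j => htri (x j) (hxS1 j)
  choose! cc hcc hdep zz hzz using htri'
  -- the elements to be detected
  let val0 : ℕ × ℕ → F := fun q =>
    if h : q.2 + 1 < n then
      cc q.1 ⟨q.2, by omega⟩ (Function.update (x q.1) ⟨q.2, by omega⟩ (zz q.1 ⟨q.2, by omega⟩))
    else e q.1 (x q.1)
  let fam : ℕ → F := fun i => val0 (Nat.unpair i)
  have hfam : ∀ i, fam i ≠ 1 := by
    intro i
    simp only [fam, val0]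
    split_ifs with h
    · exact hzz _ _ h
    · exact hne _
  obtain ⟨M, hMc, hM1, hMGL, hMfree, hMdet⟩ := exists_magnus_detecting hF n fam hfam
  have hdet : ∀ q : ℕ × ℕ, M (val0 q) ≠ 1 := by
    intro q
    have := hMdet (Nat.pair q.1 q.2)
    simpa [fam] using this
  have hW : ∀ i, ∃ W : NC ℕ ℚ_[p], ∀ g : Fin n → F,
      val n (xs M g) W = map (kap p) (M (e i g)) := fun i =>
    exists_series M hMc hM1 n hMfree (e i) (hS _ (heS i))
  choose W hW using hW
  obtain ⟨j, hj⟩ := core n hn (fun j => xs M (x j))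
    (fun j a ha => by
      simp only [xs, dif_pos ha]
      exact IsGL.map _ (hMGL _))
    (fun j a ha => by
      simp only [xs, dif_pos ha]
      exact Free.map _ (hMfree _ a ha))
    W
    (fun i j hij => by
      rw [hW, hlt i j hij, map_one, map_one])
    (fun a ha => by
      have ha' : a < n := by omega
      let D : ((Fin n → F) → F) → Prop := fun c =>
        ∀ g₁ g₂ : Fin n → F, (∀ b ≤ (⟨a, ha'⟩ : Fin n), g₁ b = g₂ b) → c g₁ = c g₂
      have hWc : ∀ c : (Fin n → F) → F, ∃ W : NC ℕ ℚ_[p], c ∈ S1 → D c → ∀ g : Fin n → F,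
          val (a + 1) (xs M g) W = map (kap p) (M (c g)) := by
        intro c
        by_cases hc : c ∈ S1 ∧ D c
        · obtain ⟨W, hW⟩ := exists_series_dep M hMc hM1 n hMfree c (hS c (hS1 hc.1)) ⟨a, ha'⟩ hc.2
          exact ⟨W, fun _ _ => hW⟩
        · exact ⟨0, fun h1 h2 => absurd ⟨h1, h2⟩ hc⟩
      choose Wc hWc using hWc
      refine ⟨S1.image Wc, fun j => ⟨Wc (cc j ⟨a, ha'⟩), Finset.mem_image_of_mem _ (hcc j _ ha),
        ?_, map (kap p) (M (zz j ⟨a, ha'⟩)), ?_⟩⟩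
      · have h1 := hWc _ (hcc j ⟨a, ha'⟩ ha) (hdep j ⟨a, ha'⟩ ha) (x j)
        rw [h1, hxS1 j _ (hcc j _ ha), map_one, map_one]
      · have h1 := hWc _ (hcc j ⟨a, ha'⟩ ha) (hdep j ⟨a, ha'⟩ ha)
          (Function.update (x j) ⟨a, ha'⟩ (zz j ⟨a, ha'⟩))
        rw [val_succ] at h1
        have h2 : xs M (Function.update (x j) ⟨a, ha'⟩ (zz j ⟨a, ha'⟩)) a =
            map (kap p) (M (zz j ⟨a, ha'⟩)) := by
          simp [xs, ha']
        have h3 : val a (xs M (Function.update (x j) ⟨a, ha'⟩ (zz j ⟨a, ha'⟩)))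
            (Wc (cc j ⟨a, ha'⟩)) = val a (xs M (x j)) (Wc (cc j ⟨a, ha'⟩)) := by
          refine val_congr (fun b hb => ?_) _
          have hbn : b < n := by omega
          simp only [xs, dif_pos hbn]
          rw [Function.update_of_ne]
          intro h
          have := congrArg Fin.val h
          simp at this
          omega
        rw [h2, h3] at h1
        rw [h1]
        intro h4
        have h5 := map_kap_eq_one h4
        have h6 := hdet (j, a)
        simp only [val0, dif_pos ha] at h6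
        exact h6 h5)
  rw [hW] at hj
  have h1 := map_kap_eq_one hj
  have h2 := hdet (j, n)
  simp only [val0] at h2
  rw [dif_neg (by omega)] at h2
  exact h2 h1

end Pool.Agent.MP_23c465_al
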