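import Pool.Agent.Lib.MP_23c465_al.SubstBasic
import Pool.Agent.Lib.MP_23c465_al.Weights

/-!
# First-order expansion of a substitution `η ↦ η + y (1 + η)`
-/

set_option autoImplicit false

namespace Pool.Agent.MP_23c465_al

open Finset

namespace NC

variable {B R : Type} [DecidableEq B] [CommRing R]

/-- `f (P ++ η :: Q')` if `Q = η :: Q'`, and `0` otherwise. -/
def tailTerm (η : B) (f : NC B R) (P : List B) : List B → R
  | [] => 0
  | c :: Q' => if c = η then f (P ++ η :: Q') else 0

/-- The first-order term: sum over all factorisations `Z = P ++ u ++ Q`. -/
def firstOrder (η : B) (y f : NC B R) (Z : List B) : R :=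
  ∑ i ∈ range (Z.length + 1), ∑ j ∈ range (Z.length - i + 1),
    y ((Z.drop i).take j) * (f (Z.take i ++ η :: (Z.drop i).drop j) +
      tailTerm η f (Z.take i) ((Z.drop i).drop j))

private theorem letter_mul_apply (η : B) (g : NC B R) (Q : List B) :
    (letter η * g : NC B R) Q = match Q with
      | [] => 0
      | c :: Q' => if c = η then g Q' else 0 := by
  cases Q with
  | nil => rw [mul_nil, letter_nil, zero_mul]
  | cons c Q =>
      rw [mul_cons, letter_nil, zero_mul, zero_add, D_letter]
      by_cases hc : c = η
      · simp [hc]
      · simp [hc]

private theorem tailTerm_cons (η : B) (f : NC B R) (b : B) (P Q : List B) :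
    tailTerm η f (b :: P) Q = tailTerm η (D b f) P Q := by
  cases Q with
  | nil => rfl
  | cons c Q => rfl

private theorem firstOrder_eq_zero {wt : B → ℕ} {η : B} {M : ℕ} {y : NC B R}
    (hy : ∀ u : List B, wtW wt u < M → y u = 0) (f : NC B R) (Z : List B) (hZ : wtW wt Z < M) :
    firstOrder η y f Z = 0 := by
  unfold firstOrder
  refine Finset.sum_eq_zero fun i _ => Finset.sum_eq_zero fun j _ => ?_
  rw [hy _ (lt_of_le_of_lt (wtW_le_of_infix wt
    ((List.take_prefix j (Z.drop i)).isInfix.trans (List.drop_suffix i Z).isInfix)) hZ), zero_mul]

/-- The coefficient of `P ++ u ++ Q` in the first-order term collects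
`y u * (f (P ++ η :: Q) + tailTerm)`.

Recursion used in the proof of `subst_eq_firstOrder`:
`firstOrder η y f (b :: Z) = firstOrder η y (D b f) Z + (y * ((1 + letter η) * D η f)) (b :: Z)`. -/
theorem firstOrder_cons (η : B) (y f : NC B R) (b : B) (Z : List B) :
    firstOrder η y f (b :: Z) =
      firstOrder η y (D b f) Z +
        (y * ((1 + letter η) * D η f) : NC B R) (b :: Z) := by
  have hX : ∀ Q : List B, ((1 + letter η) * D η f : NC B R) Q =
      f ([] ++ η :: Q) + tailTerm η f [] Q := by
    intro Q
    rw [add_mul, one_mul, add_apply, letter_mul_apply]
    rfl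
  rw [mul_apply, firstOrder, List.length_cons, Finset.sum_range_succ' _ (Z.length + 1), firstOrder]
  congr 1
  · refine Finset.sum_congr rfl fun i _ => ?_
    rw [Nat.add_sub_add_right]
    refine Finset.sum_congr rfl fun j _ => ?_
    rw [List.drop_succ_cons, List.take_succ_cons, D_apply, tailTerm_cons]
    rfl
  · rw [Nat.sub_zero]
    refine Finset.sum_congr rfl fun j _ => ?_
    rw [List.drop_zero, List.take_zero, hX]

/-- Up to weight `2 M` only the first-order term of the substitution `η ↦ η + y (1 + η)` matters,
when all words of `y` have weight at least `M > 0`. -/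
theorem subst_eq_firstOrder {wt : B → ℕ} {η : B} {M : ℕ} (hM : 0 < M) {y : NC B R}
    (hy : ∀ u : List B, wtW wt u < M → y u = 0) (f : NC B R) (Z : List B)
    (hZ : wtW wt Z < 2 * M) :
    subst η (letter η + y * (1 + letter η)) f Z = f Z + firstOrder η y f Z := by
  have hy0 : y [] = 0 := hy [] (by simpa using hM)
  have hY : ∀ u : List B, wtW wt u < M → (y * (1 + letter η) : NC B R) u = 0 := by
    intro u hu
    rw [mul_apply]
    refine Finset.sum_eq_zero fun i _ => ?_
    rw [hy _ (lt_of_le_of_lt (wtW_le_of_infix wt (List.take_prefix i u).isInfix) hu), zero_mul]
  have key : ∀ n : ℕ, ∀ Z : List B, Z.length < n → wtW wt Z < 2 * M → ∀ f : NC B R,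
      subst η (letter η + y * (1 + letter η)) f Z = f Z + firstOrder η y f Z := by
    intro n
    induction n with
    | zero => intro w hw; omega
    | succ n ih =>
        intro Z hZl hZw f
        cases Z with
        | nil => rw [subst_nil, firstOrder_eq_zero hy f [] (by simpa using hM), add_zero]
        | cons b Z =>
            rw [List.length_cons] at hZl
            rw [wtW_cons] at hZw
            have h1 : ((if b = η then 0 else
                  subst η (letter η + y * (1 + letter η)) (D b f)) +
                D b (letter η) * subst η (letter η + y * (1 + letter η)) (D η f) : NC B R) =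
                subst η (letter η + y * (1 + letter η)) (D b f) := by
              rw [D_letter]
              by_cases hb : b = η
              · rw [if_pos hb, if_pos hb, one_mul, zero_add, hb]
              · rw [if_neg hb, if_neg hb, zero_mul, add_zero]
            have h2 : (D b (y * (1 + letter η)) *
                subst η (letter η + y * (1 + letter η)) (D η f) : NC B R) Z =
                (y * ((1 + letter η) * D η f) : NC B R) (b :: Z) := by
              rw [← mul_assoc, mul_cons, mul_nil, hy0, zero_mul, zero_mul, zero_add, mul_apply,
                mul_apply]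
              refine Finset.sum_congr rfl fun i _ => ?_
              rw [D_apply]
              by_cases hw : wtW wt (b :: Z.take i) < M
              · rw [hY _ hw, zero_mul, zero_mul]
              · have h3 : wtW wt (Z.take i) + wtW wt (Z.drop i) = wtW wt Z := by
                  rw [← wtW_append, List.take_append_drop]
                have h4 : wtW wt (Z.drop i) < M := by
                  rw [wtW_cons] at hw
                  omega
                rw [ih (Z.drop i) (by rw [List.length_drop]; omega) (by omega),
                  firstOrder_eq_zero hy _ _ h4, add_zero]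
            have h5 : subst η (letter η + y * (1 + letter η)) f (b :: Z) =
                ((if b = η then 0 else subst η (letter η + y * (1 + letter η)) (D b f)) +
                D b (letter η) * subst η (letter η + y * (1 + letter η)) (D η f) : NC B R) Z +
                (D b (y * (1 + letter η)) *
                subst η (letter η + y * (1 + letter η)) (D η f) : NC B R) Z := by
              rw [← D_apply, D_subst, D_add, add_mul, add_apply, add_apply, add_apply, add_assoc]
            rw [h5, h1, h2, ih Z (by omega) (by omega), firstOrder_cons, D_apply, add_assoc]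
  exact key _ Z (Nat.lt_succ_self _) hZ f

end NC

end Pool.Agent.MP_23c465_al
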