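import Mathlib

/-!
# Free pro-`p` groups (the hypotheses of the frozen statement) and density of the generators
-/

set_option autoImplicit false

namespace Pool.Agent.MP_23c465_al

/-- The hypotheses of the frozen statement on `ι : X → F`. -/
structure FreeProP (p : ℕ) (X F : Type) [Group F] [TopologicalSpace F] (ι : X → F) : Prop where
  index : ∀ N : Subgroup F, IsOpen (N : Set F) → N.Normal → ∃ k : ℕ, N.index = p ^ k
  tendsto : Filter.Tendsto ι Filter.cofinite (nhds 1)
  univ : ∀ (P : Type) [Group P] [Finite P], (∃ k : ℕ, Nat.card P = p ^ k) →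
    ∀ f : X → P, Set.Finite {x : X | f x ≠ 1} →
      ∃! φ : F →* P, IsOpen (φ.ker : Set F) ∧ ∀ x : X, φ (ι x) = f x

variable {p : ℕ} {X F : Type} [Group F] [TopologicalSpace F] [IsTopologicalGroup F]
  [CompactSpace F] [T2Space F] [TotallyDisconnectedSpace F] {ι : X → F}

/-- Every neighbourhood of `1` contains an open normal subgroup. -/
theorem exists_open_normal {U : Set F} (hU : U ∈ nhds (1 : F)) :
    ∃ N : Subgroup F, IsOpen (N : Set F) ∧ N.Normal ∧ (N : Set F) ⊆ U := by
  obtain ⟨V, hVU, hVo, h1⟩ := mem_nhds_iff.mp hU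
  obtain ⟨H, hH⟩ := ProfiniteGrp.exist_openNormalSubgroup_sub_open_nhds_of_one hVo h1
  exact ⟨H.toSubgroup, H.isOpen', H.isNormal', hH.trans hVU⟩

/-- A proper subgroup of a finite `p`-group is contained in a proper normal subgroup. -/
theorem exists_normal_of_ne_top (hp : p.Prime) {P : Type} [Group P] [Finite P]
    (hP : ∃ k : ℕ, Nat.card P = p ^ k) {H : Subgroup P} (hH : H ≠ ⊤) :
    ∃ L : Subgroup P, L.Normal ∧ L ≠ ⊤ ∧ H ≤ L := by
  have : Fact p.Prime := ⟨hp⟩
  obtain ⟨k, hk⟩ := hP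
  have := (IsPGroup.of_card hk).isNilpotent
  obtain ⟨L, hL, hHL⟩ := (eq_top_or_exists_le_coatom H).resolve_left hH
  exact ⟨L, Subgroup.NormalizerCondition.normal_of_coatom L Group.normalizerCondition_of_isNilpotent hL,
    hL.1, hHL⟩

/-- A closed subgroup containing the generators is everything.

Proof: if `g ∉ H`, `H` closed, there is an open normal `N` with `g ∉ H N`; in the finite `p`-group
`P = F ⧸ N` the image of `H` is proper, hence contained in a proper normal subgroup `L`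
(`exists_normal_of_ne_top`); the two homomorphisms `F → P ⧸ L` (the quotient map and the trivial
one) have open kernels and agree on the generators, contradicting the uniqueness in `univ`. -/
theorem FreeProP.dense (hF : FreeProP p X F ι) (hp : p.Prime) (H : Subgroup F)
    (hc : IsClosed (H : Set F)) (hι : ∀ x, ι x ∈ H) : H = ⊤ := by
  by_contra hne
  obtain ⟨g, hg⟩ : ∃ g : F, g ∉ H := by
    by_contra hcon
    push Not at hcon
    exact hne ((Subgroup.eq_top_iff' H).mpr hcon)
  -- the open set `{x | g x ∉ H}`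
  have hUo : IsOpen {x : F | g * x ∉ H} := by
    have h1 : IsOpen ((H : Set F)ᶜ) := hc.isOpen_compl
    exact h1.preimage (continuous_const_mul g)
  have hU1 : (1 : F) ∈ {x : F | g * x ∉ H} := by
    show g * 1 ∉ H
    rwa [mul_one]
  obtain ⟨N, hNo, hNn, hNU⟩ := exists_open_normal (F := F) (hUo.mem_nhds hU1)
  have := hNn
  have hfin : Finite (F ⧸ N) := Subgroup.quotient_finite_of_isOpen N hNo
  obtain ⟨k, hk⟩ := hF.index N hNo hNn
  have hcard : Nat.card (F ⧸ N) = p ^ k := hk
  have hmap : H.map (QuotientGroup.mk' N) ≠ ⊤ := by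
    intro htop
    have hmem : (QuotientGroup.mk' N) g ∈ H.map (QuotientGroup.mk' N) := by
      rw [htop]; exact Subgroup.mem_top _
    obtain ⟨h, hh, hhg⟩ := Subgroup.mem_map.mp hmem
    have h2 : g⁻¹ * h ∈ N := by
      have h3 : ((g : F) : F ⧸ N) = ((h : F) : F ⧸ N) := hhg.symm
      exact QuotientGroup.eq.mp h3
    have h4 := hNU h2
    have h5 : g * (g⁻¹ * h) ∉ H := h4
    rw [mul_inv_cancel_left] at h5
    exact h5 hh
  obtain ⟨L, hLn, hLt, hHL⟩ := exists_normal_of_ne_top hp ⟨k, hcard⟩ hmap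
  have := hLn
  have hfinQ : Finite ((F ⧸ N) ⧸ L) := inferInstance
  have hcardQ : ∃ m : ℕ, Nat.card ((F ⧸ N) ⧸ L) = p ^ m := by
    have hdvd : Nat.card ((F ⧸ N) ⧸ L) ∣ p ^ k := by
      rw [← hcard]
      exact Subgroup.card_quotient_dvd_card L
    obtain ⟨m, -, hm⟩ := (Nat.dvd_prime_pow hp).mp hdvd
    exact ⟨m, hm⟩
  have hfs : Set.Finite {x : X | (fun _ : X => (1 : (F ⧸ N) ⧸ L)) x ≠ 1} := by
    have : {x : X | (fun _ : X => (1 : (F ⧸ N) ⧸ L)) x ≠ 1} = ∅ := by
      ext x; simp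
    rw [this]; exact Set.finite_empty
  have huniq := fun {a b} => @ExistsUnique.unique _ _ (hF.univ ((F ⧸ N) ⧸ L) hcardQ (fun _ => 1) hfs) a b
  let φ₁ : F →* (F ⧸ N) ⧸ L := (QuotientGroup.mk' L).comp (QuotientGroup.mk' N)
  have h1 : IsOpen (φ₁.ker : Set F) ∧ ∀ x : X, φ₁ (ι x) = 1 := by
    refine ⟨?_, ?_⟩
    · refine Subgroup.isOpen_mono (H₁ := N) ?_ hNo
      intro x hx
      rw [MonoidHom.mem_ker]
      show (QuotientGroup.mk' L) ((QuotientGroup.mk' N) x) = 1
      have : (QuotientGroup.mk' N) x = 1 := (QuotientGroup.eq_one_iff x).mpr hx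
      rw [this, map_one]
    · intro x
      show (QuotientGroup.mk' L) ((QuotientGroup.mk' N) (ι x)) = 1
      refine (QuotientGroup.eq_one_iff _).mpr (hHL ?_)
      exact Subgroup.mem_map_of_mem _ (hι x)
  have h2 : IsOpen ((1 : F →* (F ⧸ N) ⧸ L).ker : Set F) ∧
      ∀ x : X, (1 : F →* (F ⧸ N) ⧸ L) (ι x) = 1 := by
    refine ⟨?_, fun x => rfl⟩
    rw [MonoidHom.ker_one]
    exact isOpen_univ
  have h3 : φ₁ = 1 := huniq h1 h2
  apply hLt
  rw [Subgroup.eq_top_iff']
  intro y
  obtain ⟨x, rfl⟩ := QuotientGroup.mk'_surjective N y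
  have h4 : φ₁ x = 1 := by rw [h3]; rfl
  exact (QuotientGroup.eq_one_iff _).mp h4

end Pool.Agent.MP_23c465_al
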