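import Pool.Agent.Lib.MP_23c465_al.NCBasic

/-!
# Group-like series: the infiltration relations (Chen–Fox–Lyndon)
-/

set_option autoImplicit false

namespace Pool.Agent.MP_23c465_al

open Finset

namespace NC

variable {B R : Type} [DecidableEq B] [CommRing R]

/-- The sum of the coefficients of `f` over all infiltrations of `u` and `v`. -/
def infC : NC B R → List B → List B → R
  | f, [], v => f v
  | f, a :: u, [] => f (a :: u)
  | f, a :: u, b :: v => infC (D a f) u (b :: v) + infC (D b f) (a :: u) v +
      (if a = b then infC (D a f) u v else 0)
termination_by _ u v => u.length + v.length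

theorem infC_nil_left (f : NC B R) (v : List B) : infC f [] v = f v := by simp [infC]
theorem infC_nil_right (f : NC B R) (u : List B) : infC f u [] = f u := by
  cases u <;> simp [infC]
theorem infC_cons_cons (f : NC B R) (a b : B) (u v : List B) :
    infC f (a :: u) (b :: v) = infC (D a f) u (b :: v) + infC (D b f) (a :: u) v +
      (if a = b then infC (D a f) u v else 0) := by
  rw [infC]

/-- Group-like series. -/
structure IsGL (f : NC B R) : Prop where
  nil : f [] = 1
  mul : ∀ u v : List B, f u * f v = infC f u v

theorem infC_add (f g : NC B R) (u v : List B) : infC (f + g) u v = infC f u v + infC g u v := by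
  induction hn : u.length + v.length using Nat.strong_induction_on generalizing f g u v with
  | _ n ih =>
    subst hn
    match u, v with
    | [], v => simp [infC_nil_left]
    | a :: u, [] => simp [infC_nil_right]
    | a :: u, b :: v =>
      rw [infC_cons_cons, infC_cons_cons f, infC_cons_cons g, D_add, D_add]
      rw [ih (u.length + (b :: v).length) (by simp) (D a f) (D a g) u (b :: v) rfl,
        ih ((a :: u).length + v.length) (by simp) (D b f) (D b g) (a :: u) v rfl,
        ih (u.length + v.length) (by simp; omega) (D a f) (D a g) u v rfl]
      split_ifs <;> ring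

theorem infC_smul (r : R) (f : NC B R) (u v : List B) : infC (r • f) u v = r * infC f u v := by
  induction hn : u.length + v.length using Nat.strong_induction_on generalizing f u v with
  | _ n ih =>
    subst hn
    match u, v with
    | [], v => simp [infC_nil_left]
    | a :: u, [] => simp [infC_nil_right]
    | a :: u, b :: v =>
      rw [infC_cons_cons, infC_cons_cons f, D_smul, D_smul]
      rw [ih (u.length + (b :: v).length) (by simp) (D a f) u (b :: v) rfl,
        ih ((a :: u).length + v.length) (by simp) (D b f) (a :: u) v rfl,
        ih (u.length + v.length) (by simp; omega) (D a f) u v rfl]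
      split_ifs <;> ring

theorem infC_zero (u v : List B) : infC (0 : NC B R) u v = 0 := by
  have h := infC_smul (0 : R) (0 : NC B R) u v
  rw [smul_zero, zero_mul] at h
  exact h

/-- The infiltration coproduct is multiplicative. -/
theorem infC_mul (f g : NC B R) (u v : List B) :
    infC (f * g) u v = ∑ i ∈ range (u.length + 1), ∑ j ∈ range (v.length + 1),
      infC f (u.take i) (v.take j) * infC g (u.drop i) (v.drop j) := by
  induction hn : u.length + v.length using Nat.strong_induction_on generalizing f g u v with
  | _ n ih =>
    subst hn
    match u, v with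
    | [], v =>
      rw [infC_nil_left, mul_apply]
      simp [infC_nil_left]
    | a :: u, [] =>
      rw [infC_nil_right, mul_apply]
      simp only [infC_nil_right, List.length_nil, zero_add, range_one, sum_singleton,
        List.take_nil, List.drop_nil]
    | a :: u, b :: v =>
      have e1 := ih (u.length + (b :: v).length) (by simp) (D a f) g u (b :: v) rfl
      have e2 := ih ((a :: u).length + v.length) (by simp) (D b f) g (a :: u) v rfl
      have e3 := ih (u.length + v.length) (by simp; omega) (D a f) g u v rfl
      rw [infC_cons_cons, D_mul, D_mul, infC_add, infC_add, infC_add, infC_smul, infC_smul,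
        infC_smul, e1, e2, e3]
      simp only [List.length_cons]
      rw [Finset.sum_range_succ' _ (u.length + 1)]
      simp only [Finset.sum_range_succ' _ (v.length + 1), List.take_succ_cons,
        List.drop_succ_cons, List.take_zero, List.drop_zero]
      rw [Finset.sum_range_succ' _ (u.length + 1)]
      simp only [List.take_succ_cons, List.drop_succ_cons, List.take_zero, List.drop_zero,
        infC_cons_cons f, infC_nil_left, infC_nil_right, D_apply]
      rw [infC_cons_cons g]
      simp only [add_mul, Finset.sum_add_distrib, ite_mul, zero_mul]
      split_ifs with hab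
      · ring
      · simp only [Finset.sum_const_zero]
        ring

theorem IsGL.one : IsGL (1 : NC B R) := by
  refine ⟨rfl, fun u v => ?_⟩
  match u, v with
  | [], v => simp [infC_nil_left]
  | a :: u, [] => simp [infC_nil_right]
  | a :: u, b :: v =>
    rw [infC_cons_cons, D_one, D_one, infC_zero, infC_zero, infC_zero]
    simp

theorem IsGL.mul_mem {f g : NC B R} (hf : IsGL f) (hg : IsGL g) : IsGL (f * g) := by
  refine ⟨by rw [mul_nil, hf.nil, hg.nil, one_mul], fun u v => ?_⟩
  rw [infC_mul, mul_apply, mul_apply, Finset.sum_mul_sum]
  refine Finset.sum_congr rfl fun i _ => Finset.sum_congr rfl fun j _ => ?_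
  rw [← hf.mul, ← hg.mul]
  ring

/-- By induction on `|u| + |v|`: compare the expansions of `(1 ⊗ 1) = (f ⊗ f)(g ⊗ g)` and
`I(1) = I(f) I(g) = (f ⊗ f) I(g)` for `g = inv f`. -/
theorem IsGL.inv_mem {f : NC B R} (hf : IsGL f) : IsGL (NC.inv f) := by
  refine ⟨inv_nil f, fun u v => ?_⟩
  induction hn : u.length + v.length using Nat.strong_induction_on generalizing u v with
  | _ n ih =>
    subst hn
    have h1 : f * NC.inv f = 1 := NC.mul_inv hf.nil
    have e1 := infC_mul f (NC.inv f) u v
    have e2 : (f * NC.inv f) u * (f * NC.inv f) v = ∑ i ∈ range (u.length + 1),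
        ∑ j ∈ range (v.length + 1),
          infC f (u.take i) (v.take j) * (NC.inv f (u.drop i) * NC.inv f (v.drop j)) := by
      rw [mul_apply, mul_apply, Finset.sum_mul_sum]
      refine Finset.sum_congr rfl fun i _ => Finset.sum_congr rfl fun j _ => ?_
      rw [← hf.mul]
      ring
    rw [h1] at e1 e2
    rw [IsGL.one.mul u v, e1] at e2
    rw [← Finset.sum_product', ← Finset.sum_product'] at e2
    have h0 : ((0, 0) : ℕ × ℕ) ∈ range (u.length + 1) ×ˢ range (v.length + 1) := by simp
    rw [← Finset.add_sum_erase _ _ h0, ← Finset.add_sum_erase _ _ h0] at e2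
    have e3 : ∀ x ∈ (range (u.length + 1) ×ˢ range (v.length + 1)).erase (0, 0),
        infC f (u.take x.1) (v.take x.2) * infC (NC.inv f) (u.drop x.1) (v.drop x.2)
          = infC f (u.take x.1) (v.take x.2) *
            (NC.inv f (u.drop x.1) * NC.inv f (v.drop x.2)) := by
      intro x hx
      rw [Finset.mem_erase, Finset.mem_product, Finset.mem_range, Finset.mem_range] at hx
      congr 1
      symm
      refine ih _ ?_ _ _ rfl
      rw [List.length_drop, List.length_drop]
      have : x.1 ≠ 0 ∨ x.2 ≠ 0 := by
        by_contra hc
        push Not at hc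
        exact hx.1 (Prod.ext hc.1 hc.2)
      omega
    rw [Finset.sum_congr rfl e3] at e2
    have e4 := add_right_cancel e2
    simp only [List.take_zero, List.drop_zero, infC_nil_left, hf.nil, one_mul] at e4
    exact e4.symm

theorem IsGL.one_add_letter (b : B) : IsGL (1 + letter b : NC B R) := by
  have hD : ∀ c : B, D c (1 + letter b : NC B R) = if c = b then 1 else 0 := by
    intro c
    rw [D_add, D_one, zero_add, D_letter]
  refine ⟨by simp, fun u v => ?_⟩
  match u, v with
  | [], v => simp [infC_nil_left]
  | a :: u, [] => simp [infC_nil_right]
  | a :: u, c :: v =>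
    have ha : (1 + letter b : NC B R) (a :: u) = (if a = b then 1 else 0) * (1 : NC B R) u := by
      rw [← D_apply, hD]
      split_ifs <;> simp
    have hc : (1 + letter b : NC B R) (c :: v) = (if c = b then 1 else 0) * (1 : NC B R) v := by
      rw [← D_apply, hD]
      split_ifs <;> simp
    have k1 : infC (1 : NC B R) u (c :: v) = 0 := by
      rw [← IsGL.one.mul]; simp
    have k2 : infC (1 : NC B R) (a :: u) v = 0 := by
      rw [← IsGL.one.mul]; simp
    rw [ha, hc, infC_cons_cons, hD, hD]
    by_cases hab : a = b
    · subst hab
      by_cases hac : a = c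
      · subst hac
        simp [k1, k2, ← IsGL.one.mul]
      · have : c ≠ a := fun h => hac h.symm
        simp [k1, this, hac, infC_zero]
    · by_cases hcb : c = b
      · subst hcb
        simp [hab, k2, infC_zero]
      · simp [hab, hcb, infC_zero]

theorem map_infC {R' : Type} [CommRing R'] (φ : R →+* R') (f : NC B R) (u v : List B) :
    infC (map φ f) u v = φ (infC f u v) := by
  induction hn : u.length + v.length using Nat.strong_induction_on generalizing f u v with
  | _ n ih =>
    subst hn
    match u, v with
    | [], v => simp [infC_nil_left]
    | a :: u, [] => simp [infC_nil_right]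
    | a :: u, b :: v =>
      rw [infC_cons_cons, infC_cons_cons f, D_map, D_map]
      rw [ih (u.length + (b :: v).length) (by simp) (D a f) u (b :: v) rfl,
        ih ((a :: u).length + v.length) (by simp) (D b f) (a :: u) v rfl,
        ih (u.length + v.length) (by simp; omega) (D a f) u v rfl]
      split_ifs <;> simp

theorem IsGL.map {R' : Type} [CommRing R'] (φ : R →+* R') {f : NC B R} (hf : IsGL f) :
    IsGL (NC.map φ f) := by
  refine ⟨by simp [hf.nil], fun u v => ?_⟩
  rw [map_infC, ← hf.mul, map_mul]
  rfl

end NC

end Pool.Agent.MP_23c465_al
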