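import Mathlib

/-!
# Shuffles of words and the lexicographic order
-/

set_option autoImplicit false

namespace Pool.Agent.MP_23c465_al

variable {B : Type}

/-- The list of all shuffles of two words (with multiplicity). -/
def shuf : List B → List B → List (List B)
  | [], v => [v]
  | a :: u, [] => [a :: u]
  | a :: u, b :: v => (shuf u (b :: v)).map (a :: ·) ++ (shuf (a :: u) v).map (b :: ·)
termination_by u v => u.length + v.length

theorem shuf_nil_left (v : List B) : shuf [] v = [v] := by simp [shuf]
theorem shuf_nil_right (u : List B) : shuf u [] = [u] := by cases u <;> simp [shuf]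
theorem shuf_cons_cons (a b : B) (u v : List B) :
    shuf (a :: u) (b :: v) =
      (shuf u (b :: v)).map (a :: ·) ++ (shuf (a :: u) v).map (b :: ·) := by
  rw [shuf]

theorem append_mem_shuf (u v : List B) : u ++ v ∈ shuf u v := by
  induction u with
  | nil => simp [shuf_nil_left]
  | cons a u ih =>
    cases v with
    | nil => simp [shuf_nil_right]
    | cons b v =>
      rw [shuf_cons_cons, List.mem_append]
      exact Or.inl (List.mem_map.2 ⟨_, ih, rfl⟩)

theorem perm_of_mem_shuf {u v z : List B} (h : z ∈ shuf u v) : z.Perm (u ++ v) := by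
  induction u generalizing v z with
  | nil =>
    rw [shuf_nil_left, List.mem_singleton] at h
    rw [h]
    exact List.Perm.refl _
  | cons a u ihu =>
    induction v generalizing z with
    | nil =>
      rw [shuf_nil_right, List.mem_singleton] at h
      rw [h, List.append_nil]
    | cons b v ihv =>
      rw [shuf_cons_cons, List.mem_append] at h
      rcases h with h | h
      · obtain ⟨z', hz', rfl⟩ := List.mem_map.1 h
        exact (ihu hz').cons a
      · obtain ⟨z', hz', rfl⟩ := List.mem_map.1 h
        exact ((ihv hz').cons b).trans List.perm_middle.symm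

private theorem shuf_left {a : B} {u v z : List B} (h : z ∈ shuf u v) : a :: z ∈ shuf (a :: u) v := by
  cases v with
  | nil =>
    rw [shuf_nil_right, List.mem_singleton] at h ⊢
    rw [h]
  | cons b v =>
    rw [shuf_cons_cons, List.mem_append]
    exact Or.inl (List.mem_map.2 ⟨z, h, rfl⟩)

private theorem shuf_right {b : B} {u v z : List B} (h : z ∈ shuf u v) : b :: z ∈ shuf u (b :: v) := by
  cases u with
  | nil =>
    rw [shuf_nil_left, List.mem_singleton] at h ⊢
    rw [h]
  | cons a u =>
    rw [shuf_cons_cons, List.mem_append]
    exact Or.inr (List.mem_map.2 ⟨z, h, rfl⟩)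

private theorem cons_le_cons' [LinearOrder B] (a : B) {u v : List B} (h : u ≤ v) :
    a :: u ≤ a :: v := by
  rcases h.lt_or_eq with h | h
  · exact (List.cons_lt_cons_iff.2 (Or.inr ⟨rfl, h⟩)).le
  · rw [h]

private theorem le_of_cons_le [LinearOrder B] {a : B} {u v : List B} (h : a :: u ≤ a :: v) :
    u ≤ v := by
  rcases h.lt_or_eq with h | h
  · rcases List.cons_lt_cons_iff.1 h with h | h
    · exact absurd h (lt_irrefl _)
    · exact h.2.le
  · rw [(List.cons.inj h).2]

private theorem head_le [LinearOrder B] {a b : B} {u v : List B} (h : a :: u ≤ b :: v) :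
    a ≤ b := by
  rcases h.lt_or_eq with h | h
  · rcases List.cons_lt_cons_iff.1 h with h | h
    · exact h.le
    · exact h.1.le
  · rw [(List.cons.inj h).1]

private theorem nil_le' [LinearOrder B] (u : List B) : [] ≤ u := by
  cases u with
  | nil => exact le_rfl
  | cons a u => exact (List.nil_lt_cons a u).le

private theorem not_cons_le_nil [LinearOrder B] {a : B} {u : List B} (h : a :: u ≤ []) : False := by
  rcases h.lt_or_eq with h | h
  · exact List.not_lt_nil _ h
  · exact List.cons_ne_nil _ _ h

/-- If `y ≤ x`, every shuffle of `P ++ x` and `y` is at most some shuffle of `x` and `P ++ y`.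

Proof: induction on `y` (all `x`, `P`), then on `P`.  `P = []` trivial.  A shuffle starting with
the first letter `p` of `P = p :: P'`: inner induction, and `p :: z''` with `z'' ∈ shuf x (P' ++ y)`
is in `shuf x (p :: P' ++ y)`.  A shuffle `q :: z'` starting with the first letter of `y = q :: y'`:
write `x = r :: x'`, `q ≤ r`.  If `q < r` take any shuffle starting with `r`.  If `q = r`, then
`y' ≤ x'`, `z' ∈ shuf ((P ++ [q]) ++ x') y'`, and the outer induction gives
`z' ≤ z'' ∈ shuf x' (P ++ q :: y')`. -/
theorem exists_shuf_ge [LinearOrder B] {x y P z : List B} (hxy : y ≤ x)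
    (hz : z ∈ shuf (P ++ x) y) : ∃ z' ∈ shuf x (P ++ y), z ≤ z' := by
  induction y generalizing x P z with
  | nil =>
    rw [shuf_nil_right, List.mem_singleton] at hz
    rw [hz, List.append_nil]
    -- z = P ++ x ; a shuffle of x and P
    refine ⟨P ++ x, ?_, le_rfl⟩
    clear hz hxy
    induction P with
    | nil => rw [shuf_nil_right]; simp
    | cons p P ih => exact shuf_right ih
  | cons q y ihy =>
    induction P generalizing z with
    | nil =>
      -- shuf x (q :: y)
      exact ⟨z, hz, le_rfl⟩
    | cons p P ihP =>
      rw [List.cons_append, shuf_cons_cons, List.mem_append] at hz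
      rcases hz with hz | hz
      · obtain ⟨z1, hz1, rfl⟩ := List.mem_map.1 hz
        obtain ⟨z2, hz2, hle⟩ := ihP hz1
        exact ⟨p :: z2, shuf_right hz2, cons_le_cons' p hle⟩
      · obtain ⟨z1, hz1, rfl⟩ := List.mem_map.1 hz
        cases x with
        | nil => exact (not_cons_le_nil hxy).elim
        | cons r x =>
          rcases (head_le hxy).lt_or_eq with hqr | hqr
          · refine ⟨r :: (x ++ (p :: P ++ q :: y)), shuf_left (append_mem_shuf _ _), ?_⟩
            exact (List.cons_lt_cons_iff.2 (Or.inl hqr)).le
          · subst hqr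
            have hyx := le_of_cons_le hxy
            have hz1' : z1 ∈ shuf ((p :: P ++ [q]) ++ x) y := by
              have e : p :: (P ++ q :: x) = (p :: P ++ [q]) ++ x := by simp
              rw [← e]; exact hz1
            obtain ⟨z2, hz2, hle⟩ := ihy hyx hz1'
            refine ⟨q :: z2, ?_, cons_le_cons' q hle⟩
            have e : (p :: P ++ [q]) ++ y = p :: P ++ q :: y := by simp
            rw [e] at hz2
            exact shuf_left hz2

/-- If every nonempty suffix of `x` is `≥ y`, every shuffle of `x` and `y` is `≤ x ++ y`.

Proof: induction on `x`.  `x = p :: x'`, `y = q :: y'` (the other cases are trivial).  Shuffles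
starting with `p`: induction.  Shuffles `q :: z'`, `z' ∈ shuf (p :: x') y'`: `y ≤ x` gives `q ≤ p`;
if `q < p` done; if `q = p` then `y' ≤ x'` and `exists_shuf_ge` with `P = [p]` gives
`z' ≤ z'' ∈ shuf x' y`, and `z'' ≤ x' ++ y` by induction. -/
theorem le_append_of_mem_shuf [LinearOrder B] {x y z : List B}
    (h : ∀ s : List B, s ≠ [] → s <:+ x → y ≤ s) (hz : z ∈ shuf x y) : z ≤ x ++ y := by
  induction x generalizing z with
  | nil =>
    rw [shuf_nil_left, List.mem_singleton] at hz
    rw [hz, List.nil_append]
  | cons p x ih =>
    have hx : ∀ s : List B, s ≠ [] → s <:+ x → y ≤ s := fun s hs hsx =>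
      h s hs (hsx.trans (List.suffix_cons p x))
    cases y with
    | nil =>
      rw [shuf_nil_right, List.mem_singleton] at hz
      rw [hz, List.append_nil]
    | cons q y =>
      rw [shuf_cons_cons, List.mem_append] at hz
      rcases hz with hz | hz
      · obtain ⟨z1, hz1, rfl⟩ := List.mem_map.1 hz
        exact cons_le_cons' p (ih hx hz1)
      · obtain ⟨z1, hz1, rfl⟩ := List.mem_map.1 hz
        have hle : q :: y ≤ p :: x := h _ (List.cons_ne_nil _ _) List.suffix_rfl
        rcases (head_le hle).lt_or_eq with hqp | hqp
        · exact (List.cons_lt_cons_iff.2 (Or.inl hqp)).le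
        · subst hqp
          have hyx := le_of_cons_le hle
          have hz1' : z1 ∈ shuf ([q] ++ x) y := hz1
          obtain ⟨z2, hz2, hle2⟩ := exists_shuf_ge hyx hz1'
          exact cons_le_cons' q (hle2.trans (ih hx hz2))

end Pool.Agent.MP_23c465_al
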