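import Pool.Agent.Lib.MP_23c465_al.Infil
import Pool.Agent.Lib.MP_23c465_al.Weights
import Pool.Agent.Lib.MP_23c465_al.Shuf

/-!
# Shuffle sums of group-like series
-/

set_option autoImplicit false

namespace Pool.Agent.MP_23c465_al

open Finset

namespace NC

variable {B R : Type} [DecidableEq B] [CommRing R]

private theorem infC_mem (N : AddSubgroup R) (wt : B → ℕ) :
    ∀ (n : ℕ) (g : NC B R) (u v : List B), u.length + v.length = n →
      (∀ w : List B, wtW wt w ≤ wtW wt (u ++ v) → g w ∈ N) → infC g u v ∈ N := by
  intro n
  induction n using Nat.strong_induction_on with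
  | _ n ih =>
    intro g u v hn hg
    rcases u with _ | ⟨a, u⟩
    · rw [infC_nil_left]
      exact hg v (by simp)
    rcases v with _ | ⟨b, v⟩
    · rw [infC_nil_right]
      exact hg _ (by simp)
    rw [infC_cons_cons]
    simp only [List.length_cons] at hn
    refine N.add_mem (N.add_mem ?_ ?_) ?_
    · refine ih _ (by simp only [List.length_cons]; omega) (D a g) u (b :: v) rfl fun w hw => ?_
      rw [D_apply]
      refine hg _ ?_
      simp only [wtW_cons, wtW_append] at hw ⊢
      omega
    · refine ih _ (by simp only [List.length_cons]; omega) (D b g) (a :: u) v rfl fun w hw => ?_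
      rw [D_apply]
      refine hg _ ?_
      simp only [wtW_cons, wtW_append] at hw ⊢
      omega
    · split_ifs with hab
      · refine ih _ (by omega) (D a g) u v rfl fun w hw => ?_
        rw [D_apply]
        refine hg _ ?_
        simp only [wtW_cons, wtW_append] at hw ⊢
        omega
      · exact N.zero_mem

private theorem map_cons_sum (g : NC B R) (a : B) (L : List (List B)) :
    ((L.map (a :: ·)).map g.coeff).sum = (L.map (D a g).coeff).sum := by
  rw [List.map_map]
  rfl

private theorem infC_sub_mem (N : AddSubgroup R) (wt : B → ℕ) :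
    ∀ (n : ℕ) (g : NC B R) (u v : List B), u.length + v.length = n →
      (∀ b ∈ u ++ v, 0 < wt b) →
      (∀ w : List B, wtW wt w < wtW wt (u ++ v) → g w ∈ N) →
      infC g u v - ((shuf u v).map g.coeff).sum ∈ N := by
  intro n
  induction n using Nat.strong_induction_on with
  | _ n ih =>
    intro g u v hn hpos hg
    rcases u with _ | ⟨a, u⟩
    · rw [infC_nil_left, shuf_nil_left]
      simp
    rcases v with _ | ⟨b, v⟩
    · rw [infC_nil_right, shuf_nil_right]
      simp
    rw [infC_cons_cons, shuf_cons_cons, List.map_append, List.sum_append, map_cons_sum,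
      map_cons_sum]
    simp only [List.length_cons] at hn
    have ha : 0 < wt a := hpos a (by simp)
    have hb : 0 < wt b := hpos b (by simp)
    have h1 : infC (D a g) u (b :: v) - ((shuf u (b :: v)).map (D a g).coeff).sum ∈ N := by
      refine ih _ (by simp only [List.length_cons]; omega) (D a g) u (b :: v) rfl (fun c hc => hpos c ?_) fun w hw => ?_
      · simp only [List.mem_append, List.mem_cons] at hc ⊢
        tauto
      · rw [D_apply]
        refine hg _ ?_
        simp only [wtW_cons, wtW_append] at hw ⊢
        omega
    have h2 : infC (D b g) (a :: u) v - ((shuf (a :: u) v).map (D b g).coeff).sum ∈ N := by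
      refine ih _ (by simp only [List.length_cons]; omega) (D b g) (a :: u) v rfl (fun c hc => hpos c ?_) fun w hw => ?_
      · simp only [List.mem_append, List.mem_cons] at hc ⊢
        tauto
      · rw [D_apply]
        refine hg _ ?_
        simp only [wtW_cons, wtW_append] at hw ⊢
        omega
    have h3 : (if a = b then infC (D a g) u v else 0) ∈ N := by
      split_ifs with hab
      · refine infC_mem N wt _ (D a g) u v rfl fun w hw => ?_
        rw [D_apply]
        refine hg _ ?_
        simp only [wtW_cons, wtW_append] at hw ⊢
        omega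
      · exact N.zero_mem
    have h4 := N.add_mem (N.add_mem h1 h2) h3
    convert h4 using 1
    ring

/-- For a group-like series the shuffle sums are, up to the coefficients of smaller weight,
products of coefficients.

Proof: `f u * f v = infC f u v`, and `infC f u v - (shuffle sum) ∈ N`: show by induction on
`|u| + |v|`, for all `g` and words with letters of positive weight, that
(1) `(∀ w, wt w ≤ wt (u ++ v) → g w ∈ N) → infC g u v ∈ N`,
(2) `(∀ w, wt w < wt (u ++ v) → g w ∈ N) → infC g u v - ((shuf u v).map g.coeff).sum ∈ N`,
and apply them to the derivatives `D a f` in the recursion for `f` itself. -/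
theorem shuf_sum_mem (N : AddSubgroup R) {f : NC B R} (hf : IsGL f) {wt : B → ℕ} {u v : List B}
    (hu : u ≠ []) (hv : v ≠ []) (hpos : ∀ b ∈ u ++ v, 0 < wt b)
    (hN : ∀ w : List B, w ≠ [] → wtW wt w < wtW wt (u ++ v) → f w ∈ N)
    (hmul : f u * f v ∈ N) : ((shuf u v).map f.coeff).sum ∈ N := by
  rcases u with _ | ⟨a, u⟩
  · exact absurd rfl hu
  rcases v with _ | ⟨b, v⟩
  · exact absurd rfl hv
  rw [hf.mul, infC_cons_cons] at hmul
  rw [shuf_cons_cons, List.map_append, List.sum_append, map_cons_sum, map_cons_sum]
  have ha : 0 < wt a := hpos a (by simp)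
  have hb : 0 < wt b := hpos b (by simp)
  have h1 : infC (D a f) u (b :: v) - ((shuf u (b :: v)).map (D a f).coeff).sum ∈ N := by
    refine infC_sub_mem N wt _ (D a f) u (b :: v) rfl (fun c hc => hpos c ?_) fun w hw => ?_
    · simp only [List.mem_append, List.mem_cons] at hc ⊢
      tauto
    · rw [D_apply]
      refine hN _ (by simp) ?_
      simp only [wtW_cons, wtW_append] at hw ⊢
      omega
  have h2 : infC (D b f) (a :: u) v - ((shuf (a :: u) v).map (D b f).coeff).sum ∈ N := by
    refine infC_sub_mem N wt _ (D b f) (a :: u) v rfl (fun c hc => hpos c ?_) fun w hw => ?_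
    · simp only [List.mem_append, List.mem_cons] at hc ⊢
      tauto
    · rw [D_apply]
      refine hN _ (by simp) ?_
      simp only [wtW_cons, wtW_append] at hw ⊢
      omega
  have h3 : (if a = b then infC (D a f) u v else 0) ∈ N := by
    split_ifs with hab
    · refine infC_mem N wt _ (D a f) u v rfl fun w hw => ?_
      rw [D_apply]
      refine hN _ (by simp) ?_
      simp only [wtW_cons, wtW_append] at hw ⊢
      omega
    · exact N.zero_mem
  have h4 := N.sub_mem hmul (N.add_mem (N.add_mem h1 h2) h3)
  convert h4 using 1
  ring

end NC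

end Pool.Agent.MP_23c465_al
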