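import Pool.Agent.Lib.MP_23c465_al.Shuf
import Pool.Agent.Lib.MP_23c465_al.Fill

/-!
# The smallest word in the support of a functional killing shuffles is unbordered
-/

set_option autoImplicit false

namespace Pool.Agent.MP_23c465_al

variable {B : Type}

private theorem le_append_self [LinearOrder B] (c t : List B) : c ≤ c ++ t := by
  induction c with
  | nil =>
    cases t with
    | nil => exact le_rfl
    | cons a u => exact (List.nil_lt_cons a u).le
  | cons a c ih =>
    rw [List.cons_append]
    rcases ih.lt_or_eq with h | h
    · exact (List.cons_lt_cons_iff.2 (Or.inr ⟨rfl, h⟩)).le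
    · rw [← h]

private theorem le_of_append_le [LinearOrder B] (s : List B) {u v : List B}
    (h : s ++ u ≤ s ++ v) : u ≤ v := by
  induction s with
  | nil => exact h
  | cons a s ih =>
    rw [List.cons_append, List.cons_append] at h
    apply ih
    rcases h.lt_or_eq with h | h
    · rcases List.cons_lt_cons_iff.1 h with h | h
      · exact absurd h (lt_irrefl _)
      · exact h.2.le
    · rw [(List.cons.inj h).2]

private theorem prefix_of_between [LinearOrder B] {s v t : List B} (h1 : s < v)
    (h2 : v ≤ s ++ t) : ∃ v', v = s ++ v' := by
  induction s generalizing v with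
  | nil => exact ⟨v, rfl⟩
  | cons a s ih =>
    cases v with
    | nil => exact absurd h1 (List.not_lt_nil _)
    | cons b v =>
      rw [List.cons_append] at h2
      rcases List.cons_lt_cons_iff.1 h1 with h | ⟨h, h'⟩
      · exfalso
        rcases h2.lt_or_eq with h2 | h2
        · rcases List.cons_lt_cons_iff.1 h2 with h3 | h3
          · exact lt_asymm h h3
          · exact h.ne h3.1.symm
        · exact h.ne (List.cons.inj h2).1.symm
      · subst h
        have h3 : v ≤ s ++ t := by
          rcases h2.lt_or_eq with h2 | h2
          · rcases List.cons_lt_cons_iff.1 h2 with h3 | h3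
            · exact absurd h3 (lt_irrefl _)
            · exact h3.2.le
          · rw [(List.cons.inj h2).2]
        obtain ⟨v', rfl⟩ := ih h' h3
        exact ⟨v', rfl⟩

private theorem exists_min_suffix [LinearOrder B] {w : List B} (hw : w ≠ []) :
    ∃ v : List B, v ≠ [] ∧ v <:+ w ∧ ∀ s : List B, s ≠ [] → s <:+ w → v ≤ s := by
  classical
  obtain ⟨v, hv, hmin⟩ := Finset.exists_min_image (w.tails.toFinset.filter (· ≠ [])) id
    ⟨w, by simp [hw]⟩
  simp only [Finset.mem_filter, List.mem_toFinset, List.mem_tails, id] at hv hmin
  exact ⟨v, hv.2, hv.1, fun s hs hsw => hmin s ⟨hsw, hs⟩⟩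

private theorem sum_mem [DecidableEq B] {E : Type} [AddCommGroup E] (N : AddSubgroup E)
    (f : List B → E) (w : List B) (L : List (List B)) (hL : ∀ z ∈ L, z = w ∨ f z ∈ N) :
    (L.map f).sum - (L.count w) • f w ∈ N := by
  induction L with
  | nil => simp
  | cons z L ih =>
    have ih' := ih (fun y hy => hL y (List.mem_cons_of_mem _ hy))
    rw [List.map_cons, List.sum_cons]
    by_cases hz : z = w
    · subst hz
      rw [List.count_cons_self, succ_nsmul]
      have e : f z + (L.map f).sum - (L.count z • f z + f z) =
          (L.map f).sum - L.count z • f z := by abel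
      rw [e]
      exact ih'
    · have hzN : f z ∈ N := (hL z List.mem_cons_self).resolve_left hz
      rw [List.count_cons_of_ne hz]
      have e : f z + (L.map f).sum - L.count w • f w =
          f z + ((L.map f).sum - L.count w • f w) := by abel
      rw [e]
      exact N.add_mem hzN ih'

/-- Let `w` be minimal, among its permutations, with `f w ∉ N`, and suppose the shuffle sums
`∑_{z ∈ u ⧢ v} f z` lie in `N` whenever `w = u ++ v` with `u, v ≠ []`.  Then `w` is unbordered.

Proof: let `v` be the lexicographically smallest nonempty suffix of `w`.  If `v ≠ w` write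
`w = u ++ v`, `u ≠ []`; every nonempty suffix `s` of `u` is `≥ v` (else, `s ++ v ≥ v` being a suffix
of `w`, `s` is a proper prefix of `v = s ++ v'` and `v' ≤ v`, contradiction with minimality and
length).  So all shuffles of `u` and `v` are `≤ w` (`le_append_of_mem_shuf`), those `< w` have
`f z ∈ N`, and `w` itself occurs `≥ 1` times (`append_mem_shuf`): `(mult) • f w ∈ N`,
contradiction.  So `v = w`: `w` is smaller than its proper nonempty suffixes, and a proper border
`c` would satisfy `c < w` (prefix) and `w < c` (suffix). -/
theorem unbordered_of_min [LinearOrder B] {E : Type} [AddCommGroup E] (N : AddSubgroup E)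
    (hN : ∀ (n : ℕ) (e : E), n ≠ 0 → n • e ∈ N → e ∈ N) (f : List B → E) (w : List B)
    (hw : f w ∉ N) (hmin : ∀ z : List B, z.Perm w → z < w → f z ∈ N)
    (hrel : ∀ u v : List B, u ≠ [] → v ≠ [] → u ++ v = w → ((shuf u v).map f).sum ∈ N) :
    Unbordered w := by
  by_cases hne : w = []
  · intro c hc hpre _
    rw [hne] at hpre
    exact absurd (List.prefix_nil.1 hpre) hc
  obtain ⟨v, hv, hvw, hvmin⟩ := exists_min_suffix hne
  have hvw' : v = w := by
    by_contra hneq
    obtain ⟨u, hu⟩ := hvw
    have hune : u ≠ [] := by
      rintro rfl
      exact hneq hu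
    have hsuf : ∀ s : List B, s ≠ [] → s <:+ u → v ≤ s := by
      intro s hs hsu
      by_contra hlt
      rw [not_le] at hlt
      have h1 : v ≤ s ++ v := by
        refine hvmin _ (by simp [hs]) ?_
        obtain ⟨p, hp⟩ := hsu
        exact ⟨p, by rw [← List.append_assoc, hp, hu]⟩
      obtain ⟨v', hv'⟩ := prefix_of_between hlt h1
      have h2 : v' ≤ v := by
        have h3 : s ++ v' ≤ s ++ v := by rw [← hv']; exact h1
        exact le_of_append_le s h3
      by_cases hv'ne : v' = []
      · rw [hv'ne, List.append_nil] at hv'
        rw [hv'] at hlt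
        exact lt_irrefl _ hlt
      · have h3 : v ≤ v' := by
          refine hvmin v' hv'ne ?_
          have h4 : v' <:+ v := ⟨s, hv'.symm⟩
          exact h4.trans ⟨u, hu⟩
        have h5 := le_antisymm h3 h2
        have h6 := congrArg List.length hv'
        rw [List.length_append, h5] at h6
        have h7 : s.length ≠ 0 := fun h => hs (List.length_eq_zero_iff.1 h)
        omega
    have hall : ∀ z ∈ shuf u v, z = w ∨ f z ∈ N := by
      intro z hz
      have hle := le_append_of_mem_shuf hsuf hz
      rw [hu] at hle
      rcases hle.lt_or_eq with h | h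
      · right
        refine hmin z ?_ h
        have := perm_of_mem_shuf hz
        rw [hu] at this
        exact this
      · exact Or.inl h
    have h1 := sum_mem N f w (shuf u v) hall
    have h2 := hrel u v hune hv hu
    have h3 : (shuf u v).count w • f w ∈ N := by
      have := N.sub_mem h2 h1
      simpa using this
    refine hw (hN _ _ ?_ h3)
    have h4 : w ∈ shuf u v := by
      rw [← hu]
      exact append_mem_shuf u v
    exact (List.count_pos_iff.2 h4).ne'
  intro c hc hpre hsuf
  rw [hvw'] at hvmin
  have h1 := hvmin c hc hsuf
  obtain ⟨t, ht⟩ := hpre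
  have h2 : c ≤ w := by
    rw [← ht]
    exact le_append_self c t
  exact le_antisymm h2 h1

end Pool.Agent.MP_23c465_al
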