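import Pool.Agent.Lib.MP_23c465_al.Expand
import Pool.Agent.Lib.MP_23c465_al.InfilShuf
import Pool.Agent.Lib.MP_23c465_al.Lyndon
import Pool.Agent.Lib.MP_23c465_al.FirstOrder

/-!
# Key step C1: all coordinates of a generic solution lie in a small subring
-/

set_option autoImplicit false

namespace Pool.Agent.MP_23c465_al

open NC

variable {B : Type} [LinearOrder B]

private lemma c1_sum_sub_mem {K : Type} [CommRing K] (G : Subring K) (s : Finset ℕ)
    (t : ℕ → Finset ℕ) (F : ℕ → ℕ → K) (i₀ j₀ : ℕ) (hi₀ : i₀ ∈ s) (hj₀ : j₀ ∈ t i₀)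
    (h : ∀ i ∈ s, ∀ j ∈ t i, ¬ (i = i₀ ∧ j = j₀) → F i j ∈ G) :
    (∑ i ∈ s, ∑ j ∈ t i, F i j) - F i₀ j₀ ∈ G := by
  rw [Finset.sum_sigma' s t F]
  have hmem : (⟨i₀, j₀⟩ : (_ : ℕ) × ℕ) ∈ s.sigma t := by
    rw [Finset.mem_sigma]; exact ⟨hi₀, hj₀⟩
  rw [← Finset.add_sum_erase _ _ hmem, add_sub_cancel_left]
  apply G.sum_mem
  rintro ⟨i, j⟩ hij
  rw [Finset.mem_erase, Finset.mem_sigma] at hij
  obtain ⟨hne, hi, hj⟩ := hij
  refine h i hi j hj ?_
  rintro ⟨rfl, rfl⟩
  exact hne rfl

/-- **Key step C1** (see the dnote for the proof on paper).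

`x` group-like and free of `η`, value `subst η (x - 1) f = 1`, `(m, d)` the smallest type
(number of letters `η`, weight of the rest) of a word in the support of the expansion
`V = expand η f x` involving `η`.  If the subring `G` contains `ℚ`, the coefficients of `f`, the
coefficients of `x` of weight `≤ d` and the inverses of the `V W`, `W` of type `(m, d)`, then it
contains all coefficients of `x`.

Proof.  Otherwise let `M > d` be the smallest weight of a `w` with `x w ∉ G` (such `w` do not
contain `η`) and `ℓ` the lexicographically smallest `w` of weight `M` with `x w ∉ G`.  `ℓ` is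
unbordered: `unbordered_of_min` with `N = G` and `shuf_sum_mem`.  Let `t` be the truncation of `x`
(weights `< M`), `y = t⁻¹ x`, so that `y w = 0` for `0 < wt w < M`, `y w = x w` for `wt w = M`.
By `expand_mul` and `subst_eq_firstOrder` (applied to `y - 1`), for `wt Z < 2 M`
`V Z = V' Z + firstOrder η (y - 1) V' Z`, `V' = expand η f t` (coefficients in `G` by
`expand_mem`, equal to `V` in weights `< M` by `expand_congr`).  Take `Z = P₀ ++ ℓ ++ Q₀` minimal
among the `P ++ ℓ ++ Q` with `P ++ η :: Q` of type `(m, d)` and `V (P ++ η :: Q) ≠ 0`; `Z` has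
type `(m - 1, M + d)`, so `V Z = 0` (minimality of `m`; value `1` if `m = 1`).  In the first-order
term all `tailTerm`s vanish, the terms with `wt u ≠ M` vanish, the terms with `x u ∈ G` are in `G`,
the other terms have `ℓ ≤ u`, hence `u = ℓ` by minimality of `Z` (`append_lt_append_of_wt`), hence
`(P, Q) = (P₀, Q₀)` by `split_unique`.  So `V (P₀ ++ η :: Q₀) * x ℓ ∈ G`, contradiction. -/
theorem keyC1 {K : Type} [Field K] [CharZero K] {wt : B → ℕ} {η : B}
    (h0 : ∀ b, wt b = 0 ↔ b = η) (hfin : ∀ n, {b : B | wt b ≤ n}.Finite)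
    (f x : NC B K) (hx : IsGL x) (hxf : Free η x) (m d : ℕ) (hm : 1 ≤ m) (G : Subring K)
    (hG : ∀ n : ℕ, n ≠ 0 → ((n : K)⁻¹) ∈ G) (hf : ∀ W, f W ∈ G)
    (hxd : ∀ w : List B, wtW wt w ≤ d → x w ∈ G)
    (hE : subst η (x - 1) f = 1)
    (hmin : ∀ W : List B, W ≠ [] → (W.count η < m ∨ (W.count η = m ∧ wtW wt W < d)) →
      expand η f x W = 0)
    (hW : ∃ W : List B, W.count η = m ∧ wtW wt W = d ∧ expand η f x W ≠ 0)
    (hinv : ∀ W : List B, W.count η = m → wtW wt W = d → (expand η f x W)⁻¹ ∈ G) :
    ∀ w : List B, x w ∈ G := by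
  classical
  by_contra hcon
  push Not at hcon
  -- the smallest weight `M`
  have hex : ∃ M : ℕ, ∃ w : List B, wtW wt w = M ∧ x w ∉ G := by
    obtain ⟨w, hw⟩ := hcon
    exact ⟨_, w, rfl, hw⟩
  obtain ⟨M, hMdef⟩ : ∃ M, M = Nat.find hex := ⟨_, rfl⟩
  have hMspec : ∃ w : List B, wtW wt w = M ∧ x w ∉ G := by
    rw [hMdef]; exact Nat.find_spec hex
  have hMmin : ∀ w : List B, wtW wt w < M → x w ∈ G := by
    intro w hw
    by_contra hxw
    rw [hMdef] at hw
    exact Nat.find_min hex hw ⟨w, rfl, hxw⟩
  have hdM : d < M := by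
    obtain ⟨w, hw, hxw⟩ := hMspec
    by_contra hle
    exact hxw (hxd w (by omega))
  have hM0 : 0 < M := by omega
  have hηx : ∀ w : List B, x w ∉ G → η ∉ w := by
    intro w hw hη
    exact hw (by rw [hxf w hη]; exact G.zero_mem)
  -- the smallest word `ℓ`
  have hSfin : {w : List B | wtW wt w = M ∧ x w ∉ G}.Finite := by
    refine (finite_words h0 hfin 0 M).subset ?_
    rintro w ⟨hw1, hw2⟩
    exact ⟨by rw [List.count_eq_zero_of_not_mem (hηx w hw2)], hw1.le⟩
  obtain ⟨ℓ, ⟨hℓM, hℓx⟩, hℓmin⟩ := Set.exists_min_image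
    {w : List B | wtW wt w = M ∧ x w ∉ G} id hSfin hMspec
  have hηℓ : η ∉ ℓ := hηx ℓ hℓx
  have hℓne : ℓ ≠ [] := by
    rintro rfl
    simp at hℓM
    omega
  have hub : Unbordered ℓ := by
    refine unbordered_of_min G.toAddSubgroup ?_ x.coeff ℓ hℓx ?_ ?_
    · intro n e hn he
      have h1 : (n : K) ≠ 0 := by exact_mod_cast hn
      have h2 : e = (n : K)⁻¹ * (n • e) := by
        rw [nsmul_eq_mul, ← mul_assoc, inv_mul_cancel₀ h1, one_mul]
      rw [h2]
      exact G.mul_mem (hG n hn) he
    · intro z hz hzℓ
      by_contra hxz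
      have h1 : wtW wt z = M := by rw [wtW_perm wt hz, hℓM]
      exact absurd (hℓmin z ⟨h1, hxz⟩) (not_le.mpr hzℓ)
    · intro u v hu hv huv
      have hηu : η ∉ u := fun h => hηℓ (by rw [← huv]; exact List.mem_append_left _ h)
      have hηv : η ∉ v := fun h => hηℓ (by rw [← huv]; exact List.mem_append_right _ h)
      have hwu := wtW_pos h0 hu hηu
      have hwv := wtW_pos h0 hv hηv
      have hsum : wtW wt u + wtW wt v = M := by rw [← wtW_append, huv, hℓM]
      refine shuf_sum_mem G.toAddSubgroup hx (wt := wt) hu hv ?_ ?_ ?_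
      · intro b hb
        rw [huv] at hb
        have hbη : b ≠ η := fun h => hηℓ (h ▸ hb)
        exact Nat.pos_of_ne_zero fun h => hbη ((h0 b).1 h)
      · intro w _ hw
        rw [huv, hℓM] at hw
        exact hMmin w hw
      · exact G.mul_mem (hMmin u (by omega)) (hMmin v (by omega))
  -- truncation
  obtain ⟨t, ht⟩ : ∃ t : NC B K, ∀ w, t w = if wtW wt w < M then x w else 0 :=
    ⟨⟨fun w => if wtW wt w < M then x w else 0⟩, fun _ => rfl⟩
  have ht1 : t [] = 1 := by
    rw [ht, if_pos (by simpa using hM0)]; exact hx.nil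
  have htη : Free η t := by
    intro w hw
    rw [ht, hxf w hw]; simp
  have htG : ∀ w, t w ∈ G := by
    intro w
    rw [ht]
    split_ifs with h
    · exact hMmin w h
    · exact G.zero_mem
  obtain ⟨y, hydef⟩ : ∃ y : NC B K, y = NC.inv t * x := ⟨_, rfl⟩
  have hty : t * y = x := by rw [hydef, ← mul_assoc, NC.mul_inv ht1, one_mul]
  have hy1 : y [] = 1 := by rw [hydef, NC.mul_nil, NC.inv_nil, hx.nil, one_mul]
  have hyη : Free η y := by rw [hydef]; exact (Free.inv htη).mul hxf
  -- small words of `y`
  have hya : ∀ n : ℕ, ∀ w : List B, w.length = n → w ≠ [] → wtW wt w < M → y w = 0 := by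
    intro n
    induction n using Nat.strong_induction_on with
    | _ n ih =>
      intro w hwn hwne hwM
      have h1 : (t * y) w = x w := by rw [hty]
      have hlen : 0 < w.length := List.length_pos_iff.mpr hwne
      rw [NC.mul_apply, Finset.sum_range_succ, List.take_length, List.drop_length, hy1,
        ht w, if_pos hwM, mul_one] at h1
      have h2 : ∑ i ∈ Finset.range w.length, t (w.take i) * y (w.drop i) = 0 := by
        linear_combination h1
      obtain ⟨k, hk⟩ : ∃ k, w.length = k + 1 := ⟨w.length - 1, by omega⟩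
      rw [hk, Finset.sum_range_succ'] at h2
      have h3 : ∑ i ∈ Finset.range k, t (w.take (i + 1)) * y (w.drop (i + 1)) = 0 := by
        apply Finset.sum_eq_zero
        intro i hi
        rw [Finset.mem_range] at hi
        have h4 : y (w.drop (i + 1)) = 0 := by
          apply ih (w.drop (i + 1)).length _ _ rfl
          · intro h
            have := congrArg List.length h
            rw [List.length_drop] at this
            simp at this
            omega
          · refine lt_of_le_of_lt (wtW_le_of_infix wt ?_) hwM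
            exact (List.drop_suffix _ _).isInfix
          · rw [List.length_drop]; omega
        rw [h4, mul_zero]
      rw [h3] at h2
      simpa [ht1] using h2
  have hyb : ∀ w : List B, wtW wt w = M → y w = x w := by
    intro w hwM
    by_cases hηw : η ∈ w
    · rw [hyη w hηw, hxf w hηw]
    · have h1 : (t * y) w = x w := by rw [hty]
      have hwne : w ≠ [] := by
        rintro rfl
        simp at hwM
        omega
      have hlen : 0 < w.length := List.length_pos_iff.mpr hwne
      rw [NC.mul_apply, Finset.sum_range_succ, List.take_length, List.drop_length, hy1,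
        ht w, if_neg (by omega), mul_one, add_zero] at h1
      obtain ⟨k, hk⟩ : ∃ k, w.length = k + 1 := ⟨w.length - 1, by omega⟩
      rw [hk, Finset.sum_range_succ'] at h1
      have h3 : ∑ i ∈ Finset.range k, t (w.take (i + 1)) * y (w.drop (i + 1)) = 0 := by
        apply Finset.sum_eq_zero
        intro i hi
        rw [Finset.mem_range] at hi
        have hne : w.drop (i + 1) ≠ [] := by
          intro h
          have := congrArg List.length h
          rw [List.length_drop] at this
          simp at this
          omega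
        have hne2 : w.take (i + 1) ≠ [] := by
          intro h
          have := congrArg List.length h
          rw [List.length_take] at this
          simp only [List.length_nil] at this
          omega
        have hpos : 0 < wtW wt (w.take (i + 1)) :=
          wtW_pos h0 hne2 (fun h => hηw (List.mem_of_mem_take h))
        have hsum : wtW wt (w.take (i + 1)) + wtW wt (w.drop (i + 1)) = M := by
          rw [← wtW_append, List.take_append_drop, hwM]
        rw [hya _ (w.drop (i + 1)) rfl hne (by omega), mul_zero]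
      rw [h3, zero_add] at h1
      simpa [ht1] using h1
  -- the series `y - 1`
  have hy' : ∀ u : List B, wtW wt u < M → (y - 1) u = 0 := by
    intro u hu
    rw [NC.sub_apply]
    by_cases hne : u = []
    · rw [hne, hy1, NC.one_nil, sub_self]
    · rw [hya _ u rfl hne hu, NC.one_of_ne hne, sub_self]
  have hy'' : ∀ u : List B, u ≠ [] → (y - 1) u = y u := by
    intro u hu
    rw [NC.sub_apply, NC.one_of_ne hu, sub_zero]
  -- expansions
  obtain ⟨V, hV⟩ : ∃ V, V = expand η f x := ⟨_, rfl⟩
  obtain ⟨V', hV'⟩ : ∃ V', V' = expand η f t := ⟨_, rfl⟩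
  rw [← hV] at hmin hW hinv
  have hV'G : ∀ W, V' W ∈ G := by
    intro W
    rw [hV']
    exact expand_mem G η f t hf htG W
  have hVV' : ∀ W : List B, wtW wt W < M → V' W = V W := by
    intro W hW'
    rw [hV, hV']
    symm
    apply expand_congr ((h0 η).2 rfl) f x t (M := M) _ hW'
    intro w hw
    rw [ht, if_pos hw]
  have hfo : ∀ Z : List B, wtW wt Z < 2 * M → V Z = V' Z + firstOrder η (y - 1) V' Z := by
    intro Z hZ
    rw [← subst_eq_firstOrder hM0 hy' V' Z hZ]
    have h1 : V = subst η (y * (1 + letter η) - 1) V' := by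
      rw [hV, hV', ← expand_mul η f t y htη ht1 hy1, hty]
    rw [h1]
    congr 2
    noncomm_ring
  -- the minimal word
  have hZfin : {Z : List B | ∃ P Q : List B, Z = P ++ (ℓ ++ Q) ∧ (P ++ η :: Q).count η = m ∧
      wtW wt (P ++ η :: Q) = d ∧ V (P ++ η :: Q) ≠ 0}.Finite := by
    refine (finite_words h0 hfin m (M + d)).subset ?_
    rintro Z ⟨P, Q, rfl, hc, hw, -⟩
    have hη0 : wt η = 0 := (h0 η).2 rfl
    simp only [List.count_append, List.count_cons_self, wtW_append, wtW_cons, hη0] at hc hw
    have hcℓ : List.count η ℓ = 0 := List.count_eq_zero_of_not_mem hηℓ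
    refine ⟨?_, ?_⟩
    · simp only [List.count_append, hcℓ]
      omega
    · simp only [wtW_append, hℓM]
      omega
  have hZne : {Z : List B | ∃ P Q : List B, Z = P ++ (ℓ ++ Q) ∧ (P ++ η :: Q).count η = m ∧
      wtW wt (P ++ η :: Q) = d ∧ V (P ++ η :: Q) ≠ 0}.Nonempty := by
    obtain ⟨W, hW1, hW2, hW3⟩ := hW
    have hηW : η ∈ W := by
      rw [← List.count_pos_iff]; omega
    obtain ⟨P, Q, rfl⟩ := List.append_of_mem hηW
    exact ⟨P ++ (ℓ ++ Q), P, Q, rfl, hW1, hW2, hW3⟩
  obtain ⟨Z, ⟨P₀, Q₀, hZeq, hZc, hZw, hZV⟩, hZmin⟩ := Set.exists_min_image _ id hZfin hZne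
  simp only [id] at hZmin hℓmin
  have hη0 : wt η = 0 := (h0 η).2 rfl
  have hcℓ : List.count η ℓ = 0 := List.count_eq_zero_of_not_mem hηℓ
  have hZc' : P₀.count η + Q₀.count η + 1 = m := by
    simp only [List.count_append, List.count_cons_self] at hZc
    omega
  have hZw' : wtW wt P₀ + wtW wt Q₀ = d := by
    simp only [wtW_append, wtW_cons, hη0] at hZw
    omega
  have hZcount : Z.count η + 1 = m := by
    rw [hZeq]
    simp only [List.count_append, hcℓ]
    omega
  have hZwt : wtW wt Z = M + d := by
    rw [hZeq]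
    simp only [wtW_append, hℓM]
    omega
  have hZne' : Z ≠ [] := by
    rw [hZeq]
    simp [hℓne]
  have hVZ : V Z = 0 := hmin Z hZne' (Or.inl (by omega))
  have hfoZ := hfo Z (by omega)
  rw [hVZ] at hfoZ
  -- the terms of the first order
  obtain ⟨F, hF⟩ : ∃ F : ℕ → ℕ → K, F = fun i j =>
    (y - 1) ((Z.drop i).take j) * (V' (Z.take i ++ η :: (Z.drop i).drop j) +
      tailTerm η V' (Z.take i) ((Z.drop i).drop j)) := ⟨_, rfl⟩
  have hterm : ∀ i ∈ Finset.range (Z.length + 1), ∀ j ∈ Finset.range (Z.length - i + 1),
      M ≤ wtW wt ((Z.drop i).take j) →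
      tailTerm η V' (Z.take i) ((Z.drop i).drop j) = 0 := by
    intro i _ j _ hMu
    have hdec : Z = Z.take i ++ ((Z.drop i).take j ++ (Z.drop i).drop j) := by
      rw [List.take_append_drop, List.take_append_drop]
    have hw := congrArg (wtW wt) hdec
    have hc := congrArg (List.count η) hdec
    simp only [wtW_append, List.count_append] at hw hc
    generalize (Z.drop i).take j = u at *
    generalize Z.take i = P at *
    generalize (Z.drop i).drop j = Q at *
    cases Q with
    | nil => rfl
    | cons c Q' =>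
      show (if c = η then V' (P ++ η :: Q') else 0) = 0
      split_ifs with hcη
      · subst hcη
        simp only [wtW_cons, hη0, List.count_cons_self] at hw hc
        have hw2 : wtW wt (P ++ c :: Q') < M := by
          simp only [wtW_append, wtW_cons, hη0]
          omega
        rw [hVV' _ hw2]
        apply hmin _ (by simp)
        left
        simp only [List.count_append, List.count_cons_self]
        omega
      · rfl
  have hothers : ∀ i ∈ Finset.range (Z.length + 1), ∀ j ∈ Finset.range (Z.length - i + 1),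
      ¬ (i = P₀.length ∧ j = ℓ.length) → F i j ∈ G := by
    intro i hi j hj hne
    have htail := hterm i hi j hj
    rw [Finset.mem_range] at hi hj
    have hdec : Z = Z.take i ++ ((Z.drop i).take j ++ (Z.drop i).drop j) := by
      rw [List.take_append_drop, List.take_append_drop]
    have hlP : (Z.take i).length = i := by rw [List.length_take]; omega
    have hlu : ((Z.drop i).take j).length = j := by
      rw [List.length_take, List.length_drop]; omega
    have hw := congrArg (wtW wt) hdec
    have hc := congrArg (List.count η) hdec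
    simp only [wtW_append, List.count_append] at hw hc
    rw [hF]
    simp only
    generalize (Z.drop i).take j = u at *
    generalize Z.take i = P at *
    generalize (Z.drop i).drop j = Q at *
    rcases lt_or_ge (wtW wt u) M with huM | huM
    · rw [hy' u huM, zero_mul]; exact G.zero_mem
    · rw [htail huM, add_zero]
      have hune : u ≠ [] := by
        rintro rfl
        simp at huM
        omega
      have hwPQ : wtW wt (P ++ η :: Q) = wtW wt P + wtW wt Q := by
        simp only [wtW_append, wtW_cons, hη0]; omega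
      have hcPQ : List.count η (P ++ η :: Q) = P.count η + Q.count η + 1 := by
        simp only [List.count_append, List.count_cons_self]; omega
      rcases huM.eq_or_lt with huM' | huM'
      · -- weight exactly `M`
        by_cases hηu : η ∈ u
        · rw [hy'' u hune, hyη u hηu, zero_mul]; exact G.zero_mem
        · have hcu : List.count η u = 0 := List.count_eq_zero_of_not_mem hηu
          rw [hy'' u hune, hyb u huM'.symm]
          by_cases hxu : x u ∈ G
          · exact G.mul_mem hxu (hV'G _)
          · by_cases hVP : V' (P ++ η :: Q) = 0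
            · rw [hVP, mul_zero]; exact G.zero_mem
            · exfalso
              have hℓu : ℓ ≤ u := hℓmin u ⟨huM'.symm, hxu⟩
              have hVP' : V (P ++ η :: Q) ≠ 0 := by
                rwa [← hVV' _ (by omega)]
              have hle : Z ≤ P ++ (ℓ ++ Q) :=
                hZmin _ ⟨P, Q, rfl, by omega, by omega, hVP'⟩
              rcases hℓu.eq_or_lt with heq | hlt
              · subst heq
                have hsp := split_unique (wt := wt) hub (P₁ := P) (Q₁ := Q) (P₂ := P₀)
                  (Q₂ := Q₀) (by omega) (by omega) (by rw [← hdec, hZeq])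
                exact hne ⟨by rw [← hlP, hsp.1], hlu.symm⟩
              · have hlt' := append_lt_append_of_wt h0 hηℓ hηu (by rw [hℓM, huM']) hlt P Q Q
                rw [← hdec] at hlt'
                exact absurd hle (not_le.mpr hlt')
      · -- larger weight
        have hV0 : V' (P ++ η :: Q) = 0 := by
          rw [hVV' _ (by omega)]
          apply hmin _ (by simp)
          rcases Nat.lt_or_ge (List.count η (P ++ η :: Q)) m with h | h
          · exact Or.inl h
          · right
            exact ⟨by omega, by omega⟩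
        rw [hV0, mul_zero]; exact G.zero_mem
  have hlenZ : Z.length = P₀.length + (ℓ.length + Q₀.length) := by
    rw [hZeq]; simp
  have hi₀ : P₀.length ∈ Finset.range (Z.length + 1) := by
    rw [Finset.mem_range]; omega
  have hj₀ : ℓ.length ∈ Finset.range (Z.length - P₀.length + 1) := by
    rw [Finset.mem_range]; omega
  have hmem := c1_sum_sub_mem G _ (fun i => Finset.range (Z.length - i + 1)) F _ _ hi₀ hj₀ hothers
  have hfoF : firstOrder η (y - 1) V' Z =
      ∑ i ∈ Finset.range (Z.length + 1), ∑ j ∈ Finset.range (Z.length - i + 1), F i j := by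
    rw [hF]; rfl
  -- the main term
  have hmain : F P₀.length ℓ.length = x ℓ * V (P₀ ++ η :: Q₀) := by
    have h1 : Z.take P₀.length = P₀ := by rw [hZeq]; simp
    have h2 : (Z.drop P₀.length).take ℓ.length = ℓ := by rw [hZeq]; simp
    have h3 : (Z.drop P₀.length).drop ℓ.length = Q₀ := by rw [hZeq]; simp
    have h4 := hterm _ hi₀ _ hj₀ (by rw [h2, hℓM])
    rw [hF]
    simp only
    rw [h4, h2, h1, h3, add_zero, hy'' ℓ hℓne, hyb ℓ hℓM, hVV' _ (by rw [hZw]; exact hdM)]
  have hfinal : x ℓ * V (P₀ ++ η :: Q₀) ∈ G := by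
    rw [← hmain]
    rw [hfoF] at hfoZ
    have h5 : F P₀.length ℓ.length = -(V' Z) -
        ((∑ i ∈ Finset.range (Z.length + 1), ∑ j ∈ Finset.range (Z.length - i + 1), F i j) -
          F P₀.length ℓ.length) := by
      linear_combination -hfoZ
    rw [h5]
    exact G.sub_mem (G.neg_mem (hV'G Z)) hmem
  apply hℓx
  have h6 : x ℓ = x ℓ * V (P₀ ++ η :: Q₀) * (V (P₀ ++ η :: Q₀))⁻¹ := by
    rw [mul_assoc, mul_inv_cancel₀ hZV, mul_one]
  rw [h6]
  exact G.mul_mem hfinal (hinv _ hZc hZw)

end Pool.Agent.MP_23c465_al
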