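import Pool.Agent.Lib.MP_23c465_al.LeadMono

/-!
# The leading coefficient of a substitution `η ↦ y`
-/

set_option autoImplicit false

namespace Pool.Agent.MP_23c465_al

open Finset

namespace NC

variable {B R : Type} [LinearOrder B] [CommRing R]

/-- The leading coefficient.  `W₀` is a word of type `(m, d)` in the support of `f` with
`fill η ℓ W₀` minimal; all other words of type `(m, d)` in the support of `f` have a strictly larger
`fill`; words of smaller type do not occur (except possibly the empty word), and `d < M`. -/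
theorem subst_lead {wt : B → ℕ} {η : B} (h0 : ∀ b, wt b = 0 ↔ b = η)
    (hfin : ∀ n, {b : B | wt b ≤ n}.Finite) {M : ℕ} {y : NC B R} (hyf : Free η y) {ℓ : List B}
    (hℓ : wtW wt ℓ = M) (hηℓ : η ∉ ℓ)
    (hy : ∀ u : List B, wtW wt u < M → y u = 0)
    (hyl : ∀ u : List B, wtW wt u = M → u < ℓ → y u = 0)
    {f : NC B R} {m d : ℕ} (hm : 1 ≤ m) (hd : d < M)
    (hf : ∀ W : List B, W ≠ [] → (W.count η < m ∨ (W.count η = m ∧ wtW wt W < d)) → f W = 0)
    {W₀ : List B} (hW₀ : W₀.count η = m) (hW₀d : wtW wt W₀ = d)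
    (hmin : ∀ W : List B, W.count η = m → wtW wt W = d → f W ≠ 0 → W ≠ W₀ →
      fill η ℓ W₀ < fill η ℓ W) :
    subst η y f (fill η ℓ W₀) = f W₀ * y ℓ ^ m := by
  classical
  have hM : 0 < M := by omega
  have hη0 : wt η = 0 := (h0 η).2 rfl
  have hZwt : wtW wt (fill η ℓ W₀) = m * M + d := by
    rw [wtW_fill hη0, hW₀, hℓ, hW₀d]
  have hZne : fill η ℓ W₀ ≠ [] := by
    intro h
    rw [h, wtW_nil] at hZwt
    have : 0 < m * M := Nat.mul_pos (by omega) hM
    omega
  have hSfin : {W : List B | W.count η = m ∧ wtW wt W = d}.Finite :=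
    (finite_words h0 hfin m d).subset fun W hW => ⟨hW.1.le, hW.2.le⟩
  set S : Finset (List B) := hSfin.toFinset with hS
  have hmemS : ∀ W : List B, W ∈ S ↔ W.count η = m ∧ wtW wt W = d := by
    intro W; rw [hS, Set.Finite.mem_toFinset]; rfl
  have hnilS : ([] : List B) ∉ S := by
    rw [hmemS]; intro h; simp at h; omega
  set g : NC B R := f [] • (1 : NC B R) + ∑ W ∈ S, f W • (mono W : NC B R) with hg
  have hgW : ∀ V : List B, g V = f [] * (1 : NC B R) V + (if V ∈ S then f V else 0) := by
    intro V
    rw [hg, add_apply, sum_apply, smul_apply]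
    congr 1
    simp only [smul_apply, mono_apply, mul_ite, mul_one, mul_zero]
    rw [Finset.sum_ite_eq]
  have hr : ∀ W : List B, M * W.count η + wtW wt W ≤ m * M + d → (f - g) W = 0 := by
    intro W hW
    rw [sub_apply, hgW]
    rcases eq_or_ne W [] with rfl | hWne
    · rw [if_neg hnilS]; simp
    · rw [one_of_ne hWne]
      by_cases hWS : W ∈ S
      · rw [if_pos hWS]; ring
      · rw [if_neg hWS, mul_zero, add_zero, sub_zero]
        apply hf W hWne
        have hc : W.count η ≤ m := by
          by_contra hcon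
          have h1 : m + 1 ≤ W.count η := by omega
          have h2 : M * (m + 1) ≤ M * W.count η := Nat.mul_le_mul_left _ h1
          have h3 : M * (m + 1) = m * M + M := by ring
          omega
        rcases hc.lt_or_eq with hlt | heq
        · exact Or.inl hlt
        · right
          refine ⟨heq, ?_⟩
          rw [heq, Nat.mul_comm] at hW
          have h1 : wtW wt W ≤ d := by omega
          rcases h1.lt_or_eq with h2 | h2
          · exact h2
          · exact absurd ((hmemS W).2 ⟨heq, h2⟩) hWS
  have hrZ : subst η y (f - g) (fill η ℓ W₀) = 0 :=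
    subst_eq_zero_of_total hη0 hy hr _ hZwt.le
  have hfg : subst η y f (fill η ℓ W₀) = subst η y g (fill η ℓ W₀) := by
    rw [subst_sub, sub_apply] at hrZ
    exact sub_eq_zero.1 hrZ
  have hsg : subst η y g = f [] • (1 : NC B R) + ∑ W ∈ S, f W • subst η y (mono W) := by
    rw [hg, subst_add, subst_smul, subst_one]
    congr 1
    rw [← substHom_apply, map_sum]
    refine Finset.sum_congr rfl fun W _ => ?_
    rw [substHom_apply, subst_smul]
  rw [hfg, hsg, add_apply, sum_apply, smul_apply, one_of_ne hZne, mul_zero, zero_add]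
  have hW₀S : W₀ ∈ S := (hmemS W₀).2 ⟨hW₀, hW₀d⟩
  rw [Finset.sum_eq_single_of_mem W₀ hW₀S]
  · rw [smul_apply, subst_mono_fill h0 hM hyf hℓ hηℓ hy hyl W₀, hW₀]
  · intro W hWS hne
    rw [smul_apply]
    by_cases hfW : f W = 0
    · rw [hfW, zero_mul]
    · obtain ⟨hc, hwd⟩ := (hmemS W).1 hWS
      have hlt := hmin W hc hwd hfW hne
      have hz : subst η y (mono W) (fill η ℓ W₀) = 0 := by
        by_contra hcon
        have hle := subst_mono_ne_zero h0 hM hyf hℓ hηℓ hy hyl W (fill η ℓ W₀)
          (by rw [hZwt, hc, hwd, Nat.mul_comm]) hcon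
        exact absurd hlt (not_lt.2 hle)
      rw [hz, mul_zero]

end NC

end Pool.Agent.MP_23c465_al
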