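import Pool.Agent.Lib.MP_23c465_al.Expand
import Pool.Agent.Lib.MP_23c465_al.InfilShuf
import Pool.Agent.Lib.MP_23c465_al.Lyndon
import Pool.Agent.Lib.MP_23c465_al.LeadTerm

/-!
# Key step C2: solutions close to a nondegenerate point coincide with it
-/

set_option autoImplicit false

namespace Pool.Agent.MP_23c465_al

open NC

variable {B : Type} [LinearOrder B]

/-- A group-like series free of `η` different from `1` has a leading word: smallest weight `M`,
lexicographically smallest among those; it is unbordered. -/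
private theorem exists_leading {K : Type} [Field K] [CharZero K] {wt : B → ℕ} {η : B}
    (h0 : ∀ b, wt b = 0 ↔ b = η) (hfin : ∀ n, {b : B | wt b ≤ n}.Finite)
    (y : NC B K) (hy : IsGL y) (hyf : Free η y) (hne : y ≠ 1) :
    ∃ ℓ : List B, ℓ ≠ [] ∧ η ∉ ℓ ∧ y ℓ ≠ 0 ∧ Unbordered ℓ ∧
      (∀ u : List B, u ≠ [] → wtW wt u < wtW wt ℓ → y u = 0) ∧
      (∀ u : List B, wtW wt u = wtW wt ℓ → u < ℓ → y u = 0) := by
  classical
  have h1 : ∃ M : ℕ, ∃ w : List B, w ≠ [] ∧ y w ≠ 0 ∧ wtW wt w = M := by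
    by_contra hcon
    push Not at hcon
    apply hne
    ext w
    rcases eq_or_ne w [] with rfl | hw
    · rw [hy.nil, one_nil]
    · rw [one_of_ne hw]
      by_contra hyw
      exact hcon _ w hw hyw rfl
  obtain ⟨w₁, hw₁, hyw₁, hM₁⟩ := Nat.find_spec h1
  set M := Nat.find h1 with hM
  have hlow : ∀ u : List B, u ≠ [] → wtW wt u < M → y u = 0 := by
    intro u hu hlt
    by_contra hyu
    exact Nat.find_min h1 hlt ⟨u, hu, hyu, rfl⟩
  -- the finite set of candidates
  have hfinS : {w : List B | w ≠ [] ∧ y w ≠ 0 ∧ wtW wt w = M}.Finite := by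
    refine (finite_words h0 hfin 0 M).subset ?_
    rintro w ⟨hw, hyw, hwM⟩
    refine ⟨?_, hwM.le⟩
    have : η ∉ w := fun hη => hyw (hyf w hη)
    rw [List.count_eq_zero_of_not_mem this]
  have hne' : hfinS.toFinset.Nonempty := ⟨w₁, by simp [hw₁, hyw₁, hM₁]⟩
  obtain ⟨ℓ, hℓmem, hℓmin⟩ := hfinS.toFinset.exists_min_image id hne'
  simp only [Set.Finite.mem_toFinset, Set.mem_ofPred_eq, id] at hℓmem hℓmin
  obtain ⟨hℓne, hyℓ, hℓM⟩ := hℓmem
  have hηℓ : η ∉ ℓ := fun hη => hyℓ (hyf ℓ hη)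
  have hℓpos : 0 < wtW wt ℓ := wtW_pos h0 hℓne hηℓ
  have hlex : ∀ u : List B, wtW wt u = wtW wt ℓ → u < ℓ → y u = 0 := by
    intro u hu hlt
    by_contra hyu
    have hune : u ≠ [] := by
      rintro rfl
      simp only [wtW_nil] at hu
      omega
    exact absurd hlt (not_lt.2 (hℓmin u ⟨hune, hyu, by rw [hu, hℓM]⟩))
  refine ⟨ℓ, hℓne, hηℓ, hyℓ, ?_, ?_, hlex⟩
  · refine unbordered_of_min (⊥ : AddSubgroup K) ?_ y.coeff ℓ ?_ ?_ ?_
    · intro n e hn he
      rw [AddSubgroup.mem_bot, nsmul_eq_mul, mul_eq_zero] at he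
      rw [AddSubgroup.mem_bot]
      rcases he with he | he
      · exact absurd (by exact_mod_cast he) hn
      · exact he
    · rw [AddSubgroup.mem_bot]; exact hyℓ
    · intro z hz hlt
      rw [AddSubgroup.mem_bot]
      exact hlex z (wtW_perm wt hz) hlt
    · intro u v hu hv huv
      have hηu : η ∉ u := fun h => hηℓ (by rw [← huv]; exact List.mem_append_left _ h)
      have hηv : η ∉ v := fun h => hηℓ (by rw [← huv]; exact List.mem_append_right _ h)
      refine shuf_sum_mem (⊥ : AddSubgroup K) hy (wt := wt) hu hv ?_ ?_ ?_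
      · intro b hb
        rw [huv] at hb
        rcases Nat.eq_zero_or_pos (wt b) with hb0 | hb0
        · rw [(h0 b).1 hb0] at hb
          exact absurd hb hηℓ
        · exact hb0
      · intro w hw hlt
        rw [AddSubgroup.mem_bot]
        rw [huv, hℓM] at hlt
        exact hlow w hw hlt
      · rw [AddSubgroup.mem_bot]
        have hvpos := wtW_pos h0 hv hηv
        have hsum : wtW wt u + wtW wt v = M := by rw [← wtW_append, huv, hℓM]
        rw [hlow u hu (by omega), zero_mul]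
  · intro u hu hlt
    exact hlow u hu (by rw [← hℓM]; exact hlt)

/-- **Key step C2** (see the dnote for the proof on paper).

Proof.  `y = t⁻¹ x` is group-like, free of `η`, and `y w = 0` for `0 < wt w ≤ d`.  If `y ≠ 1` let
`M > d` be the smallest weight of a nonempty word with `y w ≠ 0`, and `ℓ` the lexicographically
smallest such word of weight `M`; `ℓ` is unbordered (`unbordered_of_min` with `N = ⊥`,
`shuf_sum_mem`).  By `eval_mul`, `1 = subst η (x - 1) f = subst η (y - 1) (expand η f t)`.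
Choose `W₀` of type `(m, d)` with `expand η f t W₀ ≠ 0` and `fill η ℓ W₀` minimal; by
`fill_injective` it is the unique minimum, so by `subst_lead` the coefficient at the nonempty word
`fill η ℓ W₀` is `expand η f t W₀ * y ℓ ^ m ≠ 0`, contradiction. -/
theorem keyC2 {K : Type} [Field K] [CharZero K] {wt : B → ℕ} {η : B}
    (h0 : ∀ b, wt b = 0 ↔ b = η) (hfin : ∀ n, {b : B | wt b ≤ n}.Finite)
    (f t x : NC B K) (ht : IsGL t) (htf : Free η t) (hx : IsGL x) (hxf : Free η x)
    (m d : ℕ) (hm : 1 ≤ m) (hlow : ∀ w : List B, wtW wt w ≤ d → t w = x w)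
    (hE : subst η (x - 1) f = 1)
    (hmin : ∀ W : List B, W ≠ [] → (W.count η < m ∨ (W.count η = m ∧ wtW wt W < d)) →
      expand η f t W = 0)
    (hW : ∃ W : List B, W.count η = m ∧ wtW wt W = d ∧ expand η f t W ≠ 0) :
    t = x := by
  classical
  set y : NC B K := NC.inv t * x with hydef
  have hyGL : IsGL y := ht.inv_mem.mul_mem hx
  have hyF : Free η y := htf.inv.mul hxf
  have hty : t * y = x := by
    rw [hydef, ← mul_assoc, NC.mul_inv ht.nil, one_mul]
  -- low coefficients of `y`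
  have hylow : ∀ w : List B, w ≠ [] → wtW wt w ≤ d → y w = 0 := by
    intro w hw hwd
    have h1 : y w = (NC.inv t * t) w := by
      rw [hydef]
      refine mul_congr_at (fun _ _ => rfl) (fun i _ => ?_)
      refine (hlow _ ((wtW_le_of_infix wt (List.drop_suffix i w).isInfix).trans hwd)).symm
    rw [h1, NC.inv_mul ht.nil, one_of_ne hw]
  by_contra hne
  have hy1 : y ≠ 1 := by
    intro h
    rw [h, mul_one] at hty
    exact hne hty
  obtain ⟨ℓ, hℓne, hηℓ, hyℓ, hℓu, hℓlow, hℓlex⟩ := exists_leading h0 hfin y hyGL hyF hy1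
  have hdM : d < wtW wt ℓ := by
    by_contra h
    exact hyℓ (hylow ℓ hℓne (not_lt.1 h))
  have hval : subst η (y - 1) (expand η f t) = 1 := by
    rw [← eval_mul η f t y htf hyF ht.nil hyGL.nil, hty, hE]
  -- minimal word
  have hfinS : {W : List B | W.count η = m ∧ wtW wt W = d ∧ expand η f t W ≠ 0}.Finite := by
    refine (finite_words h0 hfin m d).subset ?_
    rintro W ⟨h1, h2, _⟩
    exact ⟨h1.le, h2.le⟩
  obtain ⟨W₁, hW₁, hW₁d, hW₁V⟩ := hW
  have hne' : hfinS.toFinset.Nonempty := ⟨W₁, by simp [hW₁, hW₁d, hW₁V]⟩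
  obtain ⟨W₀, hW₀mem, hW₀min⟩ := hfinS.toFinset.exists_min_image (fill η ℓ) hne'
  simp only [Set.Finite.mem_toFinset, Set.mem_ofPred_eq] at hW₀mem hW₀min
  obtain ⟨hW₀, hW₀d, hW₀V⟩ := hW₀mem
  have hlead := subst_lead h0 hfin (M := wtW wt ℓ) (y := y - 1) (hyF.sub (Free.one η)) (ℓ := ℓ) rfl
    hηℓ (by
      intro u hu
      rcases eq_or_ne u [] with rfl | hune
      · rw [NC.sub_apply, hyGL.nil, one_nil, sub_self]
      · rw [NC.sub_apply, one_of_ne hune, hℓlow u hune hu, sub_zero])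
    (by
      intro u hu hlt
      have hune : u ≠ [] := by
        rintro rfl
        simp only [wtW_nil] at hu
        omega
      rw [NC.sub_apply, one_of_ne hune, hℓlex u hu hlt, sub_zero])
    (f := expand η f t) hm hdM hmin hW₀ hW₀d (by
      intro W hW1 hW2 hW3 hWne
      refine lt_of_le_of_ne (hW₀min W ⟨hW1, hW2, hW3⟩) ?_
      intro heq
      exact hWne (fill_injective h0 hℓu hηℓ hℓne (by rw [hW2]; exact hdM)
        (by rw [hW₀d]; exact hdM) heq.symm))
  rw [hval] at hlead
  have hfne : fill η ℓ W₀ ≠ [] := by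
    intro h
    have := wtW_fill ((h0 η).2 rfl) ℓ W₀
    rw [h, wtW_nil, hW₀] at this
    have hpos : 0 < m * wtW wt ℓ := Nat.mul_pos hm (wtW_pos h0 hℓne hηℓ)
    omega
  rw [one_of_ne hfne, NC.sub_apply, one_of_ne hℓne, sub_zero] at hlead
  exact (mul_ne_zero hW₀V (pow_ne_zero m hyℓ)) hlead.symm

end Pool.Agent.MP_23c465_al
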