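import Pool.Agent.Lib.MP_23c465_al.LeadTotal
import Pool.Agent.Lib.MP_23c465_al.SubstFree
import Pool.Agent.Lib.MP_23c465_al.Fill

/-!
# Substitution in a single word: the smallest word
-/

set_option autoImplicit false

namespace Pool.Agent.MP_23c465_al

open Finset

namespace NC

variable {B R : Type} [LinearOrder B] [CommRing R]

private theorem lm_append_le (u : List B) {v w : List B} (h : v ≤ w) : u ++ v ≤ u ++ w := by
  rcases h.lt_or_eq with h1 | h1
  · exact (List.append_left_lt h1).le
  · rw [h1]

private theorem lm_letter_mul (b c : B) (S : NC B R) (Z : List B) :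
    (letter b * S : NC B R) (c :: Z) = if c = b then S Z else 0 := by
  rw [mul_cons, letter_nil, zero_mul, zero_add, D_letter]
  split_ifs <;> simp

private theorem lm_low {wt : B → ℕ} {η : B} (h0 : wt η = 0) {M : ℕ} {y : NC B R}
    (hy : ∀ u : List B, wtW wt u < M → y u = 0) {W Z : List B}
    (hne : subst η y (mono W) Z ≠ 0) : M * W.count η + wtW wt W ≤ wtW wt Z := by
  by_contra hcon
  rw [not_le] at hcon
  apply hne
  refine subst_eq_zero_of_total h0 hy (n := wtW wt Z) (fun V hV => ?_) Z le_rfl
  rw [mono_apply, if_neg]
  rintro rfl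
  omega

/-- the splitting of a word in the support of `y * S'` -/
private theorem lm_split {wt : B → ℕ} {η : B} (h0 : wt η = 0) {M : ℕ} {y : NC B R}
    (hy : ∀ u : List B, wtW wt u < M → y u = 0) {W u Z : List B}
    (hZ : wtW wt (u ++ Z) = M + (M * W.count η + wtW wt W)) (hu : y u ≠ 0)
    (hne : subst η y (mono W) Z ≠ 0) : wtW wt u = M ∧ wtW wt Z = M * W.count η + wtW wt W := by
  have h1 := lm_low h0 hy hne
  have h2 : M ≤ wtW wt u := by
    by_contra hcon
    exact hu (hy u (not_le.1 hcon))
  rw [wtW_append] at hZ
  omega

private theorem lm_total_eta (M : ℕ) (wt : B → ℕ) {η : B} (h0 : wt η = 0) (W : List B) :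
    M * (η :: W).count η + wtW wt (η :: W) = M + (M * W.count η + wtW wt W) := by
  rw [List.count_cons_self, wtW_cons, h0]
  ring

/-- Substituting in a single word: the lexicographically smallest word of the smallest weight is
`fill η ℓ W`. -/
theorem subst_mono_ne_zero {wt : B → ℕ} {η : B} (h0 : ∀ b, wt b = 0 ↔ b = η) {M : ℕ}
    (hM : 0 < M) {y : NC B R} (hyf : Free η y) {ℓ : List B} (hℓ : wtW wt ℓ = M) (hηℓ : η ∉ ℓ)
    (hy : ∀ u : List B, wtW wt u < M → y u = 0)
    (hyl : ∀ u : List B, wtW wt u = M → u < ℓ → y u = 0) (W Z : List B)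
    (hZ : wtW wt Z = M * W.count η + wtW wt W) (hne : subst η y (mono W) Z ≠ 0) :
    fill η ℓ W ≤ Z := by
  have hη0 : wt η = 0 := (h0 η).2 rfl
  have hy0 : y [] = 0 := hy [] (by simpa using hM)
  induction W generalizing Z with
  | nil =>
    rw [mono_nil, subst_one] at hne
    have hZ' : Z = [] := by
      by_contra hcon
      exact hne (one_of_ne hcon)
    rw [hZ', fill_nil]
  | cons b W ih =>
    rw [mono_cons, subst_mul] at hne
    rw [fill_cons]
    by_cases hb : b = η
    · rw [if_pos hb]
      rw [hb] at hne hZ
      rw [subst_letter η y hy0, mul_apply] at hne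
      obtain ⟨i, -, hi⟩ := Finset.exists_ne_zero_of_sum_ne_zero hne
      have hi1 : y (Z.take i) ≠ 0 := left_ne_zero_of_mul hi
      have hi2 : subst η y (mono W) (Z.drop i) ≠ 0 := right_ne_zero_of_mul hi
      have hZ' : wtW wt (Z.take i ++ Z.drop i) = M + (M * W.count η + wtW wt W) := by
        rw [List.take_append_drop, hZ, lm_total_eta M wt hη0]
      obtain ⟨k1, k2⟩ := lm_split hη0 hy hZ' hi1 hi2
      have h1 := ih (Z.drop i) k2 hi2
      have h2 : ¬ Z.take i < ℓ := fun h => hi1 (hyl _ k1 h)
      have h3 : η ∉ Z.take i := fun h => hi1 (hyf _ h)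
      rw [not_lt] at h2
      have h4 : ℓ ++ fill η ℓ W ≤ Z.take i ++ Z.drop i := by
        rcases h2.lt_or_eq with h5 | h5
        · exact (append_lt_append_of_wt h0 hηℓ h3 (hℓ.trans k1.symm) h5 [] _ _).le
        · rw [← h5]
          exact lm_append_le _ h1
      rwa [List.take_append_drop] at h4
    · rw [if_neg hb]
      rw [subst_letter_of_ne hb] at hne
      cases Z with
      | nil => simp at hne
      | cons c Z =>
        rw [lm_letter_mul] at hne
        by_cases hc : c = b
        · rw [if_pos hc] at hne
          rw [hc] at hZ ⊢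
          rw [wtW_cons, wtW_cons, List.count_cons_of_ne hb] at hZ
          exact List.cons_le_cons b (ih Z (by omega) hne)
        · rw [if_neg hc] at hne
          exact absurd rfl hne

theorem subst_mono_fill {wt : B → ℕ} {η : B} (h0 : ∀ b, wt b = 0 ↔ b = η) {M : ℕ}
    (hM : 0 < M) {y : NC B R} (hyf : Free η y) {ℓ : List B} (hℓ : wtW wt ℓ = M) (hηℓ : η ∉ ℓ)
    (hy : ∀ u : List B, wtW wt u < M → y u = 0)
    (hyl : ∀ u : List B, wtW wt u = M → u < ℓ → y u = 0) (W : List B) :
    subst η y (mono W) (fill η ℓ W) = y ℓ ^ W.count η := by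
  have hη0 : wt η = 0 := (h0 η).2 rfl
  have hy0 : y [] = 0 := hy [] (by simpa using hM)
  induction W with
  | nil =>
    rw [mono_nil, subst_one, fill_nil, one_nil, List.count_nil, pow_zero]
  | cons b W ih =>
    rw [mono_cons, subst_mul, fill_cons]
    by_cases hb : b = η
    · rw [if_pos hb, hb, subst_letter η y hy0, List.count_cons_self, pow_succ', mul_apply]
      rw [Finset.sum_eq_single ℓ.length]
      · rw [List.take_left, List.drop_left, ih]
      · intro i hi' hi
        by_contra hcon
        have hi1 : y ((ℓ ++ fill η ℓ W).take i) ≠ 0 := left_ne_zero_of_mul hcon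
        have hi2 : subst η y (mono W) ((ℓ ++ fill η ℓ W).drop i) ≠ 0 := right_ne_zero_of_mul hcon
        have hZ' : wtW wt ((ℓ ++ fill η ℓ W).take i ++ (ℓ ++ fill η ℓ W).drop i) =
            M + (M * W.count η + wtW wt W) := by
          rw [List.take_append_drop, wtW_append, wtW_fill hη0, hℓ]
          ring
        obtain ⟨k1, -⟩ := lm_split hη0 hy hZ' hi1 hi2
        have h3 : η ∉ (ℓ ++ fill η ℓ W).take i := fun h => hi1 (hyf _ h)
        rcases lt_or_gt_of_ne hi with h4 | h4
        · -- a proper prefix of `ℓ`
          rw [List.take_append_of_le_length h4.le] at k1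
          have h5 := List.take_append_drop i ℓ
          have h6 : wtW wt (ℓ.drop i) = 0 := by
            have h7 : wtW wt (ℓ.take i ++ ℓ.drop i) = wtW wt ℓ := by rw [h5]
            rw [wtW_append, k1, hℓ] at h7
            omega
          have h8 : ℓ.drop i ≠ [] := by
            intro h
            rw [List.drop_eq_nil_iff] at h
            omega
          have h9 := wtW_pos h0 h8 (fun h => hηℓ (List.mem_of_mem_drop h))
          omega
        · -- `ℓ` is a proper prefix
          have e : (ℓ ++ fill η ℓ W).take i = ℓ ++ (fill η ℓ W).take (i - ℓ.length) := by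
            rw [List.take_append, List.take_of_length_le h4.le]
          rw [e] at k1 h3
          rw [wtW_append, hℓ] at k1
          by_cases h8 : (fill η ℓ W).take (i - ℓ.length) = []
          · -- then `fill η ℓ W = []`
            rw [List.take_eq_nil_iff] at h8
            rw [Finset.mem_range, List.length_append] at hi'
            rcases h8 with h8 | h8
            · omega
            · rw [h8, List.length_nil] at hi'
              omega
          · have h9 := wtW_pos h0 h8 (fun h => h3 (List.mem_append_right _ h))
            omega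
      · intro h
        exfalso
        apply h
        rw [Finset.mem_range, List.length_append]
        omega
    · rw [if_neg hb, subst_letter_of_ne hb, List.count_cons_of_ne hb]
      show (letter b * subst η y (mono W) : NC B R) (b :: fill η ℓ W) = _
      rw [lm_letter_mul, if_pos rfl, ih]

end NC

end Pool.Agent.MP_23c465_al
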