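import Pool.Agent.Lib.MP_23c465_al.SubstBasic
import Pool.Agent.Lib.MP_23c465_al.Weights

/-!
# Single words, and substitutions in series without short words
-/

set_option autoImplicit false

namespace Pool.Agent.MP_23c465_al

open Finset

namespace NC

variable {B R : Type} [DecidableEq B] [CommRing R]

/-- The series consisting of the single word `W`. -/
def mono (W : List B) : NC B R := ⟨fun w => if w = W then 1 else 0⟩

@[simp] theorem mono_apply (W w : List B) : (mono W : NC B R) w = if w = W then 1 else 0 := rfl

theorem mono_nil : (mono [] : NC B R) = 1 := by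
  ext w
  cases w with
  | nil => simp
  | cons b w => simp

theorem mono_cons (b : B) (W : List B) : (mono (b :: W) : NC B R) = letter b * mono W := by
  ext w
  cases w with
  | nil => simp
  | cons c w =>
      rw [mul_cons, D_letter, letter_nil, zero_mul, zero_add, mono_apply]
      by_cases h : c = b
      · rw [if_pos h, one_mul, mono_apply, h]
        simp
      · rw [if_neg h, zero_mul, zero_apply, if_neg]
        intro h2
        exact h (List.cons.inj h2).1

private theorem leadTotal_aux {wt : B → ℕ} {η : B} (h0 : wt η = 0) {M : ℕ} {y : NC B R}
    (hy : ∀ u : List B, wtW wt u < M → y u = 0) (k : ℕ) : ∀ (Z : List B), Z.length ≤ k →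
    ∀ (f : NC B R) (n : ℕ), (∀ W : List B, M * W.count η + wtW wt W ≤ n → f W = 0) →
      wtW wt Z ≤ n → subst η y f Z = 0 := by
  induction k with
  | zero =>
    intro Z hk f n hf _
    have hZ : Z = [] := List.length_eq_zero_iff.1 (Nat.le_zero.1 hk)
    rw [hZ, subst_nil]
    exact hf [] (by simp)
  | succ k ih =>
    intro Z hk f n hf hZn
    cases Z with
    | nil =>
      rw [subst_nil]
      exact hf [] (by simp)
    | cons b w =>
      have hwk : w.length ≤ k := by
        rw [List.length_cons] at hk
        omega
      rw [wtW_cons] at hZn
      rw [subst_cons, mul_apply, Finset.sum_eq_zero, add_zero]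
      · by_cases hb : b = η
        · rw [if_pos hb]
        · rw [if_neg hb]
          refine ih w hwk (D b f) (n - wt b) (fun W hW => ?_) (by omega)
          rw [D_apply]
          refine hf (b :: W) ?_
          rw [List.count_cons_of_ne hb, wtW_cons]
          omega
      · intro i _
        by_cases hi : wtW wt (b :: w.take i) < M
        · rw [D_apply, hy _ hi, zero_mul]
        · have e : wtW wt w = wtW wt (w.take i) + wtW wt (w.drop i) := by
            rw [← wtW_append, List.take_append_drop]
          rw [wtW_cons] at hi
          have h1 : subst η y (D η f) (w.drop i) = 0 := by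
            refine ih (w.drop i) (by rw [List.length_drop]; omega) (D η f) (n - M)
              (fun W hW => ?_) (by omega)
            rw [D_apply]
            refine hf (η :: W) ?_
            rw [List.count_cons_self, wtW_cons, h0, Nat.mul_add]
            omega
          rw [h1, mul_zero]

/-- If `y` has only words of weight `≥ M` and `f` has no words `W` of total weight
`M * count η W + wt W ≤ n`, then `subst η y f` has no words of weight `≤ n`. -/
theorem subst_eq_zero_of_total {wt : B → ℕ} {η : B} (h0 : wt η = 0) {M : ℕ} {y : NC B R}
    (hy : ∀ u : List B, wtW wt u < M → y u = 0) {f : NC B R} {n : ℕ}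
    (hf : ∀ W : List B, M * W.count η + wtW wt W ≤ n → f W = 0) (Z : List B)
    (hZ : wtW wt Z ≤ n) : subst η y f Z = 0 :=
  leadTotal_aux h0 hy Z.length Z le_rfl f n hf hZ

end NC

end Pool.Agent.MP_23c465_al
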