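import Pool.Agent.Lib.MP_23c465_al.FreeProP
import Pool.Agent.Lib.MP_23c465_al.Gam

/-!
# Finite levels of the Magnus homomorphism
-/

set_option autoImplicit false

namespace Pool.Agent.MP_23c465_al

open Finset NC

variable {p : ℕ} [Fact p.Prime] {X F : Type} [Group F] [TopologicalSpace F]
  [IsTopologicalGroup F] [CompactSpace F] [T2Space F] [TotallyDisconnectedSpace F] {ι : X → F}

private theorem genSeries_nil' {R : Type} [CommRing R] (o : Option ℕ) :
    genSeries R o [] = 1 := by
  cases o with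
  | none => simp [genSeries]
  | some b => simp [genSeries]

private theorem genSeries_eq_one {R : Type} [CommRing R] {o : Option ℕ} {N : ℕ}
    (ho : ∀ b, o = some b → N ≤ b) {w : List ℕ} (hw : size w ≤ N) :
    genSeries R o w = (1 : NC ℕ R) w := by
  cases o with
  | none => simp [genSeries]
  | some b =>
    have hb := ho b rfl
    simp only [genSeries, NC.add_apply, NC.letter_apply]
    rw [if_neg, add_zero]
    rintro rfl
    simp only [size, List.sum_cons, List.sum_nil, List.length_cons, List.length_nil] at hw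
    omega

omit [Fact p.Prime] [IsTopologicalGroup F] [CompactSpace F] [T2Space F]
  [TotallyDisconnectedSpace F] in
private theorem finite_bad (enc : X → Option ℕ)
    (henc : ∀ x y b, enc x = some b → enc y = some b → x = y) (N : ℕ) :
    {x : X | ¬ ∀ b, enc x = some b → N ≤ b}.Finite := by
  have h1 : (⋃ b ∈ Finset.range N, {x : X | enc x = some b}).Finite := by
    refine Set.Finite.biUnion (Finset.finite_toSet _) fun b _ => ?_
    exact Set.Subsingleton.finite fun x hx y hy => henc x y b hx hy
  refine h1.subset fun x hx => ?_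
  simp only [Set.mem_setOf_eq, not_forall, not_le] at hx
  obtain ⟨b, hb, hbN⟩ := hx
  simp only [Set.mem_iUnion, Set.mem_setOf_eq, Finset.mem_range]
  exact ⟨b, hbN, hb⟩

/-- Level `N` of the Magnus homomorphism. -/
theorem exists_level (hF : FreeProP p X F ι) (enc : X → Option ℕ)
    (henc : ∀ x y b, enc x = some b → enc y = some b → x = y) (N : ℕ) :
    ∃ φ : F →* (Gam (ZMod (p ^ N)) ⧸ Gam.low (ZMod (p ^ N)) N), IsOpen (φ.ker : Set F) ∧
      ∀ x, ∀ h, φ (ι x) = QuotientGroup.mk ⟨genSeries (ZMod (p ^ N)) (enc x), h⟩ := by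
  have hfin := Gam.finite_quot p N
  obtain ⟨φ, ⟨h1, h2⟩, -⟩ := hF.univ (Gam (ZMod (p ^ N)) ⧸ Gam.low (ZMod (p ^ N)) N)
    (Gam.card_quot p N)
    (fun x => QuotientGroup.mk (⟨genSeries (ZMod (p ^ N)) (enc x), genSeries_nil' _⟩ : Gam _)) (by
      refine (finite_bad enc henc N).subset fun x hx hx' => hx ?_
      show (QuotientGroup.mk (⟨genSeries (ZMod (p ^ N)) (enc x), genSeries_nil' _⟩ :
        Gam (ZMod (p ^ N))) : Gam (ZMod (p ^ N)) ⧸ Gam.low (ZMod (p ^ N)) N) =
          QuotientGroup.mk (1 : Gam (ZMod (p ^ N)))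
      rw [Gam.mk_eq_mk_iff]
      intro w hw
      exact genSeries_eq_one hx' hw)
  exact ⟨φ, h1, fun x _ => h2 x⟩

end Pool.Agent.MP_23c465_al
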