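import Mathlib

/-!
# Specialising a finitely generated subring of an ultrapower
-/

set_option autoImplicit false

namespace Pool.Agent.MP_23c465_al

open Filter

/-- The constant embedding of `k` in the ultrapower. -/
noncomputable def constHom (k : Type) [Field k] (ω : Ultrafilter ℕ) :
    k →+* Germ (ω : Filter ℕ) k :=
  (Germ.coeRingHom (ω : Filter ℕ)).comp (Pi.constRingHom ℕ k)

/-- The subring of the ultrapower generated by the constants and a set. -/
noncomputable def genRing (k : Type) [Field k] (ω : Ultrafilter ℕ)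
    (T : Set (Germ (ω : Filter ℕ) k)) : Subring (Germ (ω : Filter ℕ) k) :=
  Subring.closure (Set.range (constHom k ω) ∪ T)

theorem constHom_mem (k : Type) [Field k] (ω : Ultrafilter ℕ)
    (T : Set (Germ (ω : Filter ℕ) k)) (c : k) : constHom k ω c ∈ genRing k ω T :=
  Subring.subset_closure (Or.inl ⟨c, rfl⟩)

theorem mem_genRing (k : Type) [Field k] (ω : Ultrafilter ℕ)
    (T : Set (Germ (ω : Filter ℕ) k)) {t : Germ (ω : Filter ℕ) k} (ht : t ∈ T) :
    t ∈ genRing k ω T :=
  Subring.subset_closure (Or.inr ht)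

/-- For a finite set `T` of generators with representatives `r t : ℕ → k`, for `ω`-almost all `j`
evaluation at `j` of the representatives extends to a ring homomorphism `genRing → k`.

Proof: `φ : MvPolynomial T k →+* Germ`, `φ = eval₂Hom constHom Subtype.val`, has range
`genRing k ω T` and a finitely generated kernel (Hilbert's basis theorem); each generator `g` of
the kernel satisfies `eval (fun t => r t j) g = 0` for `ω`-almost all `j`; so for `ω`-almost all
`j` evaluation kills the kernel and factors through the range. -/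
theorem los (k : Type) [Field k] (ω : Ultrafilter ℕ) (T : Set (Germ (ω : Filter ℕ) k))
    (hT : T.Finite) (r : Germ (ω : Filter ℕ) k → ℕ → k)
    (hr : ∀ t : Germ (ω : Filter ℕ) k, ((r t : ℕ → k) : Germ (ω : Filter ℕ) k) = t) :
    ∀ᶠ j in (ω : Filter ℕ), ∃ θ : genRing k ω T →+* k,
      (∀ c : k, θ ⟨constHom k ω c, constHom_mem k ω T c⟩ = c) ∧
      ∀ (t : Germ (ω : Filter ℕ) k) (ht : t ∈ T), θ ⟨t, mem_genRing k ω T ht⟩ = r t j := by
  classical
  have : Finite T := hT
  let φ : MvPolynomial T k →+* Germ (ω : Filter ℕ) k :=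
    MvPolynomial.eval₂Hom (constHom k ω) (fun t => (t : Germ (ω : Filter ℕ) k))
  let ψ : MvPolynomial T k →+* (ℕ → k) :=
    MvPolynomial.eval₂Hom (Pi.constRingHom ℕ k) (fun t => r t)
  have hφC : ∀ c, φ (MvPolynomial.C c) = constHom k ω c := fun c => MvPolynomial.eval₂Hom_C _ _ c
  have hφX : ∀ t : T, φ (MvPolynomial.X t) = t := fun t => MvPolynomial.eval₂Hom_X' _ _ t
  have hψC : ∀ c, ψ (MvPolynomial.C c) = fun _ => c := fun c => MvPolynomial.eval₂Hom_C _ _ c
  have hψX : ∀ t : T, ψ (MvPolynomial.X t) = r t := fun t => MvPolynomial.eval₂Hom_X' _ _ t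
  have hφψ : φ = (Germ.coeRingHom (ω : Filter ℕ)).comp ψ := by
    refine MvPolynomial.ringHom_ext (fun c => ?_) (fun t => ?_)
    · rw [hφC, RingHom.comp_apply, hψC]
      rfl
    · rw [hφX, RingHom.comp_apply, hψX]
      exact (hr t).symm
  have hmem : ∀ g, φ g ∈ genRing k ω T := by
    intro g
    induction g using MvPolynomial.induction_on with
    | C a =>
      rw [hφC]
      exact constHom_mem k ω T a
    | add p q hp hq =>
      rw [map_add]
      exact add_mem hp hq
    | mul_X p t hp =>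
      rw [map_mul, hφX]
      exact mul_mem hp (mem_genRing k ω T t.2)
  let φ' : MvPolynomial T k →+* genRing k ω T := φ.codRestrict (genRing k ω T) hmem
  have hφ' : ∀ g, ((φ' g : genRing k ω T) : Germ (ω : Filter ℕ) k) = φ g := fun g => rfl
  have hsurj : Function.Surjective φ' := by
    have hle : genRing k ω T ≤ φ.range := by
      refine Subring.closure_le.2 ?_
      rintro x (⟨c, rfl⟩ | hx)
      · exact ⟨MvPolynomial.C c, hφC c⟩
      · exact ⟨MvPolynomial.X ⟨x, hx⟩, hφX ⟨x, hx⟩⟩
    rintro ⟨x, hx⟩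
    obtain ⟨g, hg⟩ := hle hx
    exact ⟨g, Subtype.ext hg⟩
  obtain ⟨S, hS⟩ := (isNoetherianRing_iff_ideal_fg _).1
    (inferInstance : IsNoetherianRing (MvPolynomial T k)) (RingHom.ker φ)
  have hev : ∀ g ∈ S, ∀ᶠ j in (ω : Filter ℕ), ψ g j = 0 := by
    intro g hg
    have h1 : g ∈ RingHom.ker φ := by
      rw [← hS]
      exact Ideal.subset_span hg
    rw [RingHom.mem_ker, hφψ] at h1
    have h2 : ((ψ g : ℕ → k) : Germ (ω : Filter ℕ) k) = ((0 : ℕ → k) : Germ (ω : Filter ℕ) k) := h1
    exact Germ.coe_eq.1 h2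
  filter_upwards [(Filter.eventually_all_finset S).2 hev] with j hj
  let χ : MvPolynomial T k →+* k := (Pi.evalRingHom (fun _ => k) j).comp ψ
  have hχ : ∀ g, χ g = ψ g j := fun g => rfl
  have hker : RingHom.ker φ' ≤ RingHom.ker χ := by
    intro g hg
    have h1 : g ∈ RingHom.ker φ := by
      rw [RingHom.mem_ker] at hg ⊢
      rw [← hφ', hg]
      rfl
    rw [← hS] at h1
    have h2 : Ideal.span (S : Set (MvPolynomial T k)) ≤ RingHom.ker χ :=
      Ideal.span_le.2 (fun g hg => hj g hg)
    exact h2 h1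
  refine ⟨RingHom.liftOfSurjective φ' hsurj ⟨χ, hker⟩, fun c => ?_, fun t ht => ?_⟩
  · have e : (⟨constHom k ω c, constHom_mem k ω T c⟩ : genRing k ω T) =
        φ' (MvPolynomial.C c) := Subtype.ext (by rw [hφ', hφC])
    rw [e]
    refine (RingHom.liftOfRightInverse_comp_apply _ _ _ _ _).trans ?_
    show χ (MvPolynomial.C c) = c
    rw [hχ, hψC]
  · have e : (⟨t, mem_genRing k ω T ht⟩ : genRing k ω T) =
        φ' (MvPolynomial.X ⟨t, ht⟩) := Subtype.ext (by rw [hφ', hφX])
    rw [e]
    refine (RingHom.liftOfRightInverse_comp_apply _ _ _ _ _).trans ?_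
    show χ (MvPolynomial.X ⟨t, ht⟩) = r t j
    rw [hχ, hψX]

end Pool.Agent.MP_23c465_al
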