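import Pool.Agent.Lib.MP_23c465_al.Level
import Pool.Agent.Lib.MP_23c465_al.Top

/-!
# The Magnus homomorphism of a free pro-`p` group
-/

set_option autoImplicit false

namespace Pool.Agent.MP_23c465_al

open Finset NC

section aux

private theorem mg_genSeries_nil (R : Type) [CommRing R] (o : Option ℕ) : (genSeries R o) [] = 1 := by
  cases o <;> simp [genSeries]

private theorem mg_map_genSeries {R R' : Type} [CommRing R] [CommRing R'] (φ : R →+* R') (o : Option ℕ) :
    NC.map φ (genSeries R o) = genSeries R' o := by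
  cases o with
  | none => simp only [genSeries, map_one]
  | some b => simp only [genSeries, map_add, map_one, NC.map_letter]

/-- Change of coefficients on series with constant term `1`. -/
private def mgMap {R R' : Type} [CommRing R] [CommRing R'] (φ : R →+* R') : Gam R →* Gam R' where
  toFun f := ⟨NC.map φ f.1, by rw [NC.map_apply, f.2, map_one]⟩
  map_one' := Gam.ext (map_one (NC.map φ))
  map_mul' f g := Gam.ext (map_mul (NC.map φ) f.1 g.1)

private theorem mgMap_val {R R' : Type} [CommRing R] [CommRing R'] (φ : R →+* R') (f : Gam R) :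
    (mgMap φ f).1 = NC.map φ f.1 := rfl

private theorem mg_low_le_comap {R R' : Type} [CommRing R] [CommRing R'] (φ : R →+* R') {m n : ℕ}
    (h : m ≤ n) : Gam.low R n ≤ (Gam.low R' m).comap (mgMap φ) := by
  intro f hf
  rw [Subgroup.mem_comap, Gam.mem_low]
  intro w hw hs
  rw [mgMap_val, NC.map_apply, Gam.mem_low.1 hf w hw (hs.trans h), map_zero]

private theorem mg_size_take_le (w : List ℕ) (i : ℕ) : size (w.take i) ≤ size w := by
  conv_rhs => rw [← List.take_append_drop i w, size_append]
  exact Nat.le_add_right _ _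

private theorem mg_size_drop_le (w : List ℕ) (i : ℕ) : size (w.drop i) ≤ size w := by
  conv_rhs => rw [← List.take_append_drop i w, size_append]
  exact Nat.le_add_left _ _

variable {p : ℕ} [Fact p.Prime]

/-- A compatible family of residues defines a `p`-adic integer. -/
private theorem mg_lim (N0 : ℕ) (c : ∀ N, ZMod (p ^ N))
    (hc : ∀ m n (h : m ≤ n), N0 ≤ m → ZMod.castHom (pow_dvd_pow p h) (ZMod (p ^ m)) (c n) = c m) :
    ∃ a : ℤ_[p], ∀ N, N0 ≤ N → PadicInt.toZModPow N a = c N := by
  have key : ∀ m n (h : m ≤ n), N0 ≤ m → (((c n).val : ℤ) : ZMod (p ^ m)) = c m := by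
    intro m n h hm
    rw [← hc m n h hm, Int.cast_natCast, ZMod.castHom_apply]
    exact ZMod.natCast_val (c n)
  have hi : ∀ i, (p : ℤ) ^ i ∣ ((c (i + 1 + N0)).val : ℤ) - ((c (i + N0)).val : ℤ) := by
    intro i
    have h1 : (((c (i + N0)).val : ℤ) : ZMod (p ^ (i + N0))) =
        (((c (i + 1 + N0)).val : ℤ) : ZMod (p ^ (i + N0))) := by
      rw [key (i + N0) (i + N0) le_rfl (by omega), key (i + N0) (i + 1 + N0) (by omega) (by omega)]
    rw [ZMod.intCast_eq_intCast_iff_dvd_sub] at h1
    refine dvd_trans ?_ h1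
    push_cast
    exact pow_dvd_pow _ (by omega)
  refine ⟨PadicInt.ofIntSeq _ (PadicInt.isCauSeq_padicNorm_of_pow_dvd_sub
      (fun i => ((c (i + N0)).val : ℤ)) p hi), fun N hN => ?_⟩
  rw [PadicInt.toZModPow_ofIntSeq_of_pow_dvd_sub (fun i => ((c (i + N0)).val : ℤ)) p hi N]
  exact key N (N + N0) (by omega) hN

private theorem mg_ext (N0 : ℕ) {a b : ℤ_[p]}
    (h : ∀ N, N0 ≤ N → PadicInt.toZModPow N a = PadicInt.toZModPow N b) : a = b := by
  rw [← PadicInt.ext_of_toZModPow]
  intro n
  rw [← PadicInt.cast_toZModPow n (max n N0) (le_max_left _ _) a,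
    ← PadicInt.cast_toZModPow n (max n N0) (le_max_left _ _) b, h _ (le_max_right _ _)]

end aux

variable {p : ℕ} [Fact p.Prime] {X F : Type} [Group F] [TopologicalSpace F]
  [IsTopologicalGroup F] [CompactSpace F] [T2Space F] [TotallyDisconnectedSpace F] {ι : X → F}

/-- **The Magnus homomorphism.**

Proof: choose lifts `γ N g : NC ℕ ℤ_[p]` (constant term `1`) of the levels `φ N g`; by uniqueness in
the universal property the levels are compatible, so for each `g` the sets
`{γ | γ ≡ γ N g mod p ^ N on words of size ≤ N}` decrease with `N`; they are nonempty closed subsets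
of a compact space, so they have a common point `M g`; it is unique, and multiplicativity and
continuity follow from the levels. -/
theorem exists_magnus (hF : FreeProP p X F ι) (enc : X → Option ℕ)
    (henc : ∀ x y b, enc x = some b → enc y = some b → x = y) :
    ∃ M : F →* NC ℕ ℤ_[p], Continuous M ∧ (∀ g, M g [] = 1) ∧
      ∀ x, M (ι x) = genSeries ℤ_[p] (enc x) := by
  choose φ hφo hφι using exists_level hF enc henc
  -- the coefficients of the levels
  let c : ∀ (N : ℕ) (_ : F) (_ : List ℕ), ZMod (p ^ N) := fun N g w => (Quotient.out (φ N g)).1 w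
  have hout : ∀ N g, (QuotientGroup.mk (Quotient.out (φ N g)) :
      Gam (ZMod (p ^ N)) ⧸ Gam.low (ZMod (p ^ N)) N) = φ N g :=
    fun N g => QuotientGroup.out_eq' (φ N g)
  have hA : ∀ N g (f : Gam (ZMod (p ^ N))), φ N g = QuotientGroup.mk f →
      ∀ w, size w ≤ N → c N g w = f.1 w := by
    intro N g f h w hw
    exact Gam.mk_eq_mk_iff.1 ((hout N g).trans h) w hw
  -- compatibility
  have hred : ∀ m n (h : m ≤ n) g, φ m g = QuotientGroup.mk
      (mgMap (ZMod.castHom (pow_dvd_pow p h) (ZMod (p ^ m))) (Quotient.out (φ n g))) := by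
    intro m n h
    have := Gam.finite_quot p m
    let red : Gam (ZMod (p ^ n)) ⧸ Gam.low (ZMod (p ^ n)) n →*
        Gam (ZMod (p ^ m)) ⧸ Gam.low (ZMod (p ^ m)) m :=
      QuotientGroup.map _ _ (mgMap (ZMod.castHom (pow_dvd_pow p h) (ZMod (p ^ m))))
        (mg_low_le_comap _ h)
    have hfin : Set.Finite {x : X | φ m (ι x) ≠ 1} := by
      have h1 : ((φ m).ker : Set F) ∈ nhds (1 : F) :=
        (hφo m).mem_nhds (one_mem (φ m).ker)
      have h2 := hF.tendsto h1
      rw [Filter.mem_map, Filter.mem_cofinite] at h2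
      refine h2.subset ?_
      intro x hx
      simp only [Set.mem_compl_iff, Set.mem_preimage, SetLike.mem_coe, MonoidHom.mem_ker]
      exact hx
    have hu := (hF.univ (Gam (ZMod (p ^ m)) ⧸ Gam.low (ZMod (p ^ m)) m) (Gam.card_quot p m)
      (fun x => φ m (ι x)) hfin).unique (y₁ := φ m) (y₂ := red.comp (φ n)) ⟨hφo m, fun _ => rfl⟩ ?_
    · intro g
      have h3 : φ m g = red (φ n g) := by
        conv_lhs => rw [hu]
        rfl
      rw [h3, ← hout n g]
      conv_rhs => rw [hout n g]
      rfl
    · constructor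
      · refine Subgroup.isOpen_mono ?_ (hφo n)
        intro g hg
        rw [MonoidHom.mem_ker] at hg ⊢
        rw [MonoidHom.comp_apply, hg, map_one]
      · intro x
        rw [MonoidHom.comp_apply, hφι n x (mg_genSeries_nil _ _), hφι m x (mg_genSeries_nil _ _)]
        change QuotientGroup.mk _ = _
        congr 1
        exact Gam.ext (mg_map_genSeries _ _)
  have hcomp : ∀ g w m n (h : m ≤ n), size w ≤ m →
      ZMod.castHom (pow_dvd_pow p h) (ZMod (p ^ m)) (c n g w) = c m g w := by
    intro g w m n h hw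
    rw [hA m g _ (hred m n h g) w hw]
    rfl
  have hex : ∀ g w, ∃ a : ℤ_[p], ∀ N, size w ≤ N → PadicInt.toZModPow N a = c N g w := fun g w =>
    mg_lim (size w) (fun N => c N g w) (fun m n h hm => hcomp g w m n h hm)
  choose Mf hMf using hex
  have hval : ∀ N (f : NC ℕ ℤ_[p]) w, PadicInt.toZModPow N (f w) =
      (NC.map (PadicInt.toZModPow N) f) w := fun _ _ _ => rfl
  let M : F →* NC ℕ ℤ_[p] :=
    { toFun := fun g => ⟨fun w => Mf g w⟩
      map_one' := by
        ext w
        refine mg_ext (size w) fun N hN => ?_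
        rw [hval N 1, map_one, NC.mk_apply, hMf 1 w N hN]
        exact hA N 1 1 (map_one _) w hN
      map_mul' := by
        intro g h
        ext w
        refine mg_ext (size w) fun N hN => ?_
        rw [hval N (_ * _), map_mul, NC.mk_apply, hMf (g * h) w N hN]
        have h1 : φ N (g * h) = QuotientGroup.mk
            (Quotient.out (φ N g) * Quotient.out (φ N h)) := by
          rw [map_mul, QuotientGroup.mk_mul, hout, hout]
        rw [hA N (g * h) _ h1 w hN, Gam.mul_val]
        refine NC.mul_congr_at (fun i _ => ?_) (fun i _ => ?_)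
        · rw [NC.map_apply, NC.mk_apply, hMf g _ N ((mg_size_take_le w i).trans hN)]
        · rw [NC.map_apply, NC.mk_apply, hMf h _ N ((mg_size_drop_le w i).trans hN)] }
  have hM : ∀ g w, M g w = Mf g w := fun _ _ => rfl
  refine ⟨M, ?_, ?_, ?_⟩
  · rw [NC.continuous_iff]
    intro w
    rw [continuous_iff_continuousAt]
    intro g
    rw [ContinuousAt, Metric.tendsto_nhds]
    intro ε hε
    obtain ⟨k, hk⟩ := PadicInt.exists_pow_neg_lt p hε
    set N := max k (size w) with hN
    have hopen : IsOpen {x : F | g⁻¹ * x ∈ ((φ N).ker : Set F)} :=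
      (hφo N).preimage (continuous_const_mul g⁻¹)
    filter_upwards [hopen.mem_nhds (show g⁻¹ * g ∈ ((φ N).ker : Set F) by simp)] with x hx
    have hx' : φ N x = φ N g := by
      have h1 : φ N (g⁻¹ * x) = 1 := hx
      rw [map_mul, map_inv, inv_mul_eq_one] at h1
      exact h1.symm
    have h2 : PadicInt.toZModPow N (M x w) = PadicInt.toZModPow N (M g w) := by
      rw [hM, hM, hMf x w N (le_max_right _ _), hMf g w N (le_max_right _ _)]
      change (Quotient.out (φ N x)).1 w = (Quotient.out (φ N g)).1 w
      rw [hx']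
    rw [dist_eq_norm]
    have h3 : M x w - M g w ∈ Ideal.span {(p : ℤ_[p]) ^ N} := by
      rw [← PadicInt.ker_toZModPow, RingHom.mem_ker, map_sub, h2, sub_self]
    rw [← PadicInt.norm_le_pow_iff_mem_span_pow] at h3
    refine lt_of_le_of_lt h3 (lt_of_le_of_lt ?_ hk)
    refine zpow_le_zpow_right₀ ?_ ?_
    · exact_mod_cast (Fact.out : p.Prime).one_lt.le
    · have : k ≤ N := le_max_left _ _
      omega
  · intro g
    refine mg_ext 0 fun N _ => ?_
    rw [hM, hMf g [] N (by simp [size]), map_one]
    exact (Quotient.out (φ N g)).2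
  · intro x
    ext w
    refine mg_ext (size w) fun N hN => ?_
    rw [hM, hMf (ι x) w N hN, hval N (genSeries _ _), mg_map_genSeries]
    exact hA N (ι x) _ (hφι N x (mg_genSeries_nil _ _)) w hN

end Pool.Agent.MP_23c465_al
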