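import Mathlib

/-!
# Noncommutative formal power series

`NC B R` = functions `List B → R` with the Cauchy (deconcatenation) product.
-/

set_option autoImplicit false

namespace Pool.Agent.MP_23c465_al

open Finset

/-- Noncommutative formal power series in the letters `B` with coefficients in `R`. -/
structure NC (B R : Type) : Type where
  /-- the coefficient of a word -/
  coeff : List B → R

namespace NC

variable {B R : Type}

instance : CoeFun (NC B R) (fun _ => List B → R) := ⟨NC.coeff⟩

/-- Series are functions on words. -/
def equiv : NC B R ≃ (List B → R) := ⟨NC.coeff, NC.mk, fun _ => rfl, fun _ => rfl⟩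

@[ext] theorem ext {f g : NC B R} (h : ∀ w, f w = g w) : f = g := by
  cases f; cases g; congr; exact funext h

@[simp] theorem mk_apply (f : List B → R) (w : List B) : (NC.mk f : NC B R) w = f w := rfl

/-- Left derivative: the coefficient of `w` in `D b f` is the coefficient of `b :: w` in `f`. -/
def D (b : B) (f : NC B R) : NC B R := ⟨fun w => f (b :: w)⟩

@[simp] theorem D_apply (b : B) (f : NC B R) (w : List B) : D b f w = f (b :: w) := rfl

variable [CommRing R]

instance : AddCommGroup (NC B R) := equiv.addCommGroup
instance : Module R (NC B R) := equiv.module R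

/-- The Cauchy product, by recursion on the word. -/
def mulAux (g : List B → R) : (List B → R) → List B → R
  | f, [] => f [] * g []
  | f, b :: w => f [] * g (b :: w) + mulAux g (fun u => f (b :: u)) w

instance : Mul (NC B R) := ⟨fun f g => ⟨mulAux g.coeff f.coeff⟩⟩

instance : One (NC B R) := ⟨⟨fun w => match w with | [] => 1 | _ :: _ => 0⟩⟩

@[simp] theorem add_apply (f g : NC B R) (w : List B) : (f + g) w = f w + g w := rfl
@[simp] theorem zero_apply (w : List B) : (0 : NC B R) w = 0 := rfl
@[simp] theorem neg_apply (f : NC B R) (w : List B) : (-f) w = -(f w) := rfl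
@[simp] theorem sub_apply (f g : NC B R) (w : List B) : (f - g) w = f w - g w := rfl
@[simp] theorem smul_apply (r : R) (f : NC B R) (w : List B) : (r • f) w = r * f w := rfl
@[simp] theorem one_nil : (1 : NC B R) [] = 1 := rfl
@[simp] theorem one_cons (b : B) (w : List B) : (1 : NC B R) (b :: w) = 0 := rfl
theorem one_of_ne {w : List B} (h : w ≠ []) : (1 : NC B R) w = 0 := by
  cases w with
  | nil => exact absurd rfl h
  | cons b w => rfl
@[simp] theorem mul_nil (f g : NC B R) : (f * g) [] = f [] * g [] := rfl
theorem mul_cons (f g : NC B R) (b : B) (w : List B) :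
    (f * g) (b :: w) = f [] * g (b :: w) + (D b f * g) w := rfl
@[simp] theorem D_add (b : B) (f g : NC B R) : D b (f + g) = D b f + D b g := rfl
@[simp] theorem D_sub (b : B) (f g : NC B R) : D b (f - g) = D b f - D b g := rfl
@[simp] theorem D_neg (b : B) (f : NC B R) : D b (-f) = -D b f := rfl
@[simp] theorem D_zero (b : B) : D b (0 : NC B R) = 0 := rfl
@[simp] theorem D_smul (b : B) (r : R) (f : NC B R) : D b (r • f) = r • D b f := rfl
@[simp] theorem D_one (b : B) : D b (1 : NC B R) = 0 := rfl
theorem D_mul (b : B) (f g : NC B R) : D b (f * g) = f [] • D b g + D b f * g := rfl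

private theorem zero_mul' (g : NC B R) : (0 : NC B R) * g = 0 := by
  ext w
  induction w with
  | nil => simp
  | cons b w ih => rw [mul_cons]; simpa using ih

private theorem add_mul' (f f' g : NC B R) : (f + f') * g = f * g + f' * g := by
  ext w
  induction w generalizing f f' with
  | nil => simp [add_mul]
  | cons b w ih =>
      have := ih (D b f) (D b f')
      simp only [add_apply] at this
      rw [mul_cons, D_add, this, add_apply, add_apply, mul_cons, mul_cons]
      ring

private theorem mul_add' (f g g' : NC B R) : f * (g + g') = f * g + f * g' := by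
  ext w
  induction w generalizing f with
  | nil => simp [mul_add]
  | cons b w ih =>
      have := ih (D b f)
      simp only [add_apply] at this
      rw [mul_cons, this, add_apply, add_apply, mul_cons, mul_cons]
      ring

private theorem smul_mul' (r : R) (f g : NC B R) : (r • f) * g = r • (f * g) := by
  ext w
  induction w generalizing f with
  | nil => simp [mul_assoc]
  | cons b w ih =>
      have := ih (D b f)
      simp only [smul_apply] at this
      rw [mul_cons, D_smul, this, smul_apply, smul_apply, mul_cons]
      ring

private theorem mul_smul' (r : R) (f g : NC B R) : f * (r • g) = r • (f * g) := by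
  ext w
  induction w generalizing f with
  | nil => simp [mul_left_comm]
  | cons b w ih =>
      have := ih (D b f)
      simp only [smul_apply] at this
      rw [mul_cons, this, smul_apply, smul_apply, mul_cons]
      ring

private theorem mul_assoc' (f g h : NC B R) : f * g * h = f * (g * h) := by
  ext w
  induction w generalizing f with
  | nil => simp [mul_assoc]
  | cons b w ih =>
      rw [mul_cons, mul_cons f (g * h), D_mul, add_mul', smul_mul', add_apply, ih (D b f),
        mul_cons g h]
      simp only [mul_nil, smul_apply]; ring

private theorem one_mul' (f : NC B R) : 1 * f = f := by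
  ext w
  cases w with
  | nil => simp
  | cons b w => rw [mul_cons, D_one, zero_mul']; simp

private theorem mul_zero' (f : NC B R) : f * (0 : NC B R) = 0 := by
  have h := mul_add' f 0 0
  rw [add_zero] at h
  exact left_eq_add.mp h

private theorem mul_one' (f : NC B R) : f * 1 = f := by
  ext w
  induction w generalizing f with
  | nil => simp
  | cons b w ih => rw [mul_cons, ih (D b f)]; simp

instance : Ring (NC B R) :=
  { (inferInstance : AddCommGroup (NC B R)) with
    mul := (· * ·)
    one := 1
    left_distrib := mul_add'
    right_distrib := add_mul'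
    zero_mul := zero_mul'
    mul_zero := mul_zero'
    mul_assoc := mul_assoc'
    one_mul := one_mul'
    mul_one := mul_one' }

instance : IsScalarTower R (NC B R) (NC B R) := ⟨fun r f g => smul_mul' r f g⟩
instance : SMulCommClass R (NC B R) (NC B R) := ⟨fun r f g => (mul_smul' r f g).symm⟩

/-- Explicit formula for the product. -/
theorem mul_apply (f g : NC B R) (w : List B) :
    (f * g) w = ∑ i ∈ range (w.length + 1), f (w.take i) * g (w.drop i) := by
  induction w generalizing f with
  | nil => simp
  | cons b w ih =>
      rw [mul_cons, ih (D b f), List.length_cons, Finset.sum_range_succ' _ (w.length + 1)]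
      simp only [List.take_succ_cons, List.drop_succ_cons, List.take_zero, List.drop_zero, D_apply]
      rw [add_comm]

/-- Change of coefficients. -/
def map {R' : Type} [CommRing R'] (φ : R →+* R') : NC B R →+* NC B R' where
  toFun f := ⟨fun w => φ (f w)⟩
  map_one' := by
    ext w; cases w with
    | nil => simp
    | cons b w => simp
  map_zero' := by ext w; simp
  map_add' f g := by ext w; simp
  map_mul' f g := by
    ext w
    rw [mul_apply, mk_apply, mul_apply, map_sum]
    simp

@[simp] theorem map_apply {R' : Type} [CommRing R'] (φ : R →+* R') (f : NC B R) (w : List B) :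
    map φ f w = φ (f w) := rfl

theorem D_map {R' : Type} [CommRing R'] (φ : R →+* R') (f : NC B R) (b : B) :
    D b (map φ f) = map φ (D b f) := rfl

/-- The series consisting of the single letter `b`. -/
def letter [DecidableEq B] (b : B) : NC B R :=
  ⟨fun w => match w with
    | [c] => if c = b then 1 else 0
    | _ => 0⟩

section letter
variable [DecidableEq B]

@[simp] theorem letter_nil (b : B) : (letter b : NC B R) [] = 0 := rfl
@[simp] theorem letter_single (b c : B) : (letter b : NC B R) [c] = if c = b then 1 else 0 := rfl
@[simp] theorem letter_cons_cons (b c d : B) (w : List B) :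
    (letter b : NC B R) (c :: d :: w) = 0 := rfl
theorem letter_apply (b : B) (w : List B) :
    (letter b : NC B R) w = if w = [b] then 1 else 0 := by
  match w with
  | [] => simp
  | [c] => by_cases h : c = b <;> simp [h]
  | c :: d :: w => simp
theorem D_letter (b c : B) : D c (letter b : NC B R) = if c = b then 1 else 0 := by
  ext w
  cases w with
  | nil => by_cases h : c = b <;> simp [h]
  | cons d w => by_cases h : c = b <;> simp [h]
theorem map_letter {R' : Type} [CommRing R'] (φ : R →+* R') (b : B) :
    map φ (letter b : NC B R) = letter b := by
  ext w; rw [map_apply, letter_apply, letter_apply]; split_ifs <;> simp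

end letter

/-- The product at `w` only depends on the left factor at prefixes and the right factor at
suffixes of `w`. -/
theorem mul_congr_at {f f' g g' : NC B R} {w : List B}
    (hf : ∀ i ≤ w.length, f (w.take i) = f' (w.take i))
    (hg : ∀ i ≤ w.length, g (w.drop i) = g' (w.drop i)) : (f * g) w = (f' * g') w := by
  rw [mul_apply, mul_apply]
  refine Finset.sum_congr rfl fun i hi => ?_
  have : i ≤ w.length := by simpa [Nat.lt_succ_iff] using hi
  rw [hf i this, hg i this]

/-- Powers of a series without constant term have no short words. -/
theorem pow_apply_eq_zero {h : NC B R} (h0 : h [] = 0) {k : ℕ} {w : List B}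
    (hk : w.length < k) : (h ^ k) w = 0 := by
  induction k generalizing w with
  | zero => omega
  | succ k ih =>
      rw [pow_succ', mul_apply]
      refine Finset.sum_eq_zero fun i hi => ?_
      rcases Nat.eq_zero_or_pos i with rfl | hi0
      · simp [h0]
      · rw [ih (by
          rw [List.length_drop]
          simp only [Finset.mem_range] at hi; omega), mul_zero]

/-- Inverse of a series with constant term `1` (geometric series). -/
noncomputable def inv (f : NC B R) : NC B R :=
  ⟨fun w => ∑ k ∈ range (w.length + 1), ((1 - f) ^ k) w⟩

theorem inv_def (f : NC B R) (w : List B) :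
    inv f w = ∑ k ∈ range (w.length + 1), ((1 - f) ^ k) w := rfl

/-- Coefficient as an additive homomorphism. -/
def coeffHom (w : List B) : NC B R →+ R where
  toFun f := f w
  map_zero' := rfl
  map_add' _ _ := rfl

@[simp] theorem coeffHom_apply (w : List B) (f : NC B R) : coeffHom w f = f w := rfl

theorem sum_apply {ι : Type} (s : Finset ι) (f : ι → NC B R) (w : List B) :
    (∑ i ∈ s, f i) w = ∑ i ∈ s, f i w := map_sum (coeffHom w) f s

theorem inv_apply_of_le {f : NC B R} (h1 : f [] = 1) {w : List B} {n : ℕ} (hn : w.length ≤ n) :
    inv f w = (∑ k ∈ range (n + 1), (1 - f) ^ k) w := by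
  rw [sum_apply, inv_def]
  refine Finset.sum_subset (fun k hk => ?_) (fun k _ hk => ?_)
  · simp only [Finset.mem_range] at hk ⊢; omega
  · refine pow_apply_eq_zero (by simp [h1]) ?_
    simp only [Finset.mem_range, not_lt] at hk; omega

theorem mul_inv {f : NC B R} (h1 : f [] = 1) : f * inv f = 1 := by
  ext w
  have h2 : (f * inv f) w = (f * ∑ k ∈ range (w.length + 1), (1 - f) ^ k) w := by
    refine mul_congr_at (fun _ _ => rfl) (fun i hi => ?_)
    exact inv_apply_of_le h1 (by rw [List.length_drop]; omega)
  rw [h2]
  have h3 : f * ∑ k ∈ range (w.length + 1), (1 - f) ^ k = 1 - (1 - f) ^ (w.length + 1) := by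
    have := mul_neg_geom_sum (1 - f) (w.length + 1)
    simpa using this
  rw [h3, sub_apply, pow_apply_eq_zero (by simp [h1]) (Nat.lt_succ_self _), sub_zero]

theorem inv_mul {f : NC B R} (h1 : f [] = 1) : inv f * f = 1 := by
  ext w
  have h2 : (inv f * f) w = ((∑ k ∈ range (w.length + 1), (1 - f) ^ k) * f) w := by
    refine mul_congr_at (fun i hi => ?_) (fun _ _ => rfl)
    exact inv_apply_of_le h1 (by rw [List.length_take]; omega)
  rw [h2]
  have h3 : (∑ k ∈ range (w.length + 1), (1 - f) ^ k) * f = 1 - (1 - f) ^ (w.length + 1) := by
    have := geom_sum_mul_neg (1 - f) (w.length + 1)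
    simpa using this
  rw [h3, sub_apply, pow_apply_eq_zero (by simp [h1]) (Nat.lt_succ_self _), sub_zero]

@[simp] theorem inv_nil (f : NC B R) : inv f [] = 1 := by simp [inv]

end NC

end Pool.Agent.MP_23c465_al
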