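import Pool.Agent.Lib.MP_23c465_al.NCBasic
import Pool.Agent.Lib.MP_23c465_al.Weights

/-!
# The smallest type of a word in the support
-/

set_option autoImplicit false

namespace Pool.Agent.MP_23c465_al

variable {B : Type} [DecidableEq B]

/-- Type of the expansion: if some word involving `η` occurs there is a smallest type. -/
theorem exists_type {R : Type} [CommRing R] (wt : B → ℕ) (η : B) (V : NC B R)
    (hfree : ∀ W : List B, W ≠ [] → η ∉ W → V W = 0) (hV : ∃ W : List B, η ∈ W ∧ V W ≠ 0) :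
    ∃ m d : ℕ, 1 ≤ m ∧
      (∀ W : List B, W ≠ [] → (W.count η < m ∨ (W.count η = m ∧ wtW wt W < d)) → V W = 0) ∧
      ∃ W : List B, W.count η = m ∧ wtW wt W = d ∧ V W ≠ 0 := by
  classical
  have h1 : ∃ m : ℕ, ∃ W : List B, η ∈ W ∧ V W ≠ 0 ∧ W.count η = m := by
    obtain ⟨W, hW, hV⟩ := hV
    exact ⟨_, W, hW, hV, rfl⟩
  obtain ⟨W₁, hW₁, hV₁, hm₁⟩ := Nat.find_spec h1
  have h2 : ∃ d : ℕ, ∃ W : List B, V W ≠ 0 ∧ W.count η = Nat.find h1 ∧ wtW wt W = d :=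
    ⟨_, W₁, hV₁, hm₁, rfl⟩
  obtain ⟨W₂, hV₂, hm₂, hd₂⟩ := Nat.find_spec h2
  refine ⟨Nat.find h1, Nat.find h2, ?_, ?_, W₂, hm₂, hd₂, hV₂⟩
  · rw [← hm₁]
    exact List.count_pos_iff.2 hW₁
  · intro W hW hlt
    by_contra hne
    have hη : η ∈ W := by
      by_contra hη
      exact hne (hfree W hW hη)
    rcases hlt with hlt | ⟨heq, hlt⟩
    · exact Nat.find_min h1 hlt ⟨W, hη, hne, rfl⟩
    · exact Nat.find_min h2 hlt ⟨W, hne, heq, rfl⟩

end Pool.Agent.MP_23c465_al
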