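import Pool.Agent.Lib.MP_23c465_al.Transfer
import Pool.Agent.Lib.MP_23c465_al.KeyC1
import Pool.Agent.Lib.MP_23c465_al.KeyC2
import Pool.Agent.Lib.MP_23c465_al.TypeMin

/-!
# One more unknown: the inductive step
-/

set_option autoImplicit false

namespace Pool.Agent.MP_23c465_al

open NC

theorem map_expand {B R R' : Type} [LinearOrder B] [CommRing R] [CommRing R'] (φ : R →+* R')
    (η : B) (f x : NC B R) : map φ (expand η f x) = expand η (map φ f) (map φ x) := by
  unfold expand
  rw [map_subst, map_sub, map_mul, map_add, map_one, map_letter]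

section
variable {k : Type} [Field k] (ω : Ultrafilter ℕ)

theorem genRing_mono {T T' : Set (Filter.Germ (ω : Filter ℕ) k)} (h : T ⊆ T') :
    genRing k ω T ≤ genRing k ω T' :=
  Subring.closure_mono (Set.union_subset_union_right _ h)

/-- The constants, as a homomorphism to the generated subring. -/
noncomputable def constG (T : Set (Filter.Germ (ω : Filter ℕ) k)) : k →+* genRing k ω T :=
  (constHom k ω).codRestrict (genRing k ω T) (constHom_mem k ω T)

variable (x : ℕ → ℕ → NC ℕ k)

/-- The tuple over the ultrapower. -/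
noncomputable def xU (b : ℕ) : NC ℕ (Filter.Germ (ω : Filter ℕ) k) := germS ω fun j => x j b

theorem val_xU (a : ℕ) (f : NC ℕ k) :
    val a (xU ω x) (map (constHom k ω) f) = germS ω fun j => val a (x j) f := by
  have h := val_germS ω a x (fun _ => f)
  rw [germS_const] at h
  exact h

theorem val_mem_gen {T : Set (Filter.Germ (ω : Filter ℕ) k)} {a : ℕ}
    (hmem : ∀ b < a, ∀ w, xU ω x b w ∈ genRing k ω T) (f : NC ℕ k) (w : List ℕ) :
    val a (xU ω x) (map (constHom k ω) f) w ∈ genRing k ω T :=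
  val_mem _ _ _ _ (fun W => constHom_mem k ω T (f W)) hmem w

/-- Specialising the value of an equation. -/
theorem transfer_val {T : Set (Filter.Germ (ω : Filter ℕ) k)} {a : ℕ}
    (hmem : ∀ b < a, ∀ w, xU ω x b w ∈ genRing k ω T) (j : ℕ) (θ : genRing k ω T →+* k)
    (hc : ∀ c : k, θ ⟨constHom k ω c, constHom_mem k ω T c⟩ = c)
    (hθ : ∀ b (hb : b < a) w, θ ⟨xU ω x b w, hmem b hb w⟩ = x j b w) (f : NC ℕ k)
    (h : ∀ w, val a (xU ω x) (map (constHom k ω) f) w ∈ genRing k ω T) :
    map θ (liftG _ (val a (xU ω x) (map (constHom k ω) f)) h) = val a (x j) f := by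
  classical
  let y : ℕ → NC ℕ (genRing k ω T) := fun b => if hb : b < a then liftG _ (xU ω x b) (hmem b hb)
    else 0
  have hy : liftG _ (val a (xU ω x) (map (constHom k ω) f)) h = val a y (map (constG ω T) f) := by
    apply map_subtype_injective
    rw [map_subtype_liftG, map_val]
    have h1 : map (genRing k ω T).subtype (map (constG ω T) f) = map (constHom k ω) f := by
      ext w; rfl
    rw [h1]
    refine val_congr (fun b hb => ?_) _
    simp only [y, dif_pos hb, map_subtype_liftG]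
  rw [hy, map_val]
  have h2 : map θ (map (constG ω T) f) = f := by
    ext w; exact hc (f w)
  rw [h2]
  refine val_congr (fun b hb => ?_) _
  simp only [y, dif_pos hb]
  ext w
  exact hθ b hb w

/-- A specialisation at `j`. -/
structure Good (r : Filter.Germ (ω : Filter ℕ) k → ℕ → k)
    (T : Set (Filter.Germ (ω : Filter ℕ) k)) (j : ℕ) (θ : genRing k ω T →+* k) : Prop where
  const : ∀ c : k, θ ⟨constHom k ω c, constHom_mem k ω T c⟩ = c
  gen : ∀ (t : Filter.Germ (ω : Filter ℕ) k) (ht : t ∈ T), θ ⟨t, mem_genRing k ω T ht⟩ = r t j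

theorem Good.restrict {r : Filter.Germ (ω : Filter ℕ) k → ℕ → k}
    {T T' : Set (Filter.Germ (ω : Filter ℕ) k)} (h : T ⊆ T') {j : ℕ}
    {θ : genRing k ω T' →+* k} (hθ : Good ω r T' j θ) :
    Good ω r T j (θ.comp (Subring.inclusion (genRing_mono ω h))) where
  const c := hθ.const c
  gen t ht := hθ.gen t (h ht)

/-- The inductive statement: the coordinates of the first `a` unknowns lie in a finitely generated
subring, and almost all specialisations give back the tuples. -/
def Inv (r : Filter.Germ (ω : Filter ℕ) k → ℕ → k) (a : ℕ) : Prop :=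
  ∃ T : Set (Filter.Germ (ω : Filter ℕ) k), T.Finite ∧
    ∃ hmem : ∀ b < a, ∀ w, xU ω x b w ∈ genRing k ω T,
      ∀ᶠ j in (ω : Filter ℕ), ∀ θ : genRing k ω T →+* k, Good ω r T j θ →
        ∀ b (hb : b < a) w, θ ⟨xU ω x b w, hmem b hb w⟩ = x j b w

theorem inv_zero (r : Filter.Germ (ω : Filter ℕ) k → ℕ → k) : Inv ω x r 0 :=
  ⟨∅, Set.finite_empty, fun b hb => absurd hb (Nat.not_lt_zero b),
    Filter.Eventually.of_forall fun _ _ _ b hb => absurd hb (Nat.not_lt_zero b)⟩

variable [CharZero k]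

theorem step (r : Filter.Germ (ω : Filter ℕ) k → ℕ → k)
    (hr : ∀ t : Filter.Germ (ω : Filter ℕ) k, ((r t : ℕ → k) : Filter.Germ (ω : Filter ℕ) k) = t)
    (a : ℕ) (hx : ∀ j, IsGL (x j a)) (hfree : ∀ j, Free a (x j a)) (f : NC ℕ k)
    (hA : ∀ᶠ j in (ω : Filter ℕ), val (a + 1) (x j) f = 1)
    (hB : ∃ W : List ℕ, a ∈ W ∧
      expand a (val a (xU ω x) (map (constHom k ω) f)) (xU ω x a) W ≠ 0)
    (hInv : Inv ω x r a) : Inv ω x r (a + 1) := by
  classical
  obtain ⟨T, hT, hmem, hsp⟩ := hInv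
  haveI : CharZero (Filter.Germ (ω : Filter ℕ) k) :=
    charZero_of_injective_ringHom (constHom k ω).injective
  set Fω := val a (xU ω x) (map (constHom k ω) f) with hFω
  set V := expand a Fω (xU ω x a) with hV
  have hxU : IsGL (xU ω x a) := IsGL.germS ω hx
  have hxUf : Free a (xU ω x a) := Free.germS ω hfree
  have hE : subst a (xU ω x a - 1) Fω = 1 := by
    have h1 : val (a + 1) (xU ω x) (map (constHom k ω) f) = 1 := by
      rw [val_xU]
      exact germS_eq_one ω hA
    exact h1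
  obtain ⟨m, d, hm, hmin, hW⟩ := exists_type (wtN a) a V (fun W hW haW => by
    rw [hV, expand_apply_of_notMem a Fω (xU ω x a) haW, hE]
    exact one_of_ne hW) hB
  have hfin1 : {w : List ℕ | w.count a ≤ 0 ∧ wtW (wtN a) w ≤ d}.Finite :=
    finite_words (wtN_eq_zero a) (wtN_fin a) 0 d
  have hfin2 : {w : List ℕ | w.count a ≤ m ∧ wtW (wtN a) w ≤ d}.Finite :=
    finite_words (wtN_eq_zero a) (wtN_fin a) m d
  set T' : Set (Filter.Germ (ω : Filter ℕ) k) :=
    T ∪ (((fun w => xU ω x a w) '' {w : List ℕ | w.count a ≤ 0 ∧ wtW (wtN a) w ≤ d}) ∪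
      ((fun W => (V W)⁻¹) '' {w : List ℕ | w.count a ≤ m ∧ wtW (wtN a) w ≤ d})) with hT'
  have hT'fin : T'.Finite := hT.union ((hfin1.image _).union (hfin2.image _))
  have hTT' : T ⊆ T' := Set.subset_union_left
  have hle : genRing k ω T ≤ genRing k ω T' := genRing_mono ω hTT'
  have hFmem : ∀ W, Fω W ∈ genRing k ω T' := fun W => hle (val_mem_gen ω x hmem f W)
  have hxmem : ∀ w, xU ω x a w ∈ genRing k ω T' := by
    refine keyC1 (wtN_eq_zero a) (wtN_fin a) Fω (xU ω x a) hxU hxUf m d hm (genRing k ω T')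
      (fun n hn => ?_) hFmem (fun w hw => ?_) hE hmin hW (fun W hW1 hW2 => ?_)
    · have : ((n : Filter.Germ (ω : Filter ℕ) k))⁻¹ = constHom k ω ((n : k)⁻¹) := by
        rw [map_inv₀, map_natCast]
      rw [this]
      exact constHom_mem k ω T' _
    · by_cases haw : a ∈ w
      · rw [hxUf w haw]; exact Subring.zero_mem _
      · refine mem_genRing k ω T' (Or.inr (Or.inl ⟨w, ⟨?_, hw⟩, rfl⟩))
        rw [List.count_eq_zero_of_not_mem haw]
    · exact mem_genRing k ω T' (Or.inr (Or.inr ⟨W, ⟨hW1.le, hW2.le⟩, rfl⟩))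
  refine ⟨T', hT'fin, fun b hb w => ?_, ?_⟩
  · rcases Nat.lt_succ_iff_lt_or_eq.mp hb with hb' | rfl
    · exact hle (hmem b hb' w)
    · exact hxmem w
  -- for almost all `j` the finitely many representatives are right
  have hrep : ∀ᶠ j in (ω : Filter ℕ), ∀ w ∈ {w : List ℕ | w.count a ≤ 0 ∧ wtW (wtN a) w ≤ d},
      r (xU ω x a w) j = x j a w := by
    rw [Filter.eventually_all_finite hfin1]
    intro w _
    have h1 := hr (xU ω x a w)
    have h2 : xU ω x a w = ((fun j => x j a w : ℕ → k) : Filter.Germ (ω : Filter ℕ) k) := rfl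
    rw [h2] at h1
    rw [Filter.Germ.coe_eq] at h1
    filter_upwards [h1] with j hj
    exact hj
  filter_upwards [hsp, hrep, hA] with j hj1 hj2 hj3 θ hθ
  have hθ0 := hj1 _ (hθ.restrict ω hTT')
  have hmem' : ∀ b < a, ∀ w, xU ω x b w ∈ genRing k ω T' := fun b hb w => hle (hmem b hb w)
  have hθ1 : ∀ b (hb : b < a) w, θ ⟨xU ω x b w, hmem' b hb w⟩ = x j b w := fun b hb w =>
    hθ0 b hb w
  have hval : map θ (liftG _ Fω hFmem) = val a (x j) f :=
    transfer_val ω x hmem' j θ hθ.const hθ1 f hFmem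
  set t : NC ℕ k := map θ (liftG _ (xU ω x a) hxmem) with ht
  have hVG : map (genRing k ω T').subtype
      (expand a (liftG _ Fω hFmem) (liftG _ (xU ω x a) hxmem)) = V := by
    rw [map_expand, map_subtype_liftG, map_subtype_liftG]
  have hVθ : map θ (expand a (liftG _ Fω hFmem) (liftG _ (xU ω x a) hxmem)) =
      expand a (val a (x j) f) t := by
    rw [map_expand, hval]
  have hcoef : ∀ W, ((expand a (liftG _ Fω hFmem) (liftG _ (xU ω x a) hxmem) W :
      genRing k ω T') : Filter.Germ (ω : Filter ℕ) k) = V W := fun W =>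
    congrArg (fun s : NC ℕ (Filter.Germ (ω : Filter ℕ) k) => s W) hVG
  have hcoefθ : ∀ W, expand a (val a (x j) f) t W =
      θ (expand a (liftG _ Fω hFmem) (liftG _ (xU ω x a) hxmem) W) := fun W =>
    (congrArg (fun s : NC ℕ k => s W) hVθ).symm
  have hzero : ∀ W, V W = 0 → expand a (val a (x j) f) t W = 0 := by
    intro W hVW
    rw [hcoefθ]
    have : expand a (liftG _ Fω hFmem) (liftG _ (xU ω x a) hxmem) W = 0 :=
      Subtype.ext ((hcoef W).trans hVW)
    rw [this, map_zero]
  have htx : t = x j a := by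
    refine keyC2 (wtN_eq_zero a) (wtN_fin a) (val a (x j) f) t (x j a)
      (IsGL.map θ (IsGL.liftG hxU hxmem)) (Free.map θ (Free.liftG hxUf hxmem)) (hx j) (hfree j)
      m d hm (fun w hw => ?_) hj3 (fun W hW1 hW2 => hzero W (hmin W hW1 hW2)) ?_
    · by_cases haw : a ∈ w
      · rw [hfree j w haw]
        have : liftG _ (xU ω x a) hxmem w = 0 := Subtype.ext (hxUf w haw)
        rw [ht, NC.map_apply, this, map_zero]
      · have hw' : w ∈ {w : List ℕ | w.count a ≤ 0 ∧ wtW (wtN a) w ≤ d} :=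
          ⟨by rw [List.count_eq_zero_of_not_mem haw], hw⟩
        have h1 : xU ω x a w ∈ T' := Or.inr (Or.inl ⟨w, hw', rfl⟩)
        have h2 := hθ.gen _ h1
        rw [hj2 w hw'] at h2
        exact h2
    · obtain ⟨W, hW1, hW2, hW3⟩ := hW
      refine ⟨W, hW1, hW2, ?_⟩
      have h1 : (V W)⁻¹ ∈ T' := Or.inr (Or.inr ⟨W, ⟨hW1.le, hW2.le⟩, rfl⟩)
      have h2 : (expand a (liftG _ Fω hFmem) (liftG _ (xU ω x a) hxmem) W) *
          (⟨(V W)⁻¹, mem_genRing k ω T' h1⟩ : genRing k ω T') = 1 := by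
        apply Subtype.ext
        change ((expand a (liftG _ Fω hFmem) (liftG _ (xU ω x a) hxmem) W :
          genRing k ω T') : Filter.Germ (ω : Filter ℕ) k) * (V W)⁻¹ = 1
        rw [hcoef W]
        exact mul_inv_cancel₀ hW3
      intro h3
      have h4 := congrArg θ h2
      rw [map_mul, ← hcoefθ, h3, zero_mul, map_one] at h4
      exact zero_ne_one h4
  intro b hb w
  rcases Nat.lt_succ_iff_lt_or_eq.mp hb with hb' | hb'
  · exact hθ1 b hb' w
  · subst hb'
    exact congrArg (fun s : NC ℕ k => s w) htx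

end

end Pool.Agent.MP_23c465_al
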