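import Pool.Agent.Lib.MP_23c465_al.NCBasic

/-!
# Substituting a series for one letter
-/

set_option autoImplicit false

namespace Pool.Agent.MP_23c465_al

open Finset

namespace NC

variable {B R : Type} [DecidableEq B] [CommRing R]

/-- Coefficient at a word of the series obtained from `f` by substituting `s` for the letter `η`
(the constant term of `s` is ignored). -/
def substC (η : B) (s : NC B R) : NC B R → List B → R
  | f, [] => f []
  | f, b :: w => (if b = η then 0 else substC η s (D b f) w) +
      ∑ i ∈ range (w.length + 1), s (b :: w.take i) * substC η s (D η f) (w.drop i)
termination_by _ w => w.length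
decreasing_by
  · simp
  · simp only [List.length_drop, List.length_cons]; omega

/-- Substitution of `s` for the letter `η` in `f`. -/
def subst (η : B) (s f : NC B R) : NC B R := ⟨substC η s f⟩

theorem subst_nil (η : B) (s f : NC B R) : subst η s f [] = f [] := by
  simp [subst, substC]

theorem subst_cons (η : B) (s f : NC B R) (b : B) (w : List B) :
    subst η s f (b :: w) = (if b = η then 0 else subst η s (D b f) w) +
      (D b s * subst η s (D η f)) w := by
  rw [mul_apply]
  simp [subst, substC]

theorem D_subst (η : B) (s f : NC B R) (b : B) :
    D b (subst η s f) = (if b = η then 0 else subst η s (D b f)) + D b s * subst η s (D η f) := by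
  ext w
  rw [D_apply, subst_cons, add_apply]
  split_ifs <;> simp

/-- `f` does not involve the letter `η`. -/
def Free (η : B) (f : NC B R) : Prop := ∀ w, η ∈ w → f w = 0

end NC

end Pool.Agent.MP_23c465_al
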