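import Pool.Agent.Lib.MP_23c465_al.Expansion
import Pool.Agent.Lib.MP_23c465_al.Expand
import Pool.Agent.Lib.MP_23c465_al.Infil
import Pool.Agent.Lib.MP_23c465_al.Los

/-!
# Values of equations over the ultrapower and over finitely generated subrings
-/

set_option autoImplicit false

namespace Pool.Agent.MP_23c465_al

open NC

/-- Weights of the letters for the distinguished letter `a`. -/
def wtN (a b : ℕ) : ℕ := if b = a then 0 else b + 1

theorem wtN_eq_zero (a b : ℕ) : wtN a b = 0 ↔ b = a := by
  unfold wtN; split_ifs with h <;> simp [h]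

theorem wtN_fin (a n : ℕ) : {b : ℕ | wtN a b ≤ n}.Finite := by
  refine (Set.finite_le_nat (max a n)).subset fun b hb => ?_
  simp only [Set.mem_ofPred_eq, wtN] at hb ⊢
  split_ifs at hb with h <;> omega

section substAll
variable {R : Type} [CommRing R]

theorem substAll_zero (s : ℕ → NC ℕ R) (f : NC ℕ R) : substAll 0 s f = f := rfl
theorem substAll_succ (n : ℕ) (s : ℕ → NC ℕ R) (f : NC ℕ R) :
    substAll (n + 1) s f = subst n (s n) (substAll n s f) := rfl

theorem substAll_congr {n : ℕ} {s s' : ℕ → NC ℕ R} (h : ∀ b < n, s b = s' b) (f : NC ℕ R) :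
    substAll n s f = substAll n s' f := by
  induction n with
  | zero => rfl
  | succ n ih =>
      rw [substAll_succ, substAll_succ, ih fun b hb => h b (by omega), h n (by omega)]

theorem map_substAll {R' : Type} [CommRing R'] (φ : R →+* R') (n : ℕ) (s : ℕ → NC ℕ R)
    (f : NC ℕ R) : map φ (substAll n s f) = substAll n (fun b => map φ (s b)) (map φ f) := by
  induction n with
  | zero => rfl
  | succ n ih => rw [substAll_succ, substAll_succ, map_subst, ih]

/-- The value of the equation `f` in the first `a` unknowns at the tuple `y`. -/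
def val (a : ℕ) (y : ℕ → NC ℕ R) (f : NC ℕ R) : NC ℕ R :=
  substAll a (fun b => y b - 1) f

theorem val_zero (y : ℕ → NC ℕ R) (f : NC ℕ R) : val 0 y f = f := rfl
theorem val_succ (n : ℕ) (y : ℕ → NC ℕ R) (f : NC ℕ R) :
    val (n + 1) y f = subst n (y n - 1) (val n y f) := rfl

theorem map_val {R' : Type} [CommRing R'] (φ : R →+* R') (n : ℕ) (y : ℕ → NC ℕ R)
    (f : NC ℕ R) : map φ (val n y f) = val n (fun b => map φ (y b)) (map φ f) := by
  unfold val
  rw [map_substAll]
  simp only [map_sub, map_one]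

theorem val_congr {n : ℕ} {y y' : ℕ → NC ℕ R} (h : ∀ b < n, y b = y' b) (f : NC ℕ R) :
    val n y f = val n y' f :=
  substAll_congr (fun b hb => by rw [h b hb]) f

end substAll

/-! ### Series with coefficients in a subring -/

section lift
variable {K : Type} [CommRing K]

/-- A series with coefficients in the subring `G`, as a series over `G`. -/
def liftG (G : Subring K) (f : NC ℕ K) (h : ∀ w, f w ∈ G) : NC ℕ G := ⟨fun w => ⟨f w, h w⟩⟩

@[simp] theorem liftG_apply (G : Subring K) (f : NC ℕ K) (h : ∀ w, f w ∈ G) (w : List ℕ) :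
    liftG G f h w = ⟨f w, h w⟩ := rfl

@[simp] theorem map_subtype_liftG (G : Subring K) (f : NC ℕ K) (h : ∀ w, f w ∈ G) :
    map G.subtype (liftG G f h) = f := by ext w; rfl

theorem map_subtype_injective (G : Subring K) :
    Function.Injective (map G.subtype : NC ℕ G → NC ℕ K) := by
  intro f g h
  ext w
  have := congrArg (fun s : NC ℕ K => s w) h
  exact this

theorem IsGL.liftG {G : Subring K} {f : NC ℕ K} (hf : IsGL f) (h : ∀ w, f w ∈ G) :
    IsGL (Pool.Agent.MP_23c465_al.liftG G f h) where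
  nil := Subtype.ext hf.nil
  mul u v := by
    apply Subtype.ext
    have h1 := hf.mul u v
    have h2 := map_infC G.subtype (Pool.Agent.MP_23c465_al.liftG G f h) u v
    rw [map_subtype_liftG] at h2
    rw [h2] at h1
    exact h1

theorem Free.liftG {G : Subring K} {a : ℕ} {f : NC ℕ K} (hf : Free a f) (h : ∀ w, f w ∈ G) :
    Free a (Pool.Agent.MP_23c465_al.liftG G f h) := by
  intro w hw
  exact Subtype.ext (hf w hw)

theorem subst_mem' (G : Subring K) (η : ℕ) (s f : NC ℕ K)
    (hf : ∀ W, f W ∈ G) (hs : ∀ W, s W ∈ G) (W : List ℕ) : subst η s f W ∈ G := by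
  have h := map_subst G.subtype η (liftG G s hs) (liftG G f hf)
  rw [map_subtype_liftG, map_subtype_liftG] at h
  rw [← h]
  exact (subst η (liftG G s hs) (liftG G f hf) W).2

theorem val_mem (G : Subring K) (n : ℕ) (y : ℕ → NC ℕ K) (f : NC ℕ K)
    (hf : ∀ W, f W ∈ G) (hy : ∀ b < n, ∀ W, y b W ∈ G) (W : List ℕ) : val n y f W ∈ G := by
  induction n generalizing W with
  | zero => exact hf W
  | succ n ih =>
      rw [val_succ]
      refine subst_mem' G n _ _ (ih fun b hb => hy b (by omega)) (fun W => ?_) W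
      rw [NC.sub_apply]
      refine G.sub_mem (hy n (by omega) W) ?_
      cases W with
      | nil => exact G.one_mem
      | cons b W => exact G.zero_mem

end lift

/-! ### The ultrapower -/

section ultra
variable {k : Type} [Field k] (ω : Ultrafilter ℕ)

/-- The sequence of series `y j`, as a series over the ultrapower. -/
noncomputable def germS (y : ℕ → NC ℕ k) : NC ℕ (Filter.Germ (ω : Filter ℕ) k) :=
  ⟨fun w => ((fun j => y j w : ℕ → k) : Filter.Germ (ω : Filter ℕ) k)⟩

theorem germS_apply (y : ℕ → NC ℕ k) (w : List ℕ) :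
    germS ω y w = ((fun j => y j w : ℕ → k) : Filter.Germ (ω : Filter ℕ) k) := rfl

/-- The sequence as a series over the ring of all sequences. -/
def seqS (y : ℕ → NC ℕ k) : NC ℕ (ℕ → k) := ⟨fun w j => y j w⟩

theorem map_eval_seqS (y : ℕ → NC ℕ k) (j : ℕ) :
    map (Pi.evalRingHom (fun _ : ℕ => k) j) (seqS y) = y j := by ext w; rfl

theorem map_coe_seqS (y : ℕ → NC ℕ k) :
    map (Filter.Germ.coeRingHom (ω : Filter ℕ)) (seqS y) = germS ω y := by ext w; rfl

theorem seqS_ext {f g : NC ℕ (ℕ → k)}
    (h : ∀ j, map (Pi.evalRingHom (fun _ : ℕ => k) j) f =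
      map (Pi.evalRingHom (fun _ : ℕ => k) j) g) : f = g := by
  ext w j
  have := congrArg (fun s : NC ℕ k => s w) (h j)
  exact this

theorem val_seqS (a : ℕ) (y : ℕ → ℕ → NC ℕ k) (f : ℕ → NC ℕ k) :
    val a (fun b => seqS fun j => y j b) (seqS f) = seqS fun j => val a (y j) (f j) := by
  apply seqS_ext
  intro j
  rw [map_val, map_eval_seqS, map_eval_seqS]
  rfl

theorem val_germS (a : ℕ) (y : ℕ → ℕ → NC ℕ k) (f : ℕ → NC ℕ k) :
    val a (fun b => germS ω fun j => y j b) (germS ω f) = germS ω fun j => val a (y j) (f j) := by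
  have h := congrArg (map (Filter.Germ.coeRingHom (ω : Filter ℕ))) (val_seqS a y f)
  rw [map_val, map_coe_seqS, map_coe_seqS] at h
  exact h

theorem germS_const (f : NC ℕ k) : germS ω (fun _ => f) = map (constHom k ω) f := by
  ext w; rfl

theorem germS_eq_one {y : ℕ → NC ℕ k} (h : ∀ᶠ j in (ω : Filter ℕ), y j = 1) :
    germS ω y = 1 := by
  ext w
  rw [germS_apply]
  have h2 : ((fun j => y j w : ℕ → k) : Filter.Germ (ω : Filter ℕ) k) =
      ((fun _ => (1 : NC ℕ k) w : ℕ → k) : Filter.Germ (ω : Filter ℕ) k) := by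
    rw [Filter.Germ.coe_eq]
    filter_upwards [h] with j hj
    rw [hj]
  rw [h2]
  cases w with
  | nil => rfl
  | cons b w => rfl

theorem IsGL.germS {y : ℕ → NC ℕ k} (h : ∀ j, IsGL (y j)) :
    IsGL (Pool.Agent.MP_23c465_al.germS ω y) := by
  rw [← map_coe_seqS]
  apply IsGL.map
  refine ⟨funext fun j => (h j).nil, fun u v => funext fun j => ?_⟩
  have h1 := (h j).mul u v
  have h2 := map_infC (Pi.evalRingHom (fun _ : ℕ => k) j) (seqS y) u v
  rw [map_eval_seqS] at h2
  rw [h2] at h1
  exact h1

theorem Free.germS {a : ℕ} {y : ℕ → NC ℕ k} (h : ∀ j, Free a (y j)) :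
    Free a (Pool.Agent.MP_23c465_al.germS ω y) := by
  intro w hw
  rw [germS_apply]
  have : (fun j => y j w : ℕ → k) = fun _ => 0 := funext fun j => h j w hw
  rw [this]
  rfl

end ultra

end Pool.Agent.MP_23c465_al
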